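import Mathlib
import Pool.Agent.H438R2.PD.A3
set_option autoImplicit false

/-! The extension operator of the parabola maps `L^4` to `L^q` for all `q > 4`. -/

namespace Pool.Agent.TH278.FN

open MeasureTheory Set Complex
open scoped ENNReal NNReal
open Pool.Agent.H438R2.PD (E1)

namespace J1596

open Pool.Agent.H438R2.PD Pool.Agent.H438R2.PD.A2

theorem half (f : ℝ → ℝ≥0∞) (hf : Measurable f) : ∫⁻ s : ℝ, f (s / 2) = 2 * ∫⁻ u, f u := by
  have h1 : Measure.map (fun x : ℝ => x * (2 : ℝ)⁻¹) volume =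
      ENNReal.ofReal |((2 : ℝ)⁻¹)⁻¹| • (volume : Measure ℝ) :=
    Real.map_volume_mul_right (by norm_num)
  have h2 : ∫⁻ u, f u ∂(Measure.map (fun x : ℝ => x * (2 : ℝ)⁻¹) volume) =
      ∫⁻ x : ℝ, f (x * (2 : ℝ)⁻¹) :=
    lintegral_map hf (measurable_id.mul_const _)
  simp only [div_eq_mul_inv]
  rw [← h2, h1, lintegral_smul_measure]
  norm_num

theorem shift_add (f : ℝ → ℝ≥0∞) (hf : Measurable f) (δ : ℝ) (hδ : 0 < δ) :
    ∫⁻ s : ℝ, ∫⁻ d in Ioc δ (2 * δ), f ((s + d) / 2) = ENNReal.ofReal (2 * δ) * ∫⁻ u, f u := by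
  have hm : Measurable (Function.uncurry fun s d : ℝ => f ((s + d) / 2)) :=
    hf.comp ((measurable_fst.add measurable_snd).div_const 2)
  rw [lintegral_lintegral_swap hm.aemeasurable]
  have h1 : ∀ d : ℝ, ∫⁻ s : ℝ, f ((s + d) / 2) = 2 * ∫⁻ u, f u := by
    intro d
    rw [lintegral_add_right_eq_self (fun s => f (s / 2)) d]
    exact half f hf
  simp only [h1]
  rw [setLIntegral_const, Real.volume_Ioc, ENNReal.ofReal_mul (by norm_num)]
  rw [show 2 * δ - δ = δ by ring]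
  rw [mul_comm _ (ENNReal.ofReal δ), ← mul_assoc, mul_comm (ENNReal.ofReal δ) 2]
  norm_num

theorem shift_sub (f : ℝ → ℝ≥0∞) (hf : Measurable f) (δ : ℝ) (hδ : 0 < δ) :
    ∫⁻ s : ℝ, ∫⁻ d in Ioc δ (2 * δ), f ((s - d) / 2) = ENNReal.ofReal (2 * δ) * ∫⁻ u, f u := by
  have hm : Measurable (Function.uncurry fun s d : ℝ => f ((s - d) / 2)) :=
    hf.comp ((measurable_fst.sub measurable_snd).div_const 2)
  rw [lintegral_lintegral_swap hm.aemeasurable]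
  have h1 : ∀ d : ℝ, ∫⁻ s : ℝ, f ((s - d) / 2) = 2 * ∫⁻ u, f u := by
    intro d
    rw [lintegral_sub_right_eq_self (fun s => f (s / 2)) d]
    exact half f hf
  simp only [h1]
  rw [setLIntegral_const, Real.volume_Ioc, ENNReal.ofReal_mul (by norm_num)]
  rw [show 2 * δ - δ = δ by ring]
  rw [mul_comm _ (ENNReal.ofReal δ), ← mul_assoc, mul_comm (ENNReal.ofReal δ) 2]
  norm_num

theorem mul_le_sq (x y : ℝ≥0∞) : x * y ≤ x ^ 2 + y ^ 2 := by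
  rcases le_total x y with h | h
  · calc x * y ≤ y * y := by gcongr
      _ = y ^ 2 := (sq y).symm
      _ ≤ _ := le_add_self
  · calc x * y ≤ x * x := by gcongr
      _ = x ^ 2 := (sq x).symm
      _ ≤ _ := le_self_add

/-- double integral of a symmetric product -/
theorem dbl (f : ℝ → ℝ≥0∞) (hf : Measurable f) (δ : ℝ) (hδ : 0 < δ) :
    ∫⁻ s : ℝ, ∫⁻ d in Ioc δ (2 * δ), f ((s + d) / 2) * f ((s - d) / 2) ≤
      ENNReal.ofReal (4 * δ) * ∫⁻ u, f u ^ 2 := by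
  have hf2 : Measurable fun u => f u ^ 2 := hf.pow_const 2
  have m1 : ∀ s : ℝ, Measurable fun d : ℝ => f ((s + d) / 2) ^ 2 := fun s =>
    hf2.comp ((measurable_const.add measurable_id).div_const 2)
  have m2 : Measurable fun q : ℝ × ℝ => f ((q.1 + q.2) / 2) ^ 2 :=
    hf2.comp ((measurable_fst.add measurable_snd).div_const 2)
  calc ∫⁻ s : ℝ, ∫⁻ d in Ioc δ (2 * δ), f ((s + d) / 2) * f ((s - d) / 2)
      ≤ ∫⁻ s : ℝ, ∫⁻ d in Ioc δ (2 * δ), (f ((s + d) / 2) ^ 2 + f ((s - d) / 2) ^ 2) :=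
        lintegral_mono fun s => lintegral_mono fun d => mul_le_sq _ _
    _ = ∫⁻ s : ℝ, ((∫⁻ d in Ioc δ (2 * δ), f ((s + d) / 2) ^ 2) +
          ∫⁻ d in Ioc δ (2 * δ), f ((s - d) / 2) ^ 2) := by
        refine lintegral_congr fun s => ?_
        exact lintegral_add_left (m1 s) _
    _ = (∫⁻ s : ℝ, ∫⁻ d in Ioc δ (2 * δ), f ((s + d) / 2) ^ 2) +
          ∫⁻ s : ℝ, ∫⁻ d in Ioc δ (2 * δ), f ((s - d) / 2) ^ 2 := by
        exact lintegral_add_left (Measurable.lintegral_prod_right' m2) _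
    _ = ENNReal.ofReal (4 * δ) * ∫⁻ u, f u ^ 2 := by
        rw [shift_add (fun u => f u ^ 2) hf2 δ hδ, shift_sub (fun u => f u ^ 2) hf2 δ hδ,
          ← add_mul, ← ENNReal.ofReal_add (by positivity) (by positivity)]
        congr 2
        ring

/-- sup bound for the pieces -/
theorem sup_bd (a : ℝ → ℂ) (ha : Measurable a) (k : ℕ) (ξ l : ℝ) :
    ‖B a k ξ l‖ₑ ≤ ENNReal.ofReal (4 * (1 / 2) ^ k) * ∫⁻ u, ‖a u‖ₑ ^ 2 := by
  have hδ : (0 : ℝ) < (1 / 2) ^ k := by positivity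
  refine le_trans ?_ (dbl (fun u => ‖a u‖ₑ) ha.enorm _ hδ)
  rw [A1.B_eq]
  refine (enorm_integral_le_lintegral_enorm _).trans ?_
  refine (setLIntegral_le_lintegral _ _).trans ?_
  refine lintegral_mono fun s => ?_
  refine (enorm_integral_le_lintegral_enorm _).trans ?_
  refine lintegral_mono fun d => ?_
  unfold A1.G
  rw [enorm_mul, enorm_mul]
  have : ‖Complex.exp (((l * ((s ^ 2 + d ^ 2) / 2) - ξ * s : ℝ) : ℂ) * I)‖ₑ = 1 := by
    rw [← ofReal_norm, Complex.norm_exp_ofReal_mul_I, ENNReal.ofReal_one]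
  rw [this, mul_one]

/-- Cauchy–Schwarz on `(-1, 1)` -/
theorem cs (a : ℝ → ℂ) (ha : Measurable a) (hs : ∀ u, u ∉ Ioo (-1 : ℝ) 1 → a u = 0) :
    ∫⁻ u, ‖a u‖ₑ ^ 2 ≤ 2 * (∫⁻ u, ‖a u‖ₑ ^ 4) ^ (1 / 2 : ℝ) := by
  have h0 : ∫⁻ u, ‖a u‖ₑ ^ 2 = ∫⁻ u in Ioo (-1 : ℝ) 1, ‖a u‖ₑ ^ 2 := by
    rw [← lintegral_indicator measurableSet_Ioo]
    refine lintegral_congr fun u => ?_
    by_cases hu : u ∈ Ioo (-1 : ℝ) 1
    · rw [indicator_of_mem hu]
    · rw [indicator_of_notMem hu, hs u hu]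
      simp
  have h := ENNReal.lintegral_mul_le_Lp_mul_Lq (volume.restrict (Ioo (-1 : ℝ) 1)) (p := 2)
    (q := 2) Real.HolderConjugate.two_two (f := fun _ => 1) (g := fun u => ‖a u‖ₑ ^ 2)
    measurable_const.aemeasurable (ha.enorm.pow_const 2).aemeasurable
  have e1 : ((fun _ => 1 : ℝ → ℝ≥0∞) * fun u => ‖a u‖ₑ ^ 2) = fun u => ‖a u‖ₑ ^ 2 := by
    funext u
    simp
  rw [e1] at h
  rw [h0]
  refine h.trans ?_
  refine mul_le_mul' ?_ ?_
  · simp only [ENNReal.one_rpow]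
    rw [setLIntegral_const, Real.volume_Ioo, one_mul]
    rw [ENNReal.ofReal_rpow_of_nonneg (by norm_num) (by norm_num)]
    rw [show (2 : ℝ≥0∞) = ENNReal.ofReal 2 by norm_num]
    apply ENNReal.ofReal_le_ofReal
    calc ((1 : ℝ) - -1) ^ (1 / 2 : ℝ) ≤ ((1 : ℝ) - -1) ^ (1 : ℝ) :=
          Real.rpow_le_rpow_of_exponent_le (by norm_num) (by norm_num)
      _ = 2 := by norm_num
  · refine ENNReal.rpow_le_rpow ?_ (by norm_num)
    calc ∫⁻ u in Ioo (-1 : ℝ) 1, (‖a u‖ₑ ^ 2) ^ (2 : ℝ)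
        ≤ ∫⁻ u, (‖a u‖ₑ ^ 2) ^ (2 : ℝ) := setLIntegral_le_lintegral _ _
      _ = ∫⁻ u, ‖a u‖ₑ ^ 4 := by
          refine lintegral_congr fun u => ?_
          rw [show (2 : ℝ) = ((2 : ℕ) : ℝ) by norm_num, ENNReal.rpow_natCast, ← pow_mul]

/-- Plancherel in `l` for the inner integral, keeping the integral -/
theorem Psi_l2' (a : ℝ → ℂ) (M : ℝ) (ha : Measurable a) (hM : ∀ u, ‖a u‖ ≤ M) (k : ℕ) (s : ℝ) :
    ∫⁻ l, ENNReal.ofReal (‖Psi a k s l‖ ^ 2) ≤ ENNReal.ofReal (2 * Real.pi / (1 / 2) ^ k) *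
      ∫⁻ d in Ioc ((1 / 2 : ℝ) ^ k) (2 * (1 / 2 : ℝ) ^ k),
        ‖a ((s + d) / 2)‖ₑ ^ 2 * ‖a ((s - d) / 2)‖ₑ ^ 2 := by
  have hM0 : 0 ≤ M := (norm_nonneg _).trans (hM 0)
  have hδ : (0 : ℝ) < (1 / 2) ^ k := by positivity
  set δ : ℝ := (1 / 2) ^ k with hδd
  set g : ℝ → ℂ := fun r => a ((s + Real.sqrt (2 * r)) / 2) * a ((s - Real.sqrt (2 * r)) / 2) *
          ((1 / Real.sqrt (2 * r) : ℝ) : ℂ) with hg
  have hgm : Measurable g := by
    have e1 : Measurable (fun r : ℝ => a ((s + Real.sqrt (2 * r)) / 2)) := ha.comp (by fun_prop)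
    have e2 : Measurable (fun r : ℝ => a ((s - Real.sqrt (2 * r)) / 2)) := ha.comp (by fun_prop)
    have e3 : Measurable (fun r : ℝ => ((1 / Real.sqrt (2 * r) : ℝ) : ℂ)) := by
      apply Complex.measurable_ofReal.comp
      exact measurable_const.div (by fun_prop)
    exact (e1.mul e2).mul e3
  have hgb : ∀ r ∈ Ioc (δ ^ 2 / 2) (2 * δ ^ 2), ‖g r‖ ≤ M ^ 2 / δ := by
    intro r hr
    have h1 : δ ≤ Real.sqrt (2 * r) := by
      apply Real.le_sqrt_of_sq_le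
      linarith [hr.1]
    simp only [hg]
    rw [norm_mul, norm_mul, Complex.norm_real, Real.norm_eq_abs, abs_of_nonneg (by positivity),
      mul_one_div, sq]
    apply div_le_div₀ (by positivity) (mul_le_mul (hM _) (hM _) (norm_nonneg _) hM0) hδ h1
  have hfin : volume (Ioc (δ ^ 2 / 2) (2 * δ ^ 2)) ≠ ⊤ := by
    rw [Real.volume_Ioc]
    exact ENNReal.ofReal_ne_top
  have h1 : Integrable ((Ioc (δ ^ 2 / 2) (2 * δ ^ 2)).indicator g) :=
    memLp_one_iff_integrable.1 (ind_lp measurableSet_Ioc hfin hgm hgb 1)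
  have h2 := ind_lp measurableSet_Ioc hfin hgm hgb 2
  have h3 := planch _ h1 h2 (-(2 * Real.pi)) (by
    have := Real.pi_pos
    linarith)
  have h4 : ∀ l, Psi a k s l = ∫ r : ℝ,
      Complex.exp ((((-2 * Real.pi * r * (l / (-(2 * Real.pi)))) : ℝ) : ℂ) * I) *
      (Ioc (δ ^ 2 / 2) (2 * δ ^ 2)).indicator g r := fun l => Psi_eq a k s l
  simp only [h4]
  rw [h3, abs_neg, abs_of_pos (by positivity)]
  have h5 : ∫⁻ r, ENNReal.ofReal (‖(Ioc (δ ^ 2 / 2) (2 * δ ^ 2)).indicator g r‖ ^ 2) =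
      ∫⁻ r in Ioc (δ ^ 2 / 2) (2 * δ ^ 2), ENNReal.ofReal (‖g r‖ ^ 2) := by
    rw [← lintegral_indicator measurableSet_Ioc]
    refine lintegral_congr fun r => ?_
    by_cases hr : r ∈ Ioc (δ ^ 2 / 2) (2 * δ ^ 2)
    · rw [indicator_of_mem hr, indicator_of_mem hr]
    · rw [indicator_of_notMem hr, indicator_of_notMem hr]
      simp
  have h6 : ∫⁻ r in Ioc (δ ^ 2 / 2) (2 * δ ^ 2), ENNReal.ofReal (‖g r‖ ^ 2) =
      ∫⁻ d in Ioc δ (2 * δ), ENNReal.ofReal |d| * ENNReal.ofReal (‖g (d ^ 2 / 2)‖ ^ 2) := by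
    rw [← image_eq δ hδ, lintegral_image_eq_lintegral_abs_deriv_mul (f' := fun d => d)
      measurableSet_Ioc]
    · intro d _
      have h := ((hasDerivAt_pow 2 d).div_const 2)
      have e4 : ((2 : ℕ) : ℝ) * d ^ (2 - 1) / 2 = d := by
        norm_num
      rw [e4] at h
      exact h.hasDerivWithinAt
    · intro x hx y hy hxy
      simp only at hxy
      have hx0 : 0 < x := hδ.trans hx.1
      have hy0 : 0 < y := hδ.trans hy.1
      nlinarith [sq_nonneg (x - y), mul_pos hx0 hy0]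
  rw [h5, h6]
  have hpi := Real.pi_pos
  have e0 : ENNReal.ofReal (2 * Real.pi / δ) = ENNReal.ofReal (2 * Real.pi) * ENNReal.ofReal δ⁻¹ := by
    rw [div_eq_mul_inv, ENNReal.ofReal_mul (by positivity)]
  rw [e0, mul_assoc]
  refine mul_le_mul' le_rfl ?_
  rw [← lintegral_const_mul' _ _ ENNReal.ofReal_ne_top]
  refine setLIntegral_mono' measurableSet_Ioc fun d hd => ?_
  have hd0 : 0 < d := hδ.trans hd.1
  have e3 : Real.sqrt (2 * (d ^ 2 / 2)) = d := by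
    rw [show 2 * (d ^ 2 / 2) = d ^ 2 by ring, Real.sqrt_sq hd0.le]
  simp only [hg, e3, abs_of_pos hd0]
  rw [norm_mul, norm_mul, Complex.norm_real, Real.norm_eq_abs, abs_of_nonneg (by positivity),
    ← ofReal_norm, ← ofReal_norm, ← ENNReal.ofReal_pow (norm_nonneg _),
    ← ENNReal.ofReal_pow (norm_nonneg _), ← ENNReal.ofReal_mul hd0.le,
    ← ENNReal.ofReal_mul (by positivity), ← ENNReal.ofReal_mul (by positivity)]
  apply ENNReal.ofReal_le_ofReal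
  have e5 : d * (‖a ((s + d) / 2)‖ * ‖a ((s - d) / 2)‖ * (1 / d)) ^ 2 =
      d⁻¹ * (‖a ((s + d) / 2)‖ ^ 2 * ‖a ((s - d) / 2)‖ ^ 2) := by
    field_simp
  rw [e5]
  refine mul_le_mul_of_nonneg_right ?_ (by positivity)
  exact inv_anti₀ hδ hd.1.le

/-- Plancherel in `ξ` -/
theorem step (a : ℝ → ℂ) (M : ℝ) (ha : Measurable a) (hM : ∀ u, ‖a u‖ ≤ M) (k : ℕ) (l : ℝ) :
    ∫⁻ ξ, ENNReal.ofReal (‖B a k ξ l‖ ^ 2) =
      ENNReal.ofReal (2 * Real.pi) *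
        ∫⁻ s in Ioo (-2 : ℝ) 2, ENNReal.ofReal (‖Psi a k s l‖ ^ 2) := by
  have hpi := Real.pi_pos
  have hmeas := Psi_meas a ha k
  have hfin : volume (Ioo (-2 : ℝ) 2) ≠ ⊤ := by
    rw [Real.volume_Ioo]
    exact ENNReal.ofReal_ne_top
  set g : ℝ → ℂ := fun s => Complex.exp (((l * (s ^ 2 / 2) : ℝ) : ℂ) * I) * Psi a k s l with hg
  have hgm : Measurable g := by
    have e1 : Measurable (fun s : ℝ => Complex.exp (((l * (s ^ 2 / 2) : ℝ) : ℂ) * I)) := by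
      fun_prop
    have e2 : Measurable (fun s : ℝ => Psi a k s l) :=
      hmeas.comp (measurable_id.prodMk measurable_const)
    exact e1.mul e2
  have hgn : ∀ s, ‖g s‖ = ‖Psi a k s l‖ := by
    intro s
    simp only [hg]
    rw [norm_mul, norm_e, one_mul]
  have hgb : ∀ s ∈ Ioo (-2 : ℝ) 2, ‖g s‖ ≤ M ^ 2 * (1 / 2) ^ k := by
    intro s _
    rw [hgn]
    exact Psi_bound a M hM k s l
  have h1 : Integrable ((Ioo (-2 : ℝ) 2).indicator g) :=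
    memLp_one_iff_integrable.1 (ind_lp measurableSet_Ioo hfin hgm hgb 1)
  have h2 := ind_lp measurableSet_Ioo hfin hgm hgb 2
  have h3 := planch _ h1 h2 (2 * Real.pi) (by positivity)
  have h4 : ∀ ξ, B a k ξ l = ∫ s : ℝ,
      Complex.exp ((((-2 * Real.pi * s * (ξ / (2 * Real.pi))) : ℝ) : ℂ) * I) *
      (Ioo (-2 : ℝ) 2).indicator g s := fun ξ => A2.B_eq a k ξ l
  simp only [h4]
  rw [h3, abs_of_pos (by positivity), ← lintegral_indicator measurableSet_Ioo]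
  congr 1
  refine lintegral_congr fun s => ?_
  by_cases hs : s ∈ Ioo (-2 : ℝ) 2
  · rw [indicator_of_mem hs, indicator_of_mem hs, hgn]
  · rw [indicator_of_notMem hs, indicator_of_notMem hs]
    simp

/-- the `L²` bound of the pieces -/
theorem B_l2' (a : ℝ → ℂ) (M : ℝ) (ha : Measurable a) (hM : ∀ u, ‖a u‖ ≤ M) (k : ℕ) :
    ∫⁻ l, ∫⁻ ξ, ENNReal.ofReal (‖B a k ξ l‖ ^ 2) ≤
      ENNReal.ofReal (16 * Real.pi ^ 2) * ∫⁻ u, ‖a u‖ₑ ^ 4 := by
  have hpi := Real.pi_pos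
  have hδ : (0 : ℝ) < (1 / 2) ^ k := by positivity
  have hmeas := Psi_meas a ha k
  simp only [step a M ha hM k]
  rw [lintegral_const_mul' _ _ ENNReal.ofReal_ne_top]
  have hswap : ∫⁻ l, ∫⁻ s in Ioo (-2 : ℝ) 2, ENNReal.ofReal (‖Psi a k s l‖ ^ 2) =
      ∫⁻ s in Ioo (-2 : ℝ) 2, ∫⁻ l, ENNReal.ofReal (‖Psi a k s l‖ ^ 2) := by
    apply lintegral_lintegral_swap
    apply Measurable.aemeasurable
    have e1 : Measurable (fun z : ℝ × ℝ => Psi a k z.2 z.1) := hmeas.comp measurable_swap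
    exact ENNReal.measurable_ofReal.comp (e1.norm.pow_const 2)
  rw [hswap]
  calc ENNReal.ofReal (2 * Real.pi) *
        ∫⁻ s in Ioo (-2 : ℝ) 2, ∫⁻ l, ENNReal.ofReal (‖Psi a k s l‖ ^ 2)
      ≤ ENNReal.ofReal (2 * Real.pi) * ∫⁻ s, ∫⁻ l, ENNReal.ofReal (‖Psi a k s l‖ ^ 2) :=
        mul_le_mul' le_rfl (setLIntegral_le_lintegral _ _)
    _ ≤ ENNReal.ofReal (2 * Real.pi) * ∫⁻ s, ENNReal.ofReal (2 * Real.pi / (1 / 2) ^ k) *
          ∫⁻ d in Ioc ((1 / 2 : ℝ) ^ k) (2 * (1 / 2 : ℝ) ^ k),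
            ‖a ((s + d) / 2)‖ₑ ^ 2 * ‖a ((s - d) / 2)‖ₑ ^ 2 :=
        mul_le_mul' le_rfl (lintegral_mono fun s => Psi_l2' a M ha hM k s)
    _ = ENNReal.ofReal (2 * Real.pi) * (ENNReal.ofReal (2 * Real.pi / (1 / 2) ^ k) * ∫⁻ s,
          ∫⁻ d in Ioc ((1 / 2 : ℝ) ^ k) (2 * (1 / 2 : ℝ) ^ k),
            ‖a ((s + d) / 2)‖ₑ ^ 2 * ‖a ((s - d) / 2)‖ₑ ^ 2) := by
        rw [lintegral_const_mul' _ _ ENNReal.ofReal_ne_top]
    _ ≤ ENNReal.ofReal (2 * Real.pi) * (ENNReal.ofReal (2 * Real.pi / (1 / 2) ^ k) *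
          (ENNReal.ofReal (4 * (1 / 2) ^ k) * ∫⁻ u, (‖a u‖ₑ ^ 2) ^ 2)) := by
        refine mul_le_mul' le_rfl (mul_le_mul' le_rfl ?_)
        exact dbl (fun u => ‖a u‖ₑ ^ 2) (ha.enorm.pow_const 2) _ hδ
    _ = ENNReal.ofReal (16 * Real.pi ^ 2) * ∫⁻ u, ‖a u‖ₑ ^ 4 := by
        have e1 : ∀ u, (‖a u‖ₑ ^ 2) ^ 2 = ‖a u‖ₑ ^ 4 := fun u => by rw [← pow_mul]
        simp only [e1]
        rw [← mul_assoc, ← mul_assoc, ← ENNReal.ofReal_mul (by positivity), 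
          ← ENNReal.ofReal_mul (by positivity)]
        congr 2
        field_simp
        ring

end J1596

open J1596 Pool.Agent.H438R2.PD in
/-- The extension operator of the parabola maps `L⁴` to `L^q`, `q > 4`. -/
theorem parabola (q : ℝ) (hq : 4 < q) : ∃ C : ℝ≥0, ∀ a : ℝ → ℂ, Measurable a →
    (∃ M : ℝ, ∀ u, ‖a u‖ ≤ M) →
    ∫⁻ l : ℝ, ∫⁻ ξ : ℝ, ‖E1 a ξ l‖ₑ ^ q ≤
      C * (∫⁻ u in Ioo (-1 : ℝ) 1, ‖a u‖ₑ ^ 4) ^ (q / 4) := by
  obtain ⟨P, hP⟩ : ∃ P : ℝ, P = q := ⟨_, rfl⟩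
  rw [← hP] at hq ⊢
  clear hP q
  obtain ⟨q, hqP⟩ : ∃ q : ℝ, q = P / 2 := ⟨_, rfl⟩
  have hpi := Real.pi_pos
  have hPq : P = 2 * q := by rw [hqP]; ring
  have hq2 : 2 < q := by rw [hqP]; linarith
  have hq1 : 1 < q := by linarith
  have hq0 : 0 < q := by linarith
  set e : ℝ := (q - 2) / (2 * (q - 1)) with he
  have he0 : 0 < e := div_pos (by linarith) (by linarith)
  set r : ℝ := (1 / 2 : ℝ) ^ e with hr
  have hr0 : 0 < r := Real.rpow_pos_of_pos (by norm_num) _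
  have hr1 : r < 1 := Real.rpow_lt_one (by norm_num) (by norm_num) he0
  set ρ : ℝ := (1 / 2 : ℝ) ^ ((q - 2) / 2) with hρ
  have hρ0 : 0 < ρ := Real.rpow_pos_of_pos (by norm_num) _
  have hρ1 : ρ < 1 := Real.rpow_lt_one (by norm_num) (by norm_num) (by linarith)
  have hr1' : 0 < 1 - r := by linarith
  have hρ1' : 0 < 1 - ρ := by linarith
  refine ⟨Real.toNNReal (((1 - r)⁻¹) ^ (q - 1) * ((1 - ρ)⁻¹ * (8 ^ (q - 2) *
    (16 * Real.pi ^ 2)))), fun a₀ ha₀ hM₀' => ?_⟩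
  obtain ⟨M, hM₀⟩ := hM₀'
  have hM0 : 0 ≤ M := (norm_nonneg _).trans (hM₀ 0)
  set a : ℝ → ℂ := (Ioo (-1 : ℝ) 1).indicator a₀ with hadef
  have ha : Measurable a := ha₀.indicator measurableSet_Ioo
  have hM : ∀ u, ‖a u‖ ≤ M := by
    intro u
    rw [hadef]
    by_cases hu : u ∈ Ioo (-1 : ℝ) 1
    · rw [indicator_of_mem hu]; exact hM₀ u
    · rw [indicator_of_notMem hu, norm_zero]; exact hM0
  have hs : ∀ u, u ∉ Ioo (-1 : ℝ) 1 → a u = 0 := fun u hu => indicator_of_notMem hu _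
  have hE : ∀ ξ l, E1 a₀ ξ l = E1 a ξ l := fun ξ l => (A3.E1_restrict a₀ ξ l).symm
  simp only [hE]
  have hN : ∫⁻ u in Ioo (-1 : ℝ) 1, ‖a₀ u‖ₑ ^ 4 = ∫⁻ u, ‖a u‖ₑ ^ 4 := by
    rw [← lintegral_indicator measurableSet_Ioo]
    refine lintegral_congr fun u => ?_
    by_cases hu : u ∈ Ioo (-1 : ℝ) 1
    · rw [indicator_of_mem hu, hadef, indicator_of_mem hu]
    · rw [indicator_of_notMem hu, hadef, indicator_of_notMem hu]
      simp
  rw [hN]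
  set N : ℝ≥0∞ := ∫⁻ u, ‖a u‖ₑ ^ 4 with hNdef
  set c : ℕ → ℝ≥0∞ := fun k => ENNReal.ofReal (r ^ k) with hc
  have hc0 : ∀ k, c k ≠ 0 := fun k => by
    rw [hc]
    simp only [ne_eq, ENNReal.ofReal_eq_zero, not_le]
    positivity
  have hc1 : ∀ k, c k ≠ ∞ := fun k => ENNReal.ofReal_ne_top
  have step1 : ∀ l ξ, ‖E1 a ξ l‖ₑ ^ P ≤
      (∑' k, c k) ^ (q - 1) * ∑' k, c k ^ (1 - q) * ENNReal.ofReal ‖B a k ξ l‖ ^ q := by
    intro l ξ
    have h1 : ‖E1 a ξ l‖ₑ ^ P = ENNReal.ofReal (‖E1 a ξ l‖ ^ 2) ^ q := by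
      rw [← ofReal_norm, ENNReal.ofReal_rpow_of_nonneg (norm_nonneg _) (by linarith),
        ENNReal.ofReal_rpow_of_nonneg (by positivity) hq0.le, ← Real.rpow_natCast,
        ← Real.rpow_mul (norm_nonneg _), hPq]
      norm_num
    rw [h1]
    exact (ENNReal.rpow_le_rpow (E1_sq a M ha hM hs ξ l) hq0.le).trans
      (A3.jensen_tsum q hq1 _ c hc0 hc1)
  have hmeas : ∀ k, Measurable fun x : ℝ × ℝ =>
      c k ^ (1 - q) * ENNReal.ofReal ‖B a k x.1 x.2‖ ^ q := fun k =>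
    (((B_meas a ha k).norm.ennreal_ofReal).pow_const q).const_mul _
  have step2 : ∫⁻ l, ∫⁻ ξ, (∑' k, c k) ^ (q - 1) *
      ∑' k, c k ^ (1 - q) * ENNReal.ofReal ‖B a k ξ l‖ ^ q =
      (∑' k, c k) ^ (q - 1) * ∑' k, ∫⁻ l, ∫⁻ ξ,
        c k ^ (1 - q) * ENNReal.ofReal ‖B a k ξ l‖ ^ q := by
    exact A3.swap ((∑' k, c k) ^ (q - 1))
      (fun k x => c k ^ (1 - q) * ENNReal.ofReal ‖B a k x.1 x.2‖ ^ q) hmeas
  have step3 : ∀ k, ∫⁻ l, ∫⁻ ξ, c k ^ (1 - q) * ENNReal.ofReal ‖B a k ξ l‖ ^ q ≤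
      ENNReal.ofReal (ρ ^ k) * (ENNReal.ofReal (8 ^ (q - 2) * (16 * Real.pi ^ 2)) *
        N ^ (P / 4)) := by
    intro k
    set S : ℝ≥0∞ := ENNReal.ofReal (8 * (1 / 2) ^ k) * N ^ (1 / 2 : ℝ) with hS
    have hB : ∀ ξ l, ENNReal.ofReal ‖B a k ξ l‖ ≤ S := by
      intro ξ l
      rw [ofReal_norm]
      refine (sup_bd a ha k ξ l).trans ?_
      refine (mul_le_mul' le_rfl (cs a ha hs)).trans (le_of_eq ?_)
      rw [hS, ← mul_assoc]
      congr 1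
      rw [show (2 : ℝ≥0∞) = ENNReal.ofReal 2 by norm_num, ← ENNReal.ofReal_mul (by positivity)]
      congr 1
      ring
    have h1 : ∀ l ξ, c k ^ (1 - q) * ENNReal.ofReal ‖B a k ξ l‖ ^ q ≤
        (c k ^ (1 - q) * S ^ (q - 2)) * ENNReal.ofReal (‖B a k ξ l‖ ^ 2) := by
      intro l ξ
      rw [mul_assoc]
      refine mul_le_mul' le_rfl ?_
      have h2 : ENNReal.ofReal ‖B a k ξ l‖ ^ q =
          ENNReal.ofReal ‖B a k ξ l‖ ^ (q - 2) * ENNReal.ofReal (‖B a k ξ l‖ ^ 2) := by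
        rw [ENNReal.ofReal_pow (norm_nonneg _), ← ENNReal.rpow_natCast,
          ← ENNReal.rpow_add_of_nonneg _ _ (by linarith) (by norm_num)]
        congr 1
        push_cast
        ring
      rw [h2]
      exact mul_le_mul' (ENNReal.rpow_le_rpow (hB ξ l) (by linarith)) le_rfl
    have hck : c k ^ (1 - q) = ENNReal.ofReal ((r ^ k) ^ (1 - q)) := by
      rw [hc, ENNReal.ofReal_rpow_of_pos (by positivity)]
    calc ∫⁻ l, ∫⁻ ξ, c k ^ (1 - q) * ENNReal.ofReal ‖B a k ξ l‖ ^ q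
        ≤ ∫⁻ l, ∫⁻ ξ, (c k ^ (1 - q) * S ^ (q - 2)) *
            ENNReal.ofReal (‖B a k ξ l‖ ^ 2) :=
          lintegral_mono fun l => lintegral_mono fun ξ => h1 l ξ
      _ = (c k ^ (1 - q) * S ^ (q - 2)) *
          ∫⁻ l, ∫⁻ ξ, ENNReal.ofReal (‖B a k ξ l‖ ^ 2) := by
          have hm3 : Measurable fun x : ℝ × ℝ => ENNReal.ofReal (‖B a k x.1 x.2‖ ^ 2) :=
            (((B_meas a ha k).norm.pow_const 2)).ennreal_ofReal
          exact A3.pull (c k ^ (1 - q) * S ^ (q - 2))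
            (fun x => ENNReal.ofReal (‖B a k x.1 x.2‖ ^ 2)) hm3
      _ ≤ (c k ^ (1 - q) * S ^ (q - 2)) * (ENNReal.ofReal (16 * Real.pi ^ 2) * N) :=
          mul_le_mul' le_rfl (B_l2' a M ha hM k)
      _ = ENNReal.ofReal (ρ ^ k) * (ENNReal.ofReal (8 ^ (q - 2) * (16 * Real.pi ^ 2)) *
        N ^ (P / 4)) := by
          have h3 : S ^ (q - 2) = ENNReal.ofReal (8 ^ (q - 2) * ((1 / 2 : ℝ) ^ k) ^ (q - 2)) *
              N ^ ((q - 2) / 2) := by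
            rw [hS, ENNReal.mul_rpow_of_nonneg _ _ (by linarith),
              ENNReal.ofReal_rpow_of_nonneg (by positivity) (by linarith),
              Real.mul_rpow (by positivity) (by positivity), ← ENNReal.rpow_mul]
            congr 2
            ring
          have h4 := A3.exps q hq2 k
          rw [← he, ← hr, ← hρ] at h4
          have h5 : N ^ ((q - 2) / 2) * N = N ^ (P / 4) := by
            nth_rw 2 [← ENNReal.rpow_one N]
            rw [← ENNReal.rpow_add_of_nonneg _ _ (by linarith) (by norm_num), hPq]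
            congr 1
            ring
          rw [hck, h3, ← h4, ← h5, ENNReal.ofReal_mul (p := (r ^ k) ^ (1 - q)) (by positivity),
            ENNReal.ofReal_mul (p := (8 : ℝ) ^ (q - 2)) (by positivity),
            ENNReal.ofReal_mul (p := (8 : ℝ) ^ (q - 2)) (by positivity)]
          ring
  calc ∫⁻ l, ∫⁻ ξ, ‖E1 a ξ l‖ₑ ^ P
      ≤ ∫⁻ l, ∫⁻ ξ, (∑' k, c k) ^ (q - 1) *
        ∑' k, c k ^ (1 - q) * ENNReal.ofReal ‖B a k ξ l‖ ^ q :=
        lintegral_mono fun l => lintegral_mono fun ξ => step1 l ξ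
    _ = (∑' k, c k) ^ (q - 1) * ∑' k, ∫⁻ l, ∫⁻ ξ,
        c k ^ (1 - q) * ENNReal.ofReal ‖B a k ξ l‖ ^ q := step2
    _ ≤ (∑' k, c k) ^ (q - 1) * ∑' k, ENNReal.ofReal (ρ ^ k) *
          (ENNReal.ofReal (8 ^ (q - 2) * (16 * Real.pi ^ 2)) * N ^ (P / 4)) :=
        mul_le_mul' le_rfl (ENNReal.tsum_le_tsum step3)
    _ = ENNReal.ofReal (((1 - r)⁻¹) ^ (q - 1) * ((1 - ρ)⁻¹ * (8 ^ (q - 2) *
          (16 * Real.pi ^ 2)))) * N ^ (P / 4) := by
        rw [ENNReal.tsum_mul_right, A3.tsum_geo ρ hρ0.le hρ1, hc, A3.tsum_geo r hr0.le hr1,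
          ENNReal.ofReal_rpow_of_nonneg (by positivity) (by linarith),
          ENNReal.ofReal_mul (p := ((1 - r)⁻¹) ^ (q - 1)) (by positivity),
          ENNReal.ofReal_mul (p := (1 - ρ)⁻¹) (by positivity)]
        ring

end Pool.Agent.TH278.FN
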