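import Mathlib
import Pool.Agent.H438R2.BR.T11
import Pool.Agent.H789R2.FR.Sph
set_option autoImplicit false

/-! Archimedes coordinates on the sphere of `E (k + m)`: projection to the unit ball of `E m`. -/

namespace Pool.Agent.TH278.FN

open MeasureTheory Set Complex
open scoped ENNReal NNReal RealInnerProductSpace
open Pool.Agent.H789R2.FR (E sg T)
open Pool.Agent.H438R2.BR (J)

namespace J1597

open Pool.Agent.H438R2.BR (Q)

/-- Substitution `r = sin θ`. -/
theorem subst_sin (h : ℝ → ℝ≥0∞) :
    ∫⁻ r in Ioo (0 : ℝ) 1, h r = ∫⁻ t in Q, ENNReal.ofReal (Real.cos t) * h (Real.sin t) := by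
  have hpi := Real.pi_pos
  have himg : Real.sin '' Q = Ioo (0 : ℝ) 1 := by
    ext c
    constructor
    · rintro ⟨t, ht, rfl⟩
      refine ⟨Real.sin_pos_of_pos_of_lt_pi ht.1 (by linarith [ht.2]), ?_⟩
      have := Real.strictMonoOn_sin (show t ∈ Icc (-(Real.pi / 2)) (Real.pi / 2) from
        ⟨by linarith [ht.1], ht.2.le⟩)
        (show Real.pi / 2 ∈ Icc (-(Real.pi / 2)) (Real.pi / 2) from ⟨by linarith, le_rfl⟩) ht.2
      rwa [Real.sin_pi_div_two] at this
    · intro hc
      refine ⟨Real.arcsin c, ⟨Real.arcsin_pos.2 hc.1, ?_⟩,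
        Real.sin_arcsin (by linarith [hc.1]) hc.2.le⟩
      exact Real.arcsin_lt_pi_div_two.2 hc.2
  have hsub : Q ⊆ Icc (-(Real.pi / 2)) (Real.pi / 2) :=
    fun t ht => ⟨by linarith [ht.1], ht.2.le⟩
  have hinj : InjOn Real.sin Q := Real.injOn_sin.mono hsub
  rw [← himg, lintegral_image_eq_lintegral_abs_deriv_mul (by unfold Q; exact measurableSet_Ioo)
    (fun t _ => (Real.hasDerivAt_sin t).hasDerivWithinAt) hinj]
  apply setLIntegral_congr_fun (by unfold Q; exact measurableSet_Ioo)
  intro t ht
  simp only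
  rw [abs_of_pos (Real.cos_pos_of_mem_Ioo ⟨by linarith [ht.1], ht.2⟩)]

end J1597

open J1597 in
theorem arch (k m : ℕ) (hk : 1 ≤ k) (hm : 1 ≤ m) (f : E (k + m) → ℝ≥0∞) (hf : Measurable f) :
    ∫⁻ z, f z ∂(sg (k + m)) = ∫⁻ y in Metric.ball (0 : E m) 1,
      ENNReal.ofReal ((1 - ‖y‖ ^ 2) ^ (((k : ℝ) - 2) / 2)) *
        ∫⁻ u, f (J (Real.sqrt (1 - ‖y‖ ^ 2) • u) y) ∂(sg k) := by
  have hpi := Real.pi_pos
  have := Pool.Agent.H789R2.FR.sg_finite k
  have := Pool.Agent.H789R2.FR.sg_finite m
  have hJc : Measurable fun p : E k × E m => J p.1 p.2 :=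
    (Pool.Agent.H438R2.BR.J_mp k m).measurable
  have hQm : MeasurableSet Pool.Agent.H438R2.BR.Q := by
    unfold Pool.Agent.H438R2.BR.Q; exact measurableSet_Ioo
  set w : E m → ℝ≥0∞ := fun y => ENNReal.ofReal ((1 - ‖y‖ ^ 2) ^ (((k : ℝ) - 2) / 2)) with hw
  have hwm : Measurable w := by
    rw [hw]
    exact ((measurable_const.sub (measurable_norm.pow_const 2)).pow_const _).ennreal_ofReal
  set I : E m → ℝ≥0∞ := fun y => ∫⁻ u, f (J (Real.sqrt (1 - ‖y‖ ^ 2) • u) y) ∂(sg k) with hI
  have hIm : Measurable I := by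
    rw [hI]
    apply Measurable.lintegral_prod_right'
      (f := fun q : E m × E k => f (J (Real.sqrt (1 - ‖q.1‖ ^ 2) • q.2) q.1))
    apply hf.comp (hJc.comp (Measurable.prodMk _ measurable_fst))
    exact ((Real.continuous_sqrt.measurable.comp (measurable_const.sub
      ((measurable_norm.comp measurable_fst).pow_const 2))).smul measurable_snd)
  have hgm : Measurable ((Metric.ball (0 : E m) 1).indicator fun y => w y * I y) :=
    (hwm.mul hIm).indicator Metric.isOpen_ball.measurableSet
  -- measurability of the integrand in all variables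
  have m6 : Measurable fun q : (ℝ × E m) × E k =>
      f (J (Real.cos q.1.1 • q.2) (Real.sin q.1.1 • q.1.2)) :=
    hf.comp (hJc.comp (((Real.measurable_cos.comp
      (measurable_fst.comp measurable_fst)).smul measurable_snd).prodMk
      ((Real.measurable_sin.comp (measurable_fst.comp measurable_fst)).smul
        (measurable_snd.comp measurable_fst))))
  have m7 : Measurable fun q : ℝ × E m =>
      ∫⁻ u, f (J (Real.cos q.1 • u) (Real.sin q.1 • q.2)) ∂(sg k) :=
    Measurable.lintegral_prod_right' m6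
  have m8 : Measurable fun θ : ℝ => ENNReal.ofReal ((Real.cos θ) ^ (k - 1) *
      (Real.sin θ) ^ (m - 1)) := Measurable.ennreal_ofReal (by fun_prop)
  calc ∫⁻ z, f z ∂(sg (k + m)) = ∫⁻ θ in Pool.Agent.H438R2.BR.Q,
        ENNReal.ofReal ((Real.cos θ) ^ (k - 1) * (Real.sin θ) ^ (m - 1)) *
        ∫⁻ u, ∫⁻ v, f (J (Real.cos θ • u) (Real.sin θ • v)) ∂(sg m) ∂(sg k) :=
        Pool.Agent.H438R2.BR.bipolar k m hk hm f hf
    _ = ∫⁻ θ in Pool.Agent.H438R2.BR.Q, ∫⁻ v,
        ENNReal.ofReal ((Real.cos θ) ^ (k - 1) * (Real.sin θ) ^ (m - 1)) *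
        ∫⁻ u, f (J (Real.cos θ • u) (Real.sin θ • v)) ∂(sg k) ∂(sg m) := by
        apply lintegral_congr
        intro θ
        rw [lintegral_const_mul]
        · congr 1
          have m10 : Measurable (Function.uncurry fun (u : E k) (v : E m) =>
              f (J (Real.cos θ • u) (Real.sin θ • v))) :=
            hf.comp (hJc.comp ((measurable_fst.const_smul (Real.cos θ)).prodMk
              (measurable_snd.const_smul (Real.sin θ))))
          rw [lintegral_lintegral_swap m10.aemeasurable]
        · have m12 : Measurable fun q : E m × E k => f (J (Real.cos θ • q.2) (Real.sin θ • q.1)) :=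
            hf.comp (hJc.comp ((measurable_snd.const_smul (Real.cos θ)).prodMk
              (measurable_fst.const_smul (Real.sin θ))))
          exact Measurable.lintegral_prod_right' m12
    _ = ∫⁻ v, (∫⁻ θ in Pool.Agent.H438R2.BR.Q,
        ENNReal.ofReal ((Real.cos θ) ^ (k - 1) * (Real.sin θ) ^ (m - 1)) *
        ∫⁻ u, f (J (Real.cos θ • u) (Real.sin θ • v)) ∂(sg k)) ∂(sg m) := by
        have m9 : Measurable (Function.uncurry fun (θ : ℝ) (v : E m) =>
            ENNReal.ofReal ((Real.cos θ) ^ (k - 1) * (Real.sin θ) ^ (m - 1)) *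
              ∫⁻ u, f (J (Real.cos θ • u) (Real.sin θ • v)) ∂(sg k)) :=
          (m8.comp measurable_fst).mul m7
        rw [lintegral_lintegral_swap m9.aemeasurable]
    _ = ∫⁻ v, (∫⁻ r in Ioi (0 : ℝ), ENNReal.ofReal (r ^ (m - 1)) *
          (Metric.ball (0 : E m) 1).indicator (fun y => w y * I y) (r • v)) ∂(sg m) := by
        apply lintegral_congr_ae
        filter_upwards [Pool.Agent.H789R2.FR.sg_ae m] with v hv
        have e1 : ∫⁻ r in Ioi (0 : ℝ), ENNReal.ofReal (r ^ (m - 1)) *
            (Metric.ball (0 : E m) 1).indicator (fun y => w y * I y) (r • v) =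
            ∫⁻ r in Ioo (0 : ℝ) 1, ENNReal.ofReal (r ^ (m - 1)) * (w (r • v) * I (r • v)) := by
          rw [← lintegral_indicator measurableSet_Ioi, ← lintegral_indicator measurableSet_Ioo]
          apply lintegral_congr
          intro r
          by_cases hr : r ∈ Ioo (0 : ℝ) 1
          · rw [indicator_of_mem hr, indicator_of_mem (show r ∈ Ioi (0 : ℝ) from hr.1),
              indicator_of_mem]
            rw [mem_ball_zero_iff, norm_smul, hv, mul_one, Real.norm_eq_abs, abs_of_pos hr.1]
            exact hr.2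
          · rw [indicator_of_notMem hr]
            by_cases hr0 : r ∈ Ioi (0 : ℝ)
            · rw [indicator_of_mem hr0, indicator_of_notMem, mul_zero]
              rw [mem_ball_zero_iff, norm_smul, hv, mul_one, Real.norm_eq_abs,
                abs_of_pos hr0]
              intro h
              exact hr ⟨hr0, h⟩
            · rw [indicator_of_notMem hr0]
        rw [e1, subst_sin]
        apply setLIntegral_congr_fun hQm
        intro θ hθ
        have hc : 0 < Real.cos θ := Real.cos_pos_of_mem_Ioo ⟨by linarith [hθ.1], hθ.2⟩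
        have hs : 0 < Real.sin θ := Real.sin_pos_of_pos_of_lt_pi hθ.1 (by linarith [hθ.2])
        have hn : ‖Real.sin θ • v‖ = Real.sin θ := by
          rw [norm_smul, hv, mul_one, Real.norm_eq_abs, abs_of_pos hs]
        have h1 : 1 - ‖Real.sin θ • v‖ ^ 2 = Real.cos θ ^ 2 := by
          rw [hn]
          have := Real.sin_sq_add_cos_sq θ
          linarith
        simp only [hw, hI]
        rw [h1, Real.sqrt_sq hc.le]
        rw [← mul_assoc, ← mul_assoc, ← ENNReal.ofReal_mul hc.le,
          ← ENNReal.ofReal_mul (by positivity)]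
        congr 2
        have h2 : (Real.cos θ ^ 2) ^ (((k : ℝ) - 2) / 2) = Real.cos θ ^ ((k : ℝ) - 2) := by
          rw [← Real.rpow_natCast, ← Real.rpow_mul hc.le]
          congr 1
          push_cast
          ring
        have h3 : Real.cos θ ^ (k - 1) = Real.cos θ * Real.cos θ ^ ((k : ℝ) - 2) := by
          have h4 := Real.rpow_add hc 1 ((k : ℝ) - 2)
          rw [Real.rpow_one] at h4
          rw [← h4, ← Real.rpow_natCast]
          congr 1
          rw [Nat.cast_sub hk]
          push_cast
          ring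
        rw [h2, h3]
        ring
    _ = ∫⁻ y, (Metric.ball (0 : E m) 1).indicator (fun y => w y * I y) y :=
        (Pool.Agent.H789R2.FR.polar (by omega) _ hgm).symm
    _ = ∫⁻ y in Metric.ball (0 : E m) 1, w y * I y :=
        lintegral_indicator Metric.isOpen_ball.measurableSet _

theorem sg_arch (m : ℕ) (hm : 1 ≤ m) : sg (2 + m) =
    ((volume.restrict (Metric.ball (0 : E m) 1)).prod (sg 2)).map
      (fun p : E m × E 2 => J (Real.sqrt (1 - ‖p.1‖ ^ 2) • p.2) p.1) := by
  have := Pool.Agent.H789R2.FR.sg_finite 2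
  have hJc : Measurable fun p : E 2 × E m => J p.1 p.2 :=
    (Pool.Agent.H438R2.BR.J_mp 2 m).measurable
  have hm1 : Measurable (fun p : E m × E 2 => J (Real.sqrt (1 - ‖p.1‖ ^ 2) • p.2) p.1) := by
    apply hJc.comp (Measurable.prodMk _ measurable_fst)
    exact ((Real.continuous_sqrt.measurable.comp (measurable_const.sub
      ((measurable_norm.comp measurable_fst).pow_const 2))).smul measurable_snd)
  ext S hS
  rw [Measure.map_apply hm1 hS, ← lintegral_indicator_one hS,
    arch 2 m (by norm_num) hm _ (measurable_one.indicator hS),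
    ← lintegral_indicator_one (hm1 hS),
    lintegral_prod _ ((measurable_one.indicator (hm1 hS)).aemeasurable)]
  apply lintegral_congr
  intro y
  have : (1 - ‖y‖ ^ 2) ^ ((((2 : ℕ) : ℝ) - 2) / 2) = 1 := by
    norm_num
  rw [this, ENNReal.ofReal_one, one_mul]
  rfl

end Pool.Agent.TH278.FN
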