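import Pool.Agent.TH60.LR.Defs

set_option autoImplicit false

open Pool.Agent.TH60.LR

namespace Pool.Agent.TH304.LR78

variable {Γ : Type} [Group Γ] (T : GTree Γ)

theorem mem_inv (e : T.E) (x : T.X) : x ∈ T.side (T.inv e) ↔ x ∉ T.side e := by
  rw [T.side_inv]
  exact Iff.rfl

theorem t_inv_notMem (e : T.E) : T.t (T.inv e) ∉ T.side e := by
  have := T.t_mem (T.inv e)
  rwa [mem_inv] at this

theorem inv_ne (e : T.E) : T.inv e ≠ e := by
  intro h
  have h1 := T.t_mem e
  have h2 := t_inv_notMem T e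
  rw [h] at h2
  exact h2 h1

theorem side_inj {e f : T.E} (h : T.side e = T.side f) : e = f := by
  by_contra hne
  have h1 : f ≠ T.inv e := by
    rintro rfl
    have := T.t_mem e
    rw [h, mem_inv] at this
    exact this (T.t_mem e)
  have h2 := T.t_inv e f (Ne.symm hne) h1
  have h3 : T.t e ∈ T.side f := h ▸ T.t_mem e
  have h4 := h2.1 h3
  rw [← h] at h4
  exact t_inv_notMem T e h4

/-- separating edges -/
def S (x y : T.X) : Set T.E := {e | x ∉ T.side e ∧ y ∈ T.side e}

theorem S_fin (x y : T.X) : (S T x y).Finite :=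
  (T.fin_sep y x).subset fun _ h => ⟨h.2, h.1⟩

theorem S_inv {x y : T.X} {e : T.E} (h : e ∈ S T x y) : T.inv e ∈ S T y x := by
  refine ⟨?_, ?_⟩
  · rw [mem_inv]; exact fun h1 => h1 h.2
  · rw [mem_inv]; exact h.1

theorem t_of_max {x y : T.X} {e : T.E} (he : e ∈ S T x y)
    (hmax : ∀ f ∈ S T x y, T.side e ⊆ T.side f → T.side f ⊆ T.side e) : T.t (T.inv e) = x := by
  by_contra hne
  obtain ⟨f, hf1, hf2⟩ := T.sep _ _ hne
  have h1 : f ≠ e := by
    rintro rfl
    exact t_inv_notMem T f hf1
  have h2 : f ≠ T.inv e := by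
    rintro rfl
    rw [mem_inv] at hf2
    exact hf2 he.1
  have h3 := (T.t_inv e f h1 h2).2 hf1
  rcases T.nested e f with h | h | h | h
  · exact t_inv_notMem T e (hmax f ⟨hf2, h he.2⟩ h hf1)
  · exact t_inv_notMem T e (h hf1)
  · exact h (T.t_mem e) h3
  · exact hf2 (h he.1)

theorem t_of_min {x y : T.X} {e : T.E} (he : e ∈ S T x y)
    (hmin : ∀ f ∈ S T x y, T.side f ⊆ T.side e → T.side e ⊆ T.side f) : T.t e = y := by
  have h := t_of_max T (S_inv T he) (fun f hf h => by
    have h1 := S_inv T hf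
    have h2 := hmin _ h1 (by
      intro z hz
      rw [mem_inv] at hz
      by_contra h3
      exact hz (h ((mem_inv T e z).2 h3)))
    intro z hz
    rw [mem_inv]
    intro h3
    have h4 := h2 h3
    rw [mem_inv] at h4
    exact h4 hz)
  rwa [T.inv_inv] at h

theorem exists_min {s : Set T.E} (hf : s.Finite) (hne : s.Nonempty) :
    ∃ e ∈ s, ∀ f ∈ s, T.side f ⊆ T.side e → T.side e ⊆ T.side f := by
  obtain ⟨e, he⟩ := hf.exists_minimalFor T.side s hne
  exact ⟨e, he.1, fun f hf h => he.2 hf h⟩

theorem S_lt {x₀ : T.X} {e : T.E} (he : x₀ ∉ T.side e) :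
    (S T x₀ (T.t (T.inv e))).ncard < (S T x₀ (T.t e)).ncard := by
  refine Set.ncard_lt_ncard ⟨?_, ?_⟩ (S_fin T _ _)
  · intro f hf
    refine ⟨hf.1, ?_⟩
    refine (T.t_inv e f ?_ ?_).2 hf.2
    · rintro rfl
      exact t_inv_notMem T f hf.2
    · rintro rfl
      exact hf.1 ((mem_inv T e x₀).2 he)
  · intro h
    exact t_inv_notMem T e (h ⟨he, T.t_mem e⟩).2

theorem exists_edge {x₀ x : T.X} (h : x ≠ x₀) : ∃ e, T.t e = x ∧ x₀ ∉ T.side e := by
  obtain ⟨e0, h1, h2⟩ := T.sep x x₀ h
  obtain ⟨e, he, hmin⟩ := exists_min T (S_fin T x₀ x) ⟨e0, h2, h1⟩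
  exact ⟨e, t_of_min T he hmin, he.1⟩

theorem edge_unique {x₀ : T.X} {e f : T.E} (he : x₀ ∉ T.side e) (hf : x₀ ∉ T.side f)
    (h : T.t e = T.t f) : e = f := by
  by_contra hne
  have h1 : f ≠ T.inv e := by
    rintro rfl
    exact hf ((mem_inv T e x₀).2 he)
  have h2 : e ≠ T.inv f := by
    rintro rfl
    exact he ((mem_inv T f x₀).2 hf)
  have h3 := (T.t_inv e f (Ne.symm hne) h1).1 (h ▸ T.t_mem f)
  have h4 := (T.t_inv f e hne h2).1 (h ▸ T.t_mem e)
  rcases T.nested e f with h5 | h5 | h5 | h5
  · exact t_inv_notMem T f (h5 h4)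
  · exact t_inv_notMem T e (h5 h3)
  · exact h5 (T.t_mem e) (h ▸ T.t_mem f)
  · exact hf (h5 he)

theorem treeConnected : TreeConnected := by
  intro Γ _ T p x₀ h0 hstep
  have key : ∀ n : ℕ, ∀ x : T.X, (S T x₀ x).ncard = n → p x := by
    intro n
    induction n using Nat.strong_induction_on with
    | _ n ih =>
      intro x hx
      by_cases h : x = x₀
      · rw [h]; exact h0
      · obtain ⟨e, he, he'⟩ := exists_edge T h
        have h1 := S_lt T he'
        rw [he, hx] at h1
        have h2 := hstep e (ih _ h1 _ rfl)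
        rwa [he] at h2
  exact fun x => key _ x rfl

theorem treePotential : TreePotential := by
  classical
  intro Γ _ T W _ β hβ
  by_cases hX : Nonempty T.X
  · obtain ⟨x₀⟩ := hX
    let wf := (measure (fun x : T.X => (S T x₀ x).ncard)).wf
    let F : (x : T.X) → ((y : T.X) → (measure (fun x : T.X => (S T x₀ x).ncard)).rel y x → W) →
        W := fun x rec =>
      if h : ∃ e, T.t e = x ∧ x₀ ∉ T.side e then
        rec (T.t (T.inv h.choose)) (by
          have h1 := S_lt T h.choose_spec.2
          have h2 : (S T x₀ (T.t h.choose)).ncard = (S T x₀ x).ncard := by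
            rw [h.choose_spec.1]
          rw [h2] at h1
          exact h1) * β h.choose
      else 1
    let f : T.X → W := wf.fix F
    have hf : ∀ e, x₀ ∉ T.side e → f (T.t e) = f (T.t (T.inv e)) * β e := by
      intro e he
      have h1 : f (T.t e) = F (T.t e) (fun y _ => f y) := wf.fix_eq F (T.t e)
      have h : ∃ e', T.t e' = T.t e ∧ x₀ ∉ T.side e' := ⟨e, rfl, he⟩
      have h2 : h.choose = e := edge_unique T h.choose_spec.2 he h.choose_spec.1
      rw [h1]
      show (if h : ∃ e', T.t e' = T.t e ∧ x₀ ∉ T.side e' then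
        f (T.t (T.inv h.choose)) * β h.choose else 1) = _
      rw [dif_pos h, h2]
    refine ⟨f, fun e => ?_⟩
    by_cases he : x₀ ∈ T.side e
    · have h1 := hf (T.inv e) (by rw [mem_inv]; exact fun h => h he)
      rw [T.inv_inv, hβ] at h1
      rw [h1, inv_mul_cancel_right]
    · exact hf e he
  · refine ⟨fun _ => 1, fun e => ?_⟩
    exact absurd ⟨T.t e⟩ hX

/-! ### fixed points -/

/-- edges separating points of `O` -/
def FO (O : Set T.X) : Set T.E := {e | (∃ x ∈ O, x ∈ T.side e) ∧ ∃ y ∈ O, y ∉ T.side e}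

/-- leaf edges -/
def Lf (O : Set T.X) : Set T.E := {e | e ∈ FO T O ∧ ∀ f ∈ FO T O, T.side f ⊆ T.side e → f = e}

theorem FO_fin {O : Set T.X} (hO : O.Finite) : (FO T O).Finite := by
  have h1 : (⋃ x ∈ O, ⋃ y ∈ O, {e | x ∈ T.side e ∧ y ∉ T.side e}).Finite :=
    hO.biUnion fun x _ => hO.biUnion fun y _ => T.fin_sep x y
  refine h1.subset ?_
  rintro e ⟨⟨x, hx, hx'⟩, y, hy, hy'⟩
  simp only [Set.mem_iUnion]
  exact ⟨x, hx, y, hy, hx', hy'⟩

theorem FO_inv {O : Set T.X} {e : T.E} (h : e ∈ FO T O) : T.inv e ∈ FO T O := by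
  obtain ⟨⟨x, hx, hx'⟩, y, hy, hy'⟩ := h
  exact ⟨⟨y, hy, (mem_inv T e y).2 hy'⟩, x, hx, fun h => (mem_inv T e x).1 h hx'⟩

theorem FO_smul {O : Set T.X} {c : Γ} (hc : ∀ x ∈ O, c • x ∈ O) {e : T.E} (h : e ∈ FO T O) :
    c • e ∈ FO T O := by
  obtain ⟨⟨x, hx, hx'⟩, y, hy, hy'⟩ := h
  exact ⟨⟨c • x, hc x hx, (T.smul_side c e x).2 hx'⟩, c • y, hc y hy,
    fun h => hy' ((T.smul_side c e y).1 h)⟩

theorem side_smul_sub {c : Γ} {e f : T.E} (h : T.side f ⊆ T.side (c • e)) :
    T.side (c⁻¹ • f) ⊆ T.side e := by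
  intro z hz
  have h1 : c • z ∈ T.side f := by
    have := (T.smul_side c (c⁻¹ • f) z).2 hz
    rwa [smul_inv_smul] at this
  exact (T.smul_side c e z).1 (h h1)

theorem Lf_smul {O : Set T.X} {c : Γ} (hc : ∀ x ∈ O, c • x ∈ O) (hc' : ∀ x ∈ O, c⁻¹ • x ∈ O)
    {e : T.E} (h : e ∈ Lf T O) : c • e ∈ Lf T O := by
  refine ⟨FO_smul T hc h.1, fun f hf hs => ?_⟩
  have h1 := h.2 (c⁻¹ • f) (FO_smul T hc' hf) (side_smul_sub T hs)
  rw [← h1, smul_inv_smul]

theorem compl_sub {e f : T.E} (h : T.side e ⊆ T.side f) :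
    T.side (T.inv f) ⊆ T.side (T.inv e) := by
  intro z hz
  rw [mem_inv] at hz ⊢
  exact fun h1 => hz (h h1)

theorem treeFixedPoint : TreeFixedPoint := by
  classical
  intro Γ _ T hX C hC
  have key : ∀ n : ℕ, ∀ O : Set T.X, O.Finite → O.Nonempty → (∀ c ∈ C, ∀ x ∈ O, c • x ∈ O) →
      (FO T O).ncard = n →
      (∃ x : T.X, ∀ c ∈ C, c • x = x) ∨ (∃ e : T.E, ∀ c ∈ C, c • e = e ∨ c • e = T.inv e) := by
    intro n
    induction n using Nat.strong_induction_on with
    | _ n ih =>
      intro O hO hne hinv hn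
      by_cases hF : (FO T O).Nonempty
      · -- leaf edges
        obtain ⟨e0, he0, hmin0⟩ := exists_min T (FO_fin T hO) hF
        have hL0 : e0 ∈ Lf T O :=
          ⟨he0, fun f hf h => side_inj T (Set.Subset.antisymm h (hmin0 f hf h))⟩
        by_cases hLL : ∃ e, e ∈ Lf T O ∧ T.inv e ∈ Lf T O
        · right
          obtain ⟨e, h1, h2⟩ := hLL
          have hall : ∀ f ∈ FO T O, f = e ∨ f = T.inv e := by
            intro f hf
            rcases T.nested e f with h | h | h | h
            · left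
              have h3 := h2.2 (T.inv f) (FO_inv T hf) (compl_sub T h)
              rw [← T.inv_inv f, h3, T.inv_inv]
            · left
              exact h1.2 f hf h
            · right
              have h3 : T.side f ⊆ T.side (T.inv e) := by
                intro z hz
                rw [mem_inv]
                exact fun h4 => h h4 hz
              exact h2.2 f hf h3
            · right
              have h3 : T.side (T.inv f) ⊆ T.side e := by
                intro z hz
                rw [mem_inv] at hz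
                by_contra h4
                exact hz (h h4)
              have h4 := h1.2 _ (FO_inv T hf) h3
              rw [← h4, T.inv_inv]
          exact ⟨e, fun c hc => hall _ (FO_smul T (hinv c hc) h1.1)⟩
        · push Not at hLL
          set O' : Set T.X := (fun e => T.t (T.inv e)) '' (Lf T O) with hO'
          have hO'f : O'.Finite := ((FO_fin T hO).subset fun e he => he.1).image _
          have hO'n : O'.Nonempty := ⟨_, e0, hL0, rfl⟩
          have hO'i : ∀ c ∈ C, ∀ x ∈ O', c • x ∈ O' := by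
            rintro c hc _ ⟨e, he, rfl⟩
            refine ⟨c • e, Lf_smul T (hinv c hc) (hinv c⁻¹ (C.inv_mem hc)) he, ?_⟩
            simp only
            rw [T.smul_t, T.smul_inv]
          have hsub1 : ∀ f, (∃ x ∈ O', x ∉ T.side f) → f ∉ FO T O → ¬ (O ⊆ T.side f) := by
            rintro f ⟨_, ⟨e, he, rfl⟩, hx⟩ hf hOf
            simp only at hx
            obtain ⟨⟨a, ha, ha'⟩, b, hb, hb'⟩ := he.1
            have hfe : f ≠ e := by
              rintro rfl
              exact hf he.1
            have hfe' : f ≠ T.inv e := by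
              rintro rfl
              exact hf (FO_inv T he.1)
            rcases T.nested f e with h | h | h | h
            · exact hb' (h (hOf hb))
            · exact hx ((T.t_inv e f hfe hfe').1 (h (T.t_mem e)))
            · exact h (hOf ha) ha'
            · exact t_inv_notMem T e (h hx)
          have hsub : FO T O' ⊆ FO T O := by
            intro f hf
            by_contra hcon
            have h1 := hsub1 f hf.2 hcon
            have hf2 := FO_inv T hf
            have h2 := hsub1 (T.inv f) hf2.2 (fun h => hcon (by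
              have := FO_inv T h
              rwa [T.inv_inv] at this))
            rw [Set.not_subset] at h1 h2
            obtain ⟨a, ha, ha'⟩ := h1
            obtain ⟨b, hb, hb'⟩ := h2
            rw [mem_inv, not_not] at hb'
            exact hcon ⟨⟨b, hb, hb'⟩, a, ha, ha'⟩
          have hlt : (FO T O').ncard < n := by
            rw [← hn]
            refine Set.ncard_lt_ncard ⟨hsub, fun h => ?_⟩ (FO_fin T hO)
            obtain ⟨⟨_, ⟨e', he', rfl⟩, hx⟩, _⟩ := h he0
            simp only at hx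
            have hne1 : e0 ≠ e' := by
              rintro rfl
              exact t_inv_notMem T e0 hx
            have hne2 : e0 ≠ T.inv e' := by
              rintro rfl
              exact hLL e' he' hL0
            have h3 := (T.t_inv e' e0 hne1 hne2).2 hx
            rcases T.nested e' e0 with h4 | h4 | h4 | h4
            · exact hne1 (hL0.2 e' he'.1 h4).symm
            · exact hne1 (he'.2 e0 he0 h4)
            · exact h4 (T.t_mem e') h3
            · have h5 : T.side (T.inv e') ⊆ T.side e0 := by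
                intro z hz
                rw [mem_inv] at hz
                exact h4 hz
              exact hne2 (hL0.2 _ (FO_inv T he'.1) h5).symm
          exact ih _ hlt O' hO'f hO'n hO'i rfl
      · left
        obtain ⟨x, hx⟩ := hne
        refine ⟨x, fun c hc => ?_⟩
        by_contra hcx
        obtain ⟨e, h1, h2⟩ := T.sep _ _ hcx
        exact hF ⟨e, ⟨_, hinv c hc x hx, h1⟩, x, hx, h2⟩
  obtain ⟨x₀⟩ := hX
  have hfin : (Set.range (fun c : C => (c : Γ) • x₀)).Finite := Set.finite_range _
  refine key _ (Set.range (fun c : C => (c : Γ) • x₀)) hfin ⟨_, ⟨1, rfl⟩⟩ ?_ rfl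
  rintro c hc _ ⟨c', rfl⟩
  exact ⟨⟨c, hc⟩ * c', by simp [mul_smul]⟩

end Pool.Agent.TH304.LR78
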