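import Pool.Agent.TH547.Arc.NH
set_option autoImplicit false

open Finset Equiv
open Pool.Agent.TH547.Arc Pool.Agent.TH547.Arc.Sys

namespace Pool.Agent.TH304.J770

variable {S : Sys}

/-- a fresh name -/
def fb (F : Finset ℕ) (X : S.C) : ℕ := (S.nm X ∪ F).sup id + 1

theorem fb_not_mem (F : Finset ℕ) (X : S.C) : fb F X ∉ S.nm X ∧ fb F X ∉ F := by
  have h : ∀ a ∈ S.nm X ∪ F, a < fb F X := by
    intro a ha
    unfold fb
    have : a ≤ (S.nm X ∪ F).sup id := Finset.le_sup (f := id) ha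
    omega
  constructor
  · intro hm
    exact absurd (h _ (Finset.mem_union_left _ hm)) (lt_irrefl _)
  · intro hm
    exact absurd (h _ (Finset.mem_union_right _ hm)) (lt_irrefl _)

/-- the chain of an insertion -/
noncomputable def gc (F : Finset ℕ) (ins : ℕ → S.C → S.C) (b : ℕ) (X : S.C) : S.Q F →₀ ℤ :=
  Finsupp.single (S.cl F (ins b X)) (S.sg (ins b X) b)

open Classical in
/-- the homotopy on labelled cells -/
noncomputable def hc (F : Finset ℕ) (P1 : S.C → Prop) (ins : ℕ → S.C → S.C) (X : S.C) :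
    S.Q F →₀ ℤ := if P1 X then gc F ins (fb F X) X else 0

theorem gc_ren {F : Finset ℕ} {P1 : S.C → Prop} {ins : ℕ → S.C → S.C}
    (hrn : ∀ X b, P1 X → b ∉ S.nm X → b ∉ F → ∀ π : Perm ℕ, (∀ a ∈ F, π a = a) →
      S.rn π (ins b X) = ins (π b) (S.rn π X)) {X : S.C} (hX : P1 X) {b : ℕ} (hb : b ∉ S.nm X)
    (hbF : b ∉ F) {π : Perm ℕ} (hπ : ∀ a ∈ F, π a = a) :
    gc F ins (π b) (S.rn π X) = gc F ins b X := by
  unfold gc
  rw [← hrn X b hX hb hbF π hπ, cl_rn hπ, sg_rn]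

theorem gc_indep {F : Finset ℕ} {P1 : S.C → Prop} {ins : ℕ → S.C → S.C}
    (hrn : ∀ X b, P1 X → b ∉ S.nm X → b ∉ F → ∀ π : Perm ℕ, (∀ a ∈ F, π a = a) →
      S.rn π (ins b X) = ins (π b) (S.rn π X)) {X : S.C} (hX : P1 X) {b : ℕ} (hb : b ∉ S.nm X)
    (hbF : b ∉ F) {b' : ℕ} (hb' : b' ∉ S.nm X) (hbF' : b' ∉ F) :
    gc F ins b' X = gc F ins b X := by
  have hfix : ∀ a, a ≠ b → a ≠ b' → swap b b' a = a := fun a h1 h2 => swap_apply_of_ne_of_ne h1 h2
  have hπ : ∀ a ∈ F, swap b b' a = a := fun a ha =>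
    hfix a (fun h => hbF (h ▸ ha)) (fun h => hbF' (h ▸ ha))
  have hX' : S.rn (swap b b') X = X := by
    rw [S.rn_congr (swap b b') 1 X, S.rn_one]
    intro a ha
    rw [← mem_nm] at ha
    rw [Perm.one_apply]
    exact hfix a (fun h => hb (h ▸ ha)) (fun h => hb' (h ▸ ha))
  have := gc_ren hrn hX hb hbF hπ
  rwa [swap_apply_left, hX'] at this

theorem hc_rn {F : Finset ℕ} {P1 : S.C → Prop} (h1 : Inv F P1) {ins : ℕ → S.C → S.C}
    (hrn : ∀ X b, P1 X → b ∉ S.nm X → b ∉ F → ∀ π : Perm ℕ, (∀ a ∈ F, π a = a) →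
      S.rn π (ins b X) = ins (π b) (S.rn π X)) {π : Perm ℕ} (hπ : ∀ a ∈ F, π a = a) (X : S.C) :
    hc F P1 ins (S.rn π X) = hc F P1 ins X := by
  unfold hc
  by_cases hX : P1 X
  · have hX' : P1 (S.rn π X) := h1 π hπ X hX
    rw [if_pos hX, if_pos hX']
    obtain ⟨f1, f2⟩ := fb_not_mem F X
    obtain ⟨g1, g2⟩ := fb_not_mem F (S.rn π X)
    have k1 : π (fb F X) ∉ S.nm (S.rn π X) := fun h => f1 ((mem_nm_rn π X _).1 h)
    have k2 : π (fb F X) ∉ F := by
      intro h
      have := hπ _ h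
      rw [π.injective this] at h
      exact f2 h
    rw [gc_indep hrn hX' k1 k2 g1 g2, gc_ren hrn hX f1 f2 hπ]
  · have hX' : ¬ P1 (S.rn π X) := fun h => hX ((h1.rn_iff hπ X).1 h)
    rw [if_neg hX, if_neg hX']

theorem NH_of_ins {F : Finset ℕ} {P P1 : S.C → Prop} (hP : Inv F P) (h1 : Inv F P1)
    (hsubP : ∀ X, P1 X → P X)
    (hsub : ∀ X, P1 X → ∀ a ∈ S.nm X \ F, P (S.dl X a) → P1 (S.dl X a))
    (ins : ℕ → S.C → S.C)
    (hnm : ∀ X b, P1 X → b ∉ S.nm X → b ∉ F → S.nm (ins b X) = insert b (S.nm X))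
    (hdl : ∀ X b, P1 X → b ∉ S.nm X → b ∉ F → S.dl (ins b X) b = X)
    (hPi : ∀ X b, P1 X → b ∉ S.nm X → b ∉ F → P (ins b X))
    (hcomm : ∀ X b, P1 X → b ∉ S.nm X → b ∉ F → ∀ a ∈ S.nm X \ F, P (S.dl X a) →
      S.dl (ins b X) a = ins b (S.dl X a))
    (hnew : ∀ X b, P1 X → b ∉ S.nm X → b ∉ F → ∀ a ∈ S.nm X \ F, P (S.dl (ins b X) a) →
      P (S.dl X a))
    (hrn : ∀ X b, P1 X → b ∉ S.nm X → b ∉ F → ∀ π : Perm ℕ, (∀ a ∈ F, π a = a) →
      S.rn π (ins b X) = ins (π b) (S.rn π X)) (i : ℕ) : NH F P P1 i := by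
  classical
  set h : (S.Q F →₀ ℤ) →ₗ[ℤ] (S.Q F →₀ ℤ) :=
    Finsupp.lsum ℤ fun q => (LinearMap.toSpanSingleton ℤ _
      (Quotient.lift (s := S.st F) (hc F P1 ins) (by
        rintro X Y ⟨π, hπ, rfl⟩
        exact (hc_rn h1 hrn hπ X).symm) q)) with hh
  have h_single : ∀ X n, h (Finsupp.single (S.cl F X) n) = n • hc F P1 ins X := by
    intro X n
    rw [hh, Finsupp.lsum_single]
    rfl
  have hcP : ∀ X, P1 X → ∀ b, b ∉ S.nm X → b ∉ F → hc F P1 ins X = gc F ins b X := by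
    intro X hX b hb hbF
    unfold hc
    rw [if_pos hX]
    obtain ⟨f1, f2⟩ := fb_not_mem F X
    exact gc_indep hrn hX hb hbF f1 f2
  have key : ∀ X, P1 X → D F P (hc F P1 ins X) + h (D0 F P X) =
      Finsupp.single (S.cl F X) 1 := by
    intro X hX
    obtain ⟨f1, f2⟩ := fb_not_mem F X
    set b := fb F X with hb
    set Y := ins b X with hY
    have hYb : S.dl Y b = X := hdl X b hX f1 f2
    have hnY : S.nm Y \ F = insert b (S.nm X \ F) := by
      rw [hY, hnm X b hX f1 f2, Finset.insert_sdiff_of_notMem _ f2]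
    have hbX : b ∉ (S.nm X \ F).filter (fun a => P (S.dl X a)) := fun hm =>
      f1 (Finset.mem_sdiff.1 (Finset.mem_filter.1 hm).1).1
    have hfilt : (S.nm Y \ F).filter (fun a => P (S.dl Y a)) =
        insert b ((S.nm X \ F).filter (fun a => P (S.dl X a))) := by
      rw [hnY, Finset.filter_insert, if_pos (by rw [hYb]; exact hsubP X hX)]
      congr 1
      refine Finset.filter_congr fun a ha => ⟨hnew X b hX f1 f2 a ha, fun hPa => ?_⟩
      rw [hY, hcomm X b hX f1 f2 a ha hPa]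
      refine hPi _ b (hsub X hX a ha hPa) ?_ f2
      rw [nm_dl]
      exact fun hm => f1 (Finset.mem_of_mem_erase hm)
    have hD0 : D0 F P Y = Finsupp.single (S.cl F X) (S.sg Y b) +
        ∑ a ∈ (S.nm X \ F).filter (fun a => P (S.dl X a)),
          Finsupp.single (S.cl F (S.dl Y a)) (S.sg Y a) := by
      unfold D0
      rw [hfilt, Finset.sum_insert hbX, hYb]
    have hL : D F P (hc F P1 ins X) = Finsupp.single (S.cl F X) 1 +
        ∑ a ∈ (S.nm X \ F).filter (fun a => P (S.dl X a)),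
          Finsupp.single (S.cl F (S.dl Y a)) (S.sg Y b * S.sg Y a) := by
      rw [hcP X hX b f1 f2]
      unfold gc
      rw [← hY, D_single hP, hD0, smul_add, Finset.smul_sum, Finsupp.smul_single, smul_eq_mul,
        sg_sq]
      congr 1
      refine Finset.sum_congr rfl fun a _ => ?_
      rw [Finsupp.smul_single, smul_eq_mul]
    have hR : h (D0 F P X) = ∑ a ∈ (S.nm X \ F).filter (fun a => P (S.dl X a)),
          Finsupp.single (S.cl F (S.dl Y a)) (S.sg X a * S.sg (S.dl Y a) b) := by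
      unfold D0
      rw [map_sum]
      refine Finset.sum_congr rfl fun a ha => ?_
      rw [Finset.mem_filter] at ha
      have hP1a := hsub X hX a ha.1 ha.2
      have hba : b ∉ S.nm (S.dl X a) := by
        rw [nm_dl]
        exact fun hm => f1 (Finset.mem_of_mem_erase hm)
      rw [h_single, hcP _ hP1a b hba f2]
      unfold gc
      rw [← hcomm X b hX f1 f2 a ha.1 ha.2, ← hY, Finsupp.smul_single, smul_eq_mul]
    rw [hL, hR, add_assoc, ← Finset.sum_add_distrib]
    conv_rhs => rw [← add_zero (Finsupp.single (S.cl F X) (1:ℤ))]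
    congr 1
    refine Finset.sum_eq_zero fun a ha => ?_
    rw [Finset.mem_filter, Finset.mem_sdiff] at ha
    rw [← Finsupp.single_add]
    have hab : b ≠ a := fun e => f1 (e ▸ ha.1.1)
    have haY : a ∈ S.nm Y := by
      rw [hY, hnm X b hX f1 f2]; exact Finset.mem_insert_of_mem ha.1.1
    have hbY : b ∈ S.nm Y := by
      rw [hY, hnm X b hX f1 f2]; exact Finset.mem_insert_self _ _
    have e := sg_anti Y hbY haY hab
    rw [hYb] at e
    have s1 := sg_sq X a
    have s2 := sg_sq Y a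
    have : S.sg Y b * S.sg Y a + S.sg X a * S.sg (S.dl Y a) b = 0 := by
      linear_combination (S.sg Y a * S.sg X a) * e - (S.sg Y b * S.sg Y a) * s1 -
        (S.sg X a * S.sg (S.dl Y a) b) * s2
    rw [this, Finsupp.single_zero]
  have hz1 : ∀ z ∈ Ch F P1 i, D F P (h z) + h (D F P z) = z := by
    refine Ch_induction ?_ ?_ ?_
    · simp
    · intro x y hx hy
      rw [map_add, map_add, map_add, map_add]
      nth_rw 3 [← hx]
      nth_rw 3 [← hy]
      abel
    · intro X n hX _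
      rw [h_single, D_single hP, map_smul, map_smul, ← smul_add, key X hX, Finsupp.smul_single,
        smul_eq_mul, mul_one]
  have hz2 : ∀ z ∈ Ch F P1 i, h z ∈ Ch F P (i + 1) := by
    refine Ch_induction ?_ ?_ ?_
    · rw [map_zero]; exact Submodule.zero_mem _
    · intro x y hx hy; rw [map_add]; exact Submodule.add_mem _ hx hy
    · intro X n hX hdX
      obtain ⟨f1, f2⟩ := fb_not_mem F X
      rw [h_single, hcP X hX _ f1 f2]
      refine Submodule.smul_mem _ _ ?_
      unfold gc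
      refine single_mem_Ch (hPi X _ hX f1 f2) ?_ _
      unfold deg at hdX ⊢
      rw [hnm X _ hX f1 f2, Finset.insert_sdiff_of_notMem _ f2, Finset.card_insert_of_notMem, hdX]
      exact fun hm => f1 (Finset.mem_sdiff.1 hm).1
  intro z hz hDz
  refine ⟨h z, hz2 z hz, ?_⟩
  have := hz1 z hz
  rw [hDz, map_zero, add_zero] at this
  exact this

end Pool.Agent.TH304.J770
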