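import Pool.Agent.TH149.WR.Key

set_option autoImplicit false

namespace Pool.Agent.TH304.J1079

open Finset MeasureTheory Filter Topology
open Pool.Agent.TH149.WR

variable {m : ℕ → ℕ}

theorem ae_ne (k : ℕ) : ∀ᵐ x : Fin (k + 2) → unitInterval, x 0 ≠ x 1 := by
  have h1 := volume_preserving_piFinSuccAbove (fun _ : Fin (k + 2) => unitInterval) 0
  have hms : MeasurableSet {p : unitInterval × (Fin (k + 1) → unitInterval) | p.1 = p.2 0} := by
    apply measurableSet_eq_fun measurable_fst
    exact (measurable_pi_apply 0).comp measurable_snd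
  have h2 : volume {p : unitInterval × (Fin (k + 1) → unitInterval) | p.1 = p.2 0} = 0 := by
    rw [Measure.volume_eq_prod, Measure.measure_prod_null hms]
    refine Eventually.of_forall fun x => ?_
    show volume {y : Fin (k + 1) → unitInterval | x = y 0} = 0
    have : {y : Fin (k + 1) → unitInterval | x = y 0} = {y | y 0 = x} := by
      ext y; exact eq_comm
    rw [this]
    exact Measure.pi_hyperplane (fun _ : Fin (k + 1) => (volume : Measure unitInterval)) 0 x
  have h3 := h1.measure_preimage hms.nullMeasurableSet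
  rw [h2] at h3
  rw [ae_iff]
  refine le_antisymm (le_trans (measure_mono ?_) h3.le) bot_le
  intro x hx
  have hx' : x 0 = x 1 := by
    by_contra hcon
    exact hx hcon
  exact hx'

theorem dig_mono (h2 : ∀ ℓ, 2 ≤ m ℓ) (x y : unitInterval) (ℓ k : ℕ)
    (h : dig m (ℓ + k) x = dig m (ℓ + k) y) : dig m ℓ x = dig m ℓ y := by
  induction k with
  | zero => exact h
  | succ k ih =>
    apply ih
    rw [← dig_succ h2 (ℓ + k) x, ← dig_succ h2 (ℓ + k) y]
    have h8 : dig m (ℓ + k + 1) x = dig m (ℓ + k + 1) y := h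
    rw [h8]

theorem fac_zero (Q : ∀ ℓ, SimpleGraph (Fin (m ℓ))) (h2 : ∀ ℓ, 2 ≤ m ℓ) (e b h : ℕ)
    (H : SimpleGraph (Fin h)) (hp : IsPrime H) (hno : ∀ ℓ, e ≤ ℓ → ¬ Nonempty (H ↪g Q ℓ))
    (x : Fin h → unitInterval) (hxb : ∀ i, dig m e (x i) = b) (hx1 : ∀ i, x i ≠ 1)
    (i₀ i₁ : Fin h) (hne : x i₀ ≠ x i₁) : (Wq m Q).fac H x = 0 := by
  classical
  by_contra hfac
  have hsym : ∀ u v, WAdj m Q u v ↔ WAdj m Q v u := by
    intro u v
    constructor
    · rintro ⟨ℓ, a, b, h1, h2, h3⟩
      exact ⟨ℓ, b, a, h2, h1, h3.symm⟩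
    · rintro ⟨ℓ, a, b, h1, h2, h3⟩
      exact ⟨ℓ, b, a, h2, h1, h3.symm⟩
  have hlt : ∀ i j, i < j → (WAdj m Q (x i) (x j) ↔ H.Adj i j) := by
    intro i j hij
    unfold Graphon.fac at hfac
    have h1 := Finset.prod_ne_zero_iff.1 hfac i (Finset.mem_univ i)
    have h3 := Finset.prod_ne_zero_iff.1 h1 j (Finset.mem_Ioi.2 hij)
    by_cases hH : H.Adj i j
    · rw [if_pos hH] at h3
      constructor
      · intro _; exact hH
      · intro _
        by_contra hW
        apply h3
        show (if WAdj m Q (x i) (x j) then (1:ℝ) else 0) = 0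
        rw [if_neg hW]
    · rw [if_neg hH] at h3
      constructor
      · intro hW
        exfalso
        apply h3
        show 1 - (if WAdj m Q (x i) (x j) then (1:ℝ) else 0) = 0
        rw [if_pos hW, sub_self]
      · intro hH'; exact absurd hH' hH
  have hall : ∀ i j, i ≠ j → (WAdj m Q (x i) (x j) ↔ H.Adj i j) := by
    intro i j hij
    rcases lt_or_gt_of_ne hij with h3 | h3
    · exact hlt i j h3
    · rw [hsym, hlt j i h3, H.adj_comm]
  -- the level
  have hex : ∃ ℓ, ∃ i j : Fin h, dig m ℓ (x i) ≠ dig m ℓ (x j) := by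
    obtain ⟨ℓ, hℓ⟩ := exists_dig_ne h2 (x i₀) (x i₁) hne
    exact ⟨ℓ, i₀, i₁, hℓ⟩
  have hfind := Nat.find_spec hex
  have hmin := fun k hk => Nat.find_min hex (m := k) hk
  set L := Nat.find hex with hL
  have hLe : e < L := by
    by_contra hcon
    push Not at hcon
    obtain ⟨i, j, hij⟩ := hfind
    apply hij
    apply dig_mono h2 (x i) (x j) L (e - L)
    rw [Nat.add_sub_cancel' hcon, hxb, hxb]
  obtain ⟨ℓ, hℓ⟩ : ∃ ℓ, L = ℓ + 1 := ⟨L - 1, by omega⟩
  rw [hℓ] at hfind hmin hLe
  have heq : ∀ i j : Fin h, dig m ℓ (x i) = dig m ℓ (x j) := by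
    intro i j
    by_contra hcon
    exact hmin ℓ (Nat.lt_succ_self ℓ) ⟨i, j, hcon⟩
  set a := dig m ℓ (x i₀) with ha
  have haM : a < Mm m ℓ := dig_lt h2 ℓ _ (hx1 i₀)
  have hmpos : 0 < m ℓ := by have := h2 ℓ; omega
  let p : Fin h → Fin (m ℓ) := fun i => ⟨dig m (ℓ + 1) (x i) % m ℓ, Nat.mod_lt _ hmpos⟩
  have hdig : ∀ i, dig m (ℓ + 1) (x i) = a * m ℓ + (p i : ℕ) := by
    intro i
    have h3 : dig m (ℓ + 1) (x i) / m ℓ = a := by
      rw [dig_succ h2 ℓ (x i), heq i i₀]
    show dig m (ℓ + 1) (x i) = a * m ℓ + dig m (ℓ + 1) (x i) % m ℓ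
    rw [← h3]
    exact (Nat.div_add_mod' _ _).symm
  have hadj : ∀ i j, p i ≠ p j → (H.Adj i j ↔ (Q ℓ).Adj (p i) (p j)) := by
    intro i j hij
    have hij' : i ≠ j := fun hc => hij (by rw [hc])
    rw [← hall i j hij', key_succ h2 Q (x i) (x j) ℓ a (p i) (p j) haM (hdig i) (hdig j) hij]
  have hinj : Function.Injective p := by
    intro i j hij
    have hmod : IsModule H {k | p k = p i} := by
      intro v hv u hu w hw
      have hu' : p u = p i := hu
      have hw' : p w = p i := hw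
      have hv' : p v ≠ p i := hv
      rw [hadj v u (by rw [hu']; exact hv'), hadj v w (by rw [hw']; exact hv'), hu', hw']
    rcases hp _ hmod with h3 | h3
    · exact h3 (show p i = p i from rfl) (show p j = p i from hij.symm)
    · exfalso
      obtain ⟨u, v, huv⟩ := hfind
      apply huv
      have h4 : p u = p i := by
        have : u ∈ {k | p k = p i} := by rw [h3]; trivial
        exact this
      have h5 : p v = p i := by
        have : v ∈ {k | p k = p i} := by rw [h3]; trivial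
        exact this
      rw [hdig u, hdig v, h4, h5]
  apply hno ℓ (by omega)
  refine ⟨⟨⟨p, hinj⟩, ?_⟩⟩
  intro i j
  show (Q ℓ).Adj (p i) (p j) ↔ H.Adj i j
  by_cases hij : i = j
  · subst hij
    constructor
    · intro hc; exact absurd hc ((Q ℓ).loopless.irrefl _)
    · intro hc; exact absurd hc (H.loopless.irrefl _)
  · exact (hadj i j (fun hc => hij (hinj hc))).symm

theorem zero : S_zero := by
  intro m Q h2 e b h H hh hp hno B hB hBs
  obtain ⟨k, rfl⟩ : ∃ k, h = k + 2 := ⟨h - 2, by omega⟩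
  unfold Graphon.dens
  have hz : ∫ x in Set.univ.pi (fun _ : Fin (k + 2) => B), (Wq m Q).fac H x = 0 := by
    apply integral_eq_zero_of_ae
    rw [Filter.EventuallyEq, ae_restrict_iff' (MeasurableSet.univ_pi fun _ => hB)]
    have h1 : ∀ᵐ x : Fin (k + 2) → unitInterval, ∀ i, x i ≠ 1 := by
      rw [ae_all_iff]
      intro i
      rw [ae_iff]
      have : {x : Fin (k + 2) → unitInterval | ¬ x i ≠ 1} = {x | x i = 1} := by
        ext x
        exact not_not
      rw [this]
      exact Measure.pi_hyperplane (fun _ : Fin (k + 2) => (volume : Measure unitInterval)) i 1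
    filter_upwards [ae_ne k, h1] with x hx hx1 hxB
    exact fac_zero Q h2 e b (k + 2) H hp hno x (fun i => hBs (hxB i (Set.mem_univ i))) hx1 0 1 hx
  rw [hz, zero_div]

end Pool.Agent.TH304.J1079
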