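import Mathlib
import Pool.Agent.H934R3.NP.Abs

set_option autoImplicit false

open MeasureTheory Set Filter Topology
open scoped ENNReal NNReal RealInnerProductSpace

namespace Pool.Agent.TH304.NPAbs

open Pool.Agent.H934R3.NP.Abs Module

variable {H : Type*} [NormedAddCommGroup H] [InnerProductSpace ℝ H] [CompleteSpace H]

/-- Lax–Milgram for `lam - N`, `N ≤ 0` -/
theorem inv_coercive (N : H →L[ℝ] H) (hN : ∀ x : H, ⟪x, N x⟫ ≤ 0) (lam : ℝ) (hl : 0 < lam) :
    ∃ G : H →L[ℝ] H, (∀ x, lam • G x - N (G x) = x) ∧ (∀ x, G (lam • x - N x) = x) := by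
  set A : H →L[ℝ] H := lam • ContinuousLinearMap.id ℝ H - N with hA
  have hAx : ∀ x, A x = lam • x - N x := fun x => by simp [hA]
  set Bf : H →L[ℝ] H →L[ℝ] ℝ := (innerSL ℝ).comp A with hBf
  have hBfx : ∀ x y, Bf x y = ⟪A x, y⟫ := fun x y => by simp [hBf]
  have hco : IsCoercive Bf := by
    refine ⟨lam, hl, fun u => ?_⟩
    rw [hBfx, hAx, inner_sub_left, inner_smul_left, real_inner_self_eq_norm_mul_norm]
    have h1 := hN u
    rw [real_inner_comm] at h1
    simp only [conj_trivial]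
    linarith
  set e := hco.continuousLinearEquivOfBilin with he
  have hex : ∀ x, e x = A x := by
    intro x
    apply ext_inner_right ℝ
    intro w
    rw [he, hco.continuousLinearEquivOfBilin_apply, hBfx]
  refine ⟨(e.symm : H →L[ℝ] H), fun x => ?_, fun x => ?_⟩
  · rw [← hAx, ← hex]
    exact e.apply_symm_apply x
  · rw [← hAx, ← hex]
    exact e.symm_apply_apply x

/-- Fredholm alternative for `lam - (N + K)`, `K` compact -/
theorem fred (N K B : H →L[ℝ] H) (hB : ∀ x, B x = N x + K x) (hN : ∀ x : H, ⟪x, N x⟫ ≤ 0)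
    (hK : IsCompactOperator K) (lam : ℝ) (hl : 0 < lam)
    (hinj : ∀ x : H, B x = lam • x → x = 0) :
    ∃ R : H →L[ℝ] H, (∀ x, lam • R x - B (R x) = x) ∧ (∀ x, R (lam • x - B x) = x) := by
  obtain ⟨G, hG1, hG2⟩ := inv_coercive N hN lam hl
  set T : H →L[ℝ] H := G.comp K with hT
  have hTc : IsCompactOperator T := hK.clm_comp G
  have hTx : ∀ x, T x = G (K x) := fun x => rfl
  rcases hTc.hasEigenvalue_or_mem_resolventSet (one_ne_zero (α := ℝ)) with h | h
  · exfalso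
    obtain ⟨v, hv⟩ := h.exists_hasEigenvector
    have h1 : T v = (1 : ℝ) • v := hv.apply_eq_smul
    apply hv.2
    apply hinj
    rw [one_smul, hTx] at h1
    have h2 := hG1 (K v)
    rw [h1] at h2
    rw [hB, ← h2]
    abel
  · rw [spectrum.mem_resolventSet_iff] at h
    obtain ⟨u, hu⟩ := h
    have hux : ∀ x, (u : H →L[ℝ] H) x = x - T x := by
      intro x
      rw [hu]
      simp
    have hU1 : ∀ x, (u : H →L[ℝ] H) ((↑u⁻¹ : H →L[ℝ] H) x) = x := by
      intro x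
      have h1 : (u : H →L[ℝ] H) * (↑u⁻¹ : H →L[ℝ] H) = 1 := u.mul_inv
      exact congrArg (fun T : H →L[ℝ] H => T x) h1
    have hU2 : ∀ x, (↑u⁻¹ : H →L[ℝ] H) ((u : H →L[ℝ] H) x) = x := by
      intro x
      have h1 : (↑u⁻¹ : H →L[ℝ] H) * (u : H →L[ℝ] H) = 1 := u.inv_mul
      exact congrArg (fun T : H →L[ℝ] H => T x) h1
    have hfac : ∀ x, G (lam • x - B x) = (u : H →L[ℝ] H) x := by
      intro x
      rw [hux, hTx]
      have e1 : lam • x - B x = (lam • x - N x) - K x := by rw [hB]; abel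
      rw [e1, map_sub, hG2]
    have hGinj : ∀ a b, G a = G b → a = b := by
      intro a b hab
      rw [← hG1 a, ← hG1 b, hab]
    refine ⟨(↑u⁻¹ : H →L[ℝ] H).comp G, fun x => ?_, fun x => ?_⟩
    · apply hGinj
      rw [hfac]
      exact hU1 _
    · show (↑u⁻¹ : H →L[ℝ] H) (G (lam • x - B x)) = x
      rw [hfac]
      exact hU2 _

/-- eigenspaces of positive eigenvalues are finite dimensional -/
theorem findim (N K B : H →L[ℝ] H) (hB : ∀ x, B x = N x + K x) (hN : ∀ x : H, ⟪x, N x⟫ ≤ 0)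
    (hK : IsCompactOperator K) (lam : ℝ) (hl : 0 < lam) :
    FiniteDimensional ℝ (LinearMap.ker ((B : H →ₗ[ℝ] H) - lam • LinearMap.id)) := by
  obtain ⟨G, hG1, hG2⟩ := inv_coercive N hN lam hl
  set T : H →L[ℝ] H := G.comp K with hT
  have hTc : IsCompactOperator T := hK.clm_comp G
  have hTx : ∀ x, T x = G (K x) := fun x => rfl
  set V : Submodule ℝ H := LinearMap.ker ((B : H →ₗ[ℝ] H) - lam • LinearMap.id) with hV
  have hmem : ∀ x, x ∈ V ↔ B x = lam • x := by
    intro x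
    rw [hV, LinearMap.mem_ker]
    simp [sub_eq_zero]
  have hfix : ∀ x ∈ V, T x = x := by
    intro x hx
    rw [hmem] at hx
    have h1 : K x = lam • x - N x := by rw [← hx, hB]; abel
    rw [hTx, h1, hG2]
  have hcl : IsClosed (V : Set H) := by
    have : (V : Set H) = {x | B x = lam • x} := by
      ext x; exact hmem x
    rw [this]
    exact isClosed_eq B.continuous (continuous_const_smul lam)
  have h1 := IsCompactOperator.restrict (f := (T : H →ₗ[ℝ] H)) hTc (V := V)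
    (fun v hv => by
      have := hfix v hv
      show T v ∈ V
      rw [this]; exact hv) hcl
  apply FiniteDimensional.of_isCompactOperator_id (E := V)
  refine (congrArg IsCompactOperator ?_).mp h1
  funext x
  apply Subtype.ext
  exact hfix x x.2

/-- the positivity argument -/
theorem nonpos_of_no_eig (S B : H →L[ℝ] H) (hS : ∀ x y : H, ⟪x, S y⟫ = ⟪S x, y⟫)
    (hp : ∀ x : H, x ≠ 0 → 0 < ⟪x, S x⟫)
    (hBs : ∀ x y : H, ⟪x, S (B y)⟫ = ⟪B x, S y⟫)
    (hinv : ∀ lam : ℝ, 0 < lam → ∃ R : H →L[ℝ] H, (∀ x, lam • R x - B (R x) = x) ∧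
      (∀ x, R (lam • x - B x) = x)) (x : H) : ⟪x, S (B x)⟫ ≤ 0 := by
  have hp0 : ∀ x : H, 0 ≤ ⟪x, S x⟫ := by
    intro x
    by_cases h : x = 0
    · simp [h]
    · exact (hp x h).le
  set A : Set ℝ := {μ | 0 ≤ μ ∧ ∀ x : H, ⟪x, S (B x)⟫ ≤ μ * ⟪x, S x⟫} with hA
  have hcsl : ∀ (R : H →L[ℝ] H), (∀ x y : H, ⟪x, S (R y)⟫ = ⟪R x, S y⟫) → ∀ x,
      ⟪x, S (R x)⟫ ≤ ‖R‖ * ⟪x, S x⟫ := by
    intro R hR x
    have h3' := cs S hS hp0 x (R x)
    have h4' := lax S R hS hp hR x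
    have hq := hp0 x
    have h5' : ⟪x, S (R x)⟫ ^ 2 ≤ (‖R‖ * ⟪x, S x⟫) ^ 2 := by
      calc ⟪x, S (R x)⟫ ^ 2 ≤ ⟪x, S x⟫ * ⟪R x, S (R x)⟫ := h3'
        _ ≤ ⟪x, S x⟫ * (‖R‖ ^ 2 * ⟪x, S x⟫) := mul_le_mul_of_nonneg_left h4' hq
        _ = (‖R‖ * ⟪x, S x⟫) ^ 2 := by ring
    exact le_trans (le_abs_self _) (abs_le_of_sq_le_sq h5' (by positivity)) 
  have hA1 : ‖B‖ ∈ A := ⟨norm_nonneg _, hcsl B hBs⟩
  have hAb : BddBelow A := ⟨0, fun μ hμ => hμ.1⟩
  have hAne : A.Nonempty := ⟨_, hA1⟩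
  set m := sInf A with hm
  have hm0 : 0 ≤ m := le_csInf hAne fun μ hμ => hμ.1
  have hmA : ∀ x : H, ⟪x, S (B x)⟫ ≤ m * ⟪x, S x⟫ := by
    intro x
    by_contra hcon
    push Not at hcon
    have hx : 0 < ⟪x, S x⟫ := by
      apply hp
      rintro rfl
      simp at hcon
    set δ := (⟪x, S (B x)⟫ - m * ⟪x, S x⟫) / ⟪x, S x⟫ with hδ
    have hδ0 : 0 < δ := div_pos (by linarith) hx
    obtain ⟨μ, hμA, hμ⟩ := exists_lt_of_csInf_lt hAne (show sInf A < m + δ by rw [← hm]; linarith)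
    have h1 := hμA.2 x
    have h2 : δ * ⟪x, S x⟫ = ⟪x, S (B x)⟫ - m * ⟪x, S x⟫ := by
      rw [hδ]; field_simp
    nlinarith
  rcases hm0.lt_or_eq with h | h
  · exfalso
    obtain ⟨R, hR1, hR2⟩ := hinv m h
    have hRsym : ∀ x y : H, ⟪x, S (R y)⟫ = ⟪R x, S y⟫ := by
      intro x y
      have e1 : ⟪x, S (R y)⟫ = ⟪m • R x - B (R x), S (R y)⟫ := by rw [hR1]
      have e2 : ⟪R x, S y⟫ = ⟪R x, S (m • R y - B (R y))⟫ := by rw [hR1]
      rw [e1, e2, map_sub, map_smul, inner_sub_left, inner_sub_right, inner_smul_left,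
        inner_smul_right, hBs]
      simp
    set T : H →L[ℝ] H := m • S - S.comp B with hT
    have hTx : ∀ x, T x = m • S x - S (B x) := fun x => by simp [hT]
    have hTs : ∀ x y : H, ⟪x, T y⟫ = ⟪T x, y⟫ := by
      intro x y
      rw [hTx, hTx, inner_sub_right, inner_sub_left, inner_smul_right, inner_smul_left, hBs,
        hS x y, hS (B x) y]
      simp
    have hTp : ∀ x : H, 0 ≤ ⟪x, T x⟫ := by
      intro x
      rw [hTx, inner_sub_right, inner_smul_right]
      have := hmA x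
      linarith
    have hTR : ∀ x, T (R x) = S x := by
      intro x
      rw [hTx, ← map_smul, ← map_sub, hR1]
    set c := ‖R‖ + 1 with hc
    have hc0 : 0 < c := by positivity
    have key : ∀ x : H, ⟪x, S x⟫ ≤ c * ⟪x, T x⟫ := by
      intro x
      by_cases hx : x = 0
      · simp [hx]
      have hq := hp x hx
      have h1 : ⟪x, S x⟫ ^ 2 ≤ ⟪x, T x⟫ * ⟪R x, S x⟫ := by
        have := cs T hTs hTp x (R x)
        rwa [hTR] at this
      have h2 : ⟪R x, S x⟫ ≤ ‖R‖ * ⟪x, S x⟫ := by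
        rw [← hRsym]
        exact hcsl R hRsym x
      have h3 := hTp x
      have h4 : ⟪x, S x⟫ * ⟪x, S x⟫ ≤ (c * ⟪x, T x⟫) * ⟪x, S x⟫ := by
        calc ⟪x, S x⟫ * ⟪x, S x⟫ = ⟪x, S x⟫ ^ 2 := by ring
          _ ≤ ⟪x, T x⟫ * ⟪R x, S x⟫ := h1
          _ ≤ ⟪x, T x⟫ * (‖R‖ * ⟪x, S x⟫) := mul_le_mul_of_nonneg_left h2 h3
          _ ≤ ⟪x, T x⟫ * (c * ⟪x, S x⟫) := by
              apply mul_le_mul_of_nonneg_left _ h3
              apply mul_le_mul_of_nonneg_right _ hq.le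
              linarith
          _ = (c * ⟪x, T x⟫) * ⟪x, S x⟫ := by ring
      exact le_of_mul_le_mul_right h4 hq
    set δ := min m (1 / c) with hδ
    have hδ0 : 0 < δ := lt_min h (by positivity)
    have hmem : m - δ ∈ A := by
      refine ⟨by have := min_le_left m (1 / c); linarith, fun x => ?_⟩
      have h1 := key x
      rw [hTx, inner_sub_right, inner_smul_right] at h1
      have h2 : δ * ⟪x, S x⟫ ≤ 1 / c * ⟪x, S x⟫ :=
        mul_le_mul_of_nonneg_right (min_le_right _ _) (hp0 x)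
      have h3 : 1 / c * ⟪x, S x⟫ ≤ m * ⟪x, S x⟫ - ⟪x, S (B x)⟫ := by
        rw [div_mul_eq_mul_div, one_mul, div_le_iff₀ hc0]
        linarith
      nlinarith
    have := csInf_le hAb hmem
    rw [← hm] at this
    linarith
  · have := hmA x
    rw [← h] at this
    linarith

/-- projection onto a finite-dimensional subspace, orthogonal for the form of `S` -/
theorem exists_proj (S : H →L[ℝ] H) (hS : ∀ x y : H, ⟪x, S y⟫ = ⟪S x, y⟫)
    (hp : ∀ x : H, x ≠ 0 → 0 < ⟪x, S x⟫) (F : Submodule ℝ H) [FiniteDimensional ℝ F] :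
    ∃ P : H →L[ℝ] F, ∀ (x : H) (e : F), ⟪(e : H), S (P x : H)⟫ = ⟪(e : H), S x⟫ := by
  -- the form as a map to the dual
  set Ψ : H →L[ℝ] (F →L[ℝ] ℝ) :=
    ((ContinuousLinearMap.compL ℝ F H ℝ).flip F.subtypeL).comp ((innerSL ℝ).comp S) with hΨ
  have hΨx : ∀ (x : H) (e : F), Ψ x e = ⟪(e : H), S x⟫ := by
    intro x e
    simp [hΨ, real_inner_comm]
  set Φ : F →ₗ[ℝ] (F →L[ℝ] ℝ) := (Ψ : H →ₗ[ℝ] (F →L[ℝ] ℝ)).comp F.subtype with hΦ
  have hΦx : ∀ (x : F) (e : F), Φ x e = ⟪(e : H), S x⟫ := by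
    intro x e
    exact hΨx x e
  have hinj : Function.Injective Φ := by
    rw [injective_iff_map_eq_zero]
    intro y hy
    by_contra hne
    have h1 := hΦx y y
    rw [hy] at h1
    have h2 := hp (y : H) (by simpa using hne)
    simp at h1
    linarith
  have hfr : finrank ℝ F = finrank ℝ (F →L[ℝ] ℝ) := by
    have e1 : finrank ℝ (F →L[ℝ] ℝ) = finrank ℝ (F →ₗ[ℝ] ℝ) :=
      (LinearMap.toContinuousLinearMap (𝕜 := ℝ) (E := F) (F' := ℝ)).finrank_eq.symm
    rw [e1]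
    exact (Subspace.dual_finrank_eq (K := ℝ) (V := F)).symm
  set e := LinearEquiv.ofInjectiveOfFinrankEq Φ hinj hfr with he
  refine ⟨(LinearMap.toContinuousLinearMap (e.symm : (F →L[ℝ] ℝ) →ₗ[ℝ] F)).comp Ψ, ?_⟩
  intro x f
  rw [← hΨx x f]
  have h1 : Φ (e.symm (Ψ x)) = Ψ x := e.apply_symm_apply (Ψ x)
  conv_rhs => rw [← h1]
  rw [hΦx]
  rfl

end Pool.Agent.TH304.NPAbs

namespace Pool.Agent.TH268.NP

open Pool.Agent.TH304.NPAbs Module

/-- NP-ABS -/
theorem npabs {H : Type*} [NormedAddCommGroup H] [InnerProductSpace ℝ H] [CompleteSpace H]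
    (S B N C : H →L[ℝ] H) (hS : ∀ x y : H, ⟪x, S y⟫ = ⟪S x, y⟫)
    (hp : ∀ x : H, x ≠ 0 → 0 < ⟪x, S x⟫)
    (hB : ∀ x y : H, ⟪x, S (B y)⟫ = ⟪B x, S y⟫)
    (hdec : B = N + C) (hN : ∀ x : H, ⟪x, N x⟫ ≤ 0) (hC : IsCompactOperator C)
    {W : Type*} [AddCommGroup W] [Module ℝ W] (hW : ¬ FiniteDimensional ℝ W) (L : W →ₗ[ℝ] H)
    (hL : ∀ w : W, w ≠ 0 → 0 < ⟪L w, S (B (L w))⟫) :
    {lam : ℝ | 0 < lam ∧ ∃ x : H, x ≠ 0 ∧ B x = lam • x}.Infinite := by
  classical
  intro hfin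
  have hBx : ∀ x, B x = N x + C x := fun x => by rw [hdec]; rfl
  set eig : ℝ → Submodule ℝ H := fun lam => LinearMap.ker ((B : H →ₗ[ℝ] H) - lam • LinearMap.id)
    with heig
  have hmem : ∀ lam x, x ∈ eig lam ↔ B x = lam • x := by
    intro lam x
    rw [heig, LinearMap.mem_ker]
    simp [sub_eq_zero]
  set F : Submodule ℝ H := hfin.toFinset.sup eig with hF
  have hFfin : FiniteDimensional ℝ F := by
    rw [hF]
    apply Finset.sup_induction (p := fun V : Submodule ℝ H => FiniteDimensional ℝ V)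
    · infer_instance
    · intro V1 h1 V2 h2
      infer_instance
    · intro lam hlam
      rw [Set.Finite.mem_toFinset] at hlam
      exact findim N C B hBx hN hC lam hlam.1
  have hle : ∀ lam : ℝ, 0 < lam → ∀ x, B x = lam • x → x ∈ F := by
    intro lam hl x hx
    by_cases h0 : x = 0
    · rw [h0]; exact F.zero_mem
    have h1 : lam ∈ hfin.toFinset := by
      rw [Set.Finite.mem_toFinset]
      exact ⟨hl, x, h0, hx⟩
    exact (Finset.le_sup (f := eig) h1) ((hmem lam x).2 hx)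
  have hFB : ∀ x ∈ F, B x ∈ F := by
    have : F ≤ F.comap (B : H →ₗ[ℝ] H) := by
      conv_lhs => rw [hF]
      apply Finset.sup_le
      intro lam hlam x hx
      have h1 : eig lam ≤ F := Finset.le_sup (f := eig) hlam
      have h2 := (hmem lam x).1 hx
      show B x ∈ F
      rw [h2]
      exact F.smul_mem _ (h1 hx)
    exact this
  obtain ⟨Q, hQ⟩ := exists_proj S hS hp F
  set P : H →L[ℝ] H := F.subtypeL.comp Q with hP
  have hPF : ∀ x, P x ∈ F := fun x => (Q x).2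
  have hPa : ∀ e ∈ F, ∀ x, ⟪e, S (P x)⟫ = ⟪e, S x⟫ := fun e he x => hQ x ⟨e, he⟩
  have huniq : ∀ d ∈ F, (∀ e ∈ F, ⟪e, S d⟫ = 0) → d = 0 := by
    intro d hd h
    by_contra hne
    have := hp d hne
    rw [h d hd] at this
    exact lt_irrefl _ this
  have hPe : ∀ e ∈ F, P e = e := by
    intro e he
    have : P e - e = 0 := by
      apply huniq _ (F.sub_mem (hPF e) he)
      intro f hf
      rw [map_sub, inner_sub_right, hPa f hf, sub_self]
    exact sub_eq_zero.1 this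
  have hPsym : ∀ x y, ⟪x, S (P y)⟫ = ⟪P x, S y⟫ := by
    intro x y
    rw [← hPa (P x) (hPF x) y, hS x, real_inner_comm, ← hPa (P y) (hPF y) x, real_inner_comm, hS]
  have hPB : ∀ x, P (B x) = B (P x) := by
    intro x
    have : P (B x) - B (P x) = 0 := by
      apply huniq _ (F.sub_mem (hPF _) (hFB _ (hPF x)))
      intro f hf
      rw [map_sub, inner_sub_right, hPa f hf, hB, hB, hPa _ (hFB f hf), sub_self]
    exact sub_eq_zero.1 this
  set B' : H →L[ℝ] H := B - B.comp P with hB'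
  have hB'x : ∀ x, B' x = B x - B (P x) := fun x => by simp [hB']
  have hcomp : IsCompactOperator (B.comp P) := by
    have : ProperSpace F := FiniteDimensional.proper ℝ F
    have h1 : IsCompactOperator (fun x : H => Q x) :=
      isCompactOperator_of_locallyCompactSpace_dom Q
    exact (h1.clm_comp F.subtypeL).clm_comp B
  have hC' : IsCompactOperator (C - B.comp P) := hC.sub hcomp
  have hB'dec : ∀ x, B' x = N x + (C - B.comp P) x := by
    intro x
    rw [hB'x, hBx x]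
    simp only [sub_apply, ContinuousLinearMap.comp_apply]
    abel
  have hB'sym : ∀ x y : H, ⟪x, S (B' y)⟫ = ⟪B' x, S y⟫ := by
    intro x y
    rw [hB'x, hB'x, map_sub, inner_sub_right, inner_sub_left, hB, hB x (P y), hPsym, hPB]
  have hinj : ∀ lam : ℝ, 0 < lam → ∀ x : H, B' x = lam • x → x = 0 := by
    intro lam hl x hx
    have h1 : P (B' x) = 0 := by
      rw [hB'x, map_sub, hPB, hPB, hPe (P x) (hPF x), sub_self]
    rw [hx, map_smul] at h1
    have h2 : P x = 0 := by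
      rcases smul_eq_zero.1 h1 with h | h
      · exact absurd h hl.ne'
      · exact h
    rw [hB'x, h2, map_zero, sub_zero] at hx
    have h3 := hle lam hl x hx
    rw [← hPe x h3, h2]
  have hneg : ∀ x, ⟪x, S (B' x)⟫ ≤ 0 := by
    intro x
    apply nonpos_of_no_eig S B' hS hp hB'sym
    intro lam hl
    exact fred N (C - B.comp P) B' hB'dec hN hC' lam hl (hinj lam hl)
  -- find a vector of `W` killed by the projection
  have hker : ∃ w : W, w ≠ 0 ∧ Q (L w) = 0 := by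
    by_contra hno
    push Not at hno
    apply hW
    have hi : Function.Injective ((Q : H →ₗ[ℝ] F).comp L) := by
      rw [injective_iff_map_eq_zero]
      intro w hw
      by_contra hne
      exact hno w hne hw
    exact Module.Finite.of_injective _ hi
  obtain ⟨w, hw, hQw⟩ := hker
  have h1 := hL w hw
  have h2 := hneg (L w)
  have h3 : P (L w) = 0 := by
    show ((Q (L w) : F) : H) = 0
    rw [hQw]; rfl
  rw [hB'x, h3, map_zero, sub_zero] at h2
  linarith

end Pool.Agent.TH268.NP
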