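import Pool.Agent.TH268.NP.Bd

set_option autoImplicit false

open MeasureTheory Set Filter Topology
open scoped ENNReal NNReal RealInnerProductSpace

namespace Pool.Agent.TH304.NPPD

open Pool.Agent.TH268.NP

/-! ### the exponential kernel -/

lemma int_exp_abs (c : ℝ) (hc : 0 < c) : ∫ u : ℝ, Real.exp (-c * |u|) = 2 / c := by
  have h1 := integral_comp_abs (f := fun u : ℝ => Real.exp (-c * u))
  rw [h1, integral_exp_mul_Ioi (by linarith) 0]
  simp
  field_simp

lemma integrable_exp_abs (c : ℝ) (hc : 0 < c) : Integrable (fun u : ℝ => Real.exp (-c * |u|)) := by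
  apply Integrable.of_integral_ne_zero
  rw [int_exp_abs c hc]
  positivity

lemma conv_snd (c : ℝ) (hc : 0 < c) (h : ℝ → ℝ) (hh : Integrable h) :
    Integrable (fun p : ℝ × ℝ => Real.exp (-c * |p.1 - p.2|) * h p.2) (volume.prod volume) ∧
    ∫ p : ℝ × ℝ, Real.exp (-c * |p.1 - p.2|) * h p.2 ∂(volume.prod volume) = 2 / c * ∫ t, h t := by
  have h1 := hh.convolution_integrand (ContinuousLinearMap.mul ℝ ℝ) (integrable_exp_abs c hc)
  have e1 : (fun p : ℝ × ℝ => (ContinuousLinearMap.mul ℝ ℝ) (h p.2) (Real.exp (-c * |p.1 - p.2|))) =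
      fun p : ℝ × ℝ => Real.exp (-c * |p.1 - p.2|) * h p.2 := by
    funext p; simp [mul_comm]
  rw [e1] at h1
  refine ⟨h1, ?_⟩
  rw [integral_prod_symm _ h1]
  have : ∀ y, ∫ x, Real.exp (-c * |x - y|) * h y = 2 / c * h y := by
    intro y
    rw [integral_mul_const, integral_sub_right_eq_self (fun x => Real.exp (-c * |x|)) y,
      int_exp_abs c hc]
  simp only [this]
  rw [integral_const_mul]

lemma conv_fst (c : ℝ) (hc : 0 < c) (h : ℝ → ℝ) (hh : Integrable h) :
    Integrable (fun p : ℝ × ℝ => Real.exp (-c * |p.1 - p.2|) * h p.1) (volume.prod volume) ∧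
    ∫ p : ℝ × ℝ, Real.exp (-c * |p.1 - p.2|) * h p.1 ∂(volume.prod volume) = 2 / c * ∫ t, h t := by
  obtain ⟨h1, h2⟩ := conv_snd c hc h hh
  have h3 := h1.swap
  have e1 : ((fun p : ℝ × ℝ => Real.exp (-c * |p.1 - p.2|) * h p.2) ∘ Prod.swap) =
      fun p : ℝ × ℝ => Real.exp (-c * |p.1 - p.2|) * h p.1 := by
    funext p
    simp [abs_sub_comm]
  rw [e1] at h3
  refine ⟨h3, ?_⟩
  rw [← h2, ← integral_prod_swap]
  congr 1
  funext p
  simp [abs_sub_comm]

/-- Young's inequality for the exponential kernel -/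
lemma pair (c : ℝ) (hc : 0 < c) (f : ℝ → ℝ) (hf : MemLp f 2 volume) :
    Integrable (fun p : ℝ × ℝ => Real.exp (-c * |p.1 - p.2|) * (|f p.1| * |f p.2|))
      (volume.prod volume) ∧
    ∫ p : ℝ × ℝ, Real.exp (-c * |p.1 - p.2|) * (|f p.1| * |f p.2|) ∂(volume.prod volume) ≤
      2 / c * ∫ t, f t ^ 2 := by
  have hsq : Integrable (fun t => f t ^ 2) := hf.integrable_sq
  obtain ⟨a1, a2⟩ := conv_fst c hc _ hsq
  obtain ⟨b1, b2⟩ := conv_snd c hc _ hsq
  have hm : AEStronglyMeasurable (fun p : ℝ × ℝ => Real.exp (-c * |p.1 - p.2|) * (|f p.1| * |f p.2|))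
      (volume.prod volume) := by
    have m1 : AEStronglyMeasurable (fun p : ℝ × ℝ => Real.exp (-c * |p.1 - p.2|))
        (volume.prod volume) := by
      apply Continuous.aestronglyMeasurable
      fun_prop
    exact m1.mul ((hf.1.comp_fst.norm).mul (hf.1.comp_snd.norm))
  have hle : ∀ p : ℝ × ℝ, Real.exp (-c * |p.1 - p.2|) * (|f p.1| * |f p.2|) ≤
      (1 / 2) * (Real.exp (-c * |p.1 - p.2|) * f p.1 ^ 2 + Real.exp (-c * |p.1 - p.2|) * f p.2 ^ 2) := by
    intro p
    have h1 : |f p.1| * |f p.2| ≤ (1 / 2) * (f p.1 ^ 2 + f p.2 ^ 2) := by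
      rw [← sq_abs (f p.1), ← sq_abs (f p.2)]
      nlinarith [sq_nonneg (|f p.1| - |f p.2|)]
    have h2 := Real.exp_pos (-c * |p.1 - p.2|)
    nlinarith
  have hi : Integrable (fun p : ℝ × ℝ => Real.exp (-c * |p.1 - p.2|) * (|f p.1| * |f p.2|))
      (volume.prod volume) := by
    refine ((a1.add b1).const_mul (1 / 2)).mono' hm (Eventually.of_forall fun p => ?_)
    rw [Real.norm_of_nonneg (by positivity)]
    exact hle p
  refine ⟨hi, ?_⟩
  calc ∫ p : ℝ × ℝ, Real.exp (-c * |p.1 - p.2|) * (|f p.1| * |f p.2|) ∂(volume.prod volume)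
      ≤ ∫ p : ℝ × ℝ, (1 / 2) * (Real.exp (-c * |p.1 - p.2|) * f p.1 ^ 2 +
        Real.exp (-c * |p.1 - p.2|) * f p.2 ^ 2) ∂(volume.prod volume) :=
        integral_mono hi ((a1.add b1).const_mul (1 / 2)) hle
    _ = 2 / c * ∫ t, f t ^ 2 := by
        rw [integral_const_mul, integral_add a1 b1, a2, b2]
        ring

/-- the one-sided kernel -/
noncomputable def k (c r t : ℝ) : ℝ := if r < t then Real.exp (-c * (t - r)) else 0

lemma k_meas (c : ℝ) : Measurable (fun q : ℝ × ℝ => k c q.1 q.2) := by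
  unfold k
  apply Measurable.ite
  · exact measurableSet_lt measurable_fst measurable_snd
  · fun_prop
  · fun_prop

lemma k_nonneg (c r t : ℝ) : 0 ≤ k c r t := by
  unfold k; split_ifs
  · positivity
  · exact le_rfl

lemma k_mul (c t s : ℝ) : (fun r => k c r t * k c r s) =
    indicator (Iio (min t s)) (fun r => Real.exp (2 * c * r) * Real.exp (-c * (t + s))) := by
  funext r
  by_cases h : r < min t s
  · rw [indicator_of_mem (show r ∈ Iio (min t s) from h)]
    unfold k
    rw [if_pos (lt_of_lt_of_le h (min_le_left _ _)), if_pos (lt_of_lt_of_le h (min_le_right _ _)),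
      ← Real.exp_add, ← Real.exp_add]
    congr 1
    ring
  · rw [indicator_of_notMem (show r ∉ Iio (min t s) from h)]
    unfold k
    rcases not_and_or.1 (fun h' : r < t ∧ r < s => h (lt_min h'.1 h'.2)) with h' | h'
    · rw [if_neg h', zero_mul]
    · rw [if_neg h', mul_zero]

lemma exp_min (c t s : ℝ) : Real.exp (2 * c * min t s) * Real.exp (-c * (t + s)) =
    Real.exp (-c * |t - s|) := by
  rw [← Real.exp_add]
  congr 1
  rcases le_total t s with h | h
  · rw [min_eq_left h, abs_of_nonpos (by linarith)]; ring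
  · rw [min_eq_right h, abs_of_nonneg (by linarith)]; ring

lemma k_int (c : ℝ) (hc : 0 < c) (t s : ℝ) : Integrable (fun r => k c r t * k c r s) ∧
    ∫ r, k c r t * k c r s = Real.exp (-c * |t - s|) / (2 * c) := by
  have h1 : IntegrableOn (fun r => Real.exp (2 * c * r) * Real.exp (-c * (t + s)))
      (Iio (min t s)) :=
    ((integrableOn_exp_mul_Iic (by linarith) (min t s)).mono_set Iio_subset_Iic_self).mul_const _
  rw [k_mul]
  refine ⟨(integrable_indicator_iff measurableSet_Iio).2 h1, ?_⟩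
  rw [integral_indicator measurableSet_Iio, integral_mul_const, ← integral_Iic_eq_integral_Iio,
    integral_exp_mul_Iic (by linarith), div_mul_eq_mul_div, exp_min]

/-- the representation of the exponential kernel -/
lemma rep (c : ℝ) (hc : 0 < c) (a : ℝ → ℝ) (ha : MemLp a 2 volume) :
    Integrable (fun r => (∫ t, k c r t * a t) ^ 2) ∧
    ∫ p : ℝ × ℝ, Real.exp (-c * |p.1 - p.2|) * (a p.1 * a p.2) ∂(volume.prod volume) =
      2 * c * ∫ r, (∫ t, k c r t * a t) ^ 2 := by
  set g : ℝ → ℝ × ℝ → ℝ := fun r p => (k c r p.1 * a p.1) * (k c r p.2 * a p.2) with hg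
  have hgm : AEStronglyMeasurable (Function.uncurry g)
      (volume.prod ((volume : Measure ℝ).prod (volume : Measure ℝ))) := by
    have m1 : Measurable (fun q : ℝ × (ℝ × ℝ) => k c q.1 q.2.1) :=
      (k_meas c).comp (measurable_fst.prodMk (measurable_fst.comp measurable_snd))
    have m2 : Measurable (fun q : ℝ × (ℝ × ℝ) => k c q.1 q.2.2) :=
      (k_meas c).comp (measurable_fst.prodMk (measurable_snd.comp measurable_snd))
    have m3 : AEStronglyMeasurable (fun q : ℝ × (ℝ × ℝ) => a q.2.1)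
        (volume.prod ((volume : Measure ℝ).prod (volume : Measure ℝ))) :=
      (ha.1.comp_fst (ν := (volume : Measure ℝ))).comp_snd
    have m4 : AEStronglyMeasurable (fun q : ℝ × (ℝ × ℝ) => a q.2.2)
        (volume.prod ((volume : Measure ℝ).prod (volume : Measure ℝ))) :=
      (ha.1.comp_snd (μ := (volume : Measure ℝ))).comp_snd
    exact (m1.aestronglyMeasurable.mul m3).mul (m2.aestronglyMeasurable.mul m4)
  have heq : ∀ r p, g r p = (k c r p.1 * k c r p.2) * (a p.1 * a p.2) := by
    intro r p; simp only [hg]; ring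
  have hgi : Integrable (Function.uncurry g)
      (volume.prod ((volume : Measure ℝ).prod (volume : Measure ℝ))) := by
    rw [integrable_prod_iff' hgm]
    constructor
    · refine Eventually.of_forall fun p => ?_
      have : (fun r => Function.uncurry g (r, p)) =
          fun r => (k c r p.1 * k c r p.2) * (a p.1 * a p.2) := by
        funext r; exact heq r p
      rw [this]
      exact (k_int c hc p.1 p.2).1.mul_const _
    · have : (fun p : ℝ × ℝ => ∫ r, ‖Function.uncurry g (r, p)‖) =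
          fun p => (1 / (2 * c)) * (Real.exp (-c * |p.1 - p.2|) * (|a p.1| * |a p.2|)) := by
        funext p
        have e1 : (fun r => ‖Function.uncurry g (r, p)‖) =
            fun r => (k c r p.1 * k c r p.2) * (|a p.1| * |a p.2|) := by
          funext r
          show ‖g r p‖ = _
          rw [heq, norm_mul, Real.norm_of_nonneg (mul_nonneg (k_nonneg _ _ _) (k_nonneg _ _ _)),
            norm_mul, Real.norm_eq_abs, Real.norm_eq_abs]
        rw [e1, integral_mul_const, (k_int c hc p.1 p.2).2]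
        ring
      rw [this]
      exact (pair c hc a ha).1.const_mul _
  have hin : ∀ r, ∫ p, g r p ∂((volume : Measure ℝ).prod (volume : Measure ℝ)) =
      (∫ t, k c r t * a t) ^ 2 := by
    intro r
    simp only [hg]
    rw [integral_prod_mul (μ := (volume : Measure ℝ)) (ν := (volume : Measure ℝ))
      (fun t => k c r t * a t) (fun t => k c r t * a t)]
    ring
  have hi := hgi.integral_prod_left
  have e2 : (fun r => ∫ p, Function.uncurry g (r, p) ∂((volume : Measure ℝ).prod (volume : Measure ℝ)))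
      = fun r => (∫ t, k c r t * a t) ^ 2 := by
    funext r; exact hin r
  rw [e2] at hi
  refine ⟨hi, ?_⟩
  have h3 := integral_integral_swap hgi
  simp only [hin] at h3
  rw [h3]
  have e3 : ∀ p : ℝ × ℝ, ∫ r, g r p = (1 / (2 * c)) * (Real.exp (-c * |p.1 - p.2|) * (a p.1 * a p.2)) := by
    intro p
    simp only [heq]
    rw [integral_mul_const, (k_int c hc p.1 p.2).2]
    ring
  simp only [e3]
  rw [integral_const_mul]
  field_simp

/-! ### strict positivity -/

lemma zero_of_rep (c : ℝ) (hc : 0 < c) (a : ℝ → ℝ) (ha : MemLp a 2 volume)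
    (h0 : ∫ r, (∫ t, k c r t * a t) ^ 2 = 0) : a =ᵐ[volume] 0 := by
  obtain ⟨hi, -⟩ := rep c hc a ha
  have h1 : (fun r => (∫ t, k c r t * a t) ^ 2) =ᵐ[volume] 0 :=
    (integral_eq_zero_iff_of_nonneg (fun r => sq_nonneg _) hi).1 h0
  -- the function `b t = exp (-c t) a t`
  set b : ℝ → ℝ := fun t => Real.exp (-c * t) * a t with hb
  have hexp : ∀ r : ℝ, MemLp (fun t => Real.exp (-c * t)) 2 (volume.restrict (Ioi r)) := by
    intro r
    rw [memLp_two_iff_integrable_sq (by fun_prop)]
    have e1 : (fun t : ℝ => Real.exp (-c * t) ^ 2) = fun t => Real.exp ((-(2 * c)) * t) := by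
      funext t
      rw [← Real.exp_nat_mul]
      congr 1
      push_cast; ring
    rw [e1]
    exact integrableOn_exp_mul_Ioi (by linarith) r
  have hbi : ∀ r, IntegrableOn b (Ioi r) := by
    intro r
    exact (hexp r).integrable_mul (ha.restrict (Ioi r))
  have hk : ∀ r, ∫ t, k c r t * a t = Real.exp (c * r) * ∫ t in Ioi r, b t := by
    intro r
    rw [← integral_const_mul, ← integral_indicator measurableSet_Ioi]
    congr 1
    funext t
    by_cases h : r < t
    · rw [indicator_of_mem (show t ∈ Ioi r from h)]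
      unfold k
      rw [if_pos h, hb]
      simp only
      rw [← mul_assoc, ← Real.exp_add]
      congr 2
      ring
    · rw [indicator_of_notMem (show t ∉ Ioi r from h)]
      unfold k
      rw [if_neg h, zero_mul]
  have h2 : ∀ᵐ r, ∫ t in Ioi r, b t = 0 := by
    filter_upwards [h1] with r hr
    have h3 : ∫ t, k c r t * a t = 0 := by
      simpa using hr
    rw [hk] at h3
    rcases mul_eq_zero.1 h3 with h | h
    · exact absurd h (Real.exp_pos _).ne'
    · exact h
  obtain ⟨r0, hr0⟩ := h2.exists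
  have hbl : LocallyIntegrable b volume := by
    intro x
    refine ⟨Ioi (x - 1), Ioi_mem_nhds (by linarith), hbi _⟩
  have hbint : ∀ x y, IntervalIntegrable b volume x y := by
    intro x y
    exact intervalIntegrable_iff.mpr <|
      (hbl.integrableOn_isCompact isCompact_uIcc).mono_set uIoc_subset_uIcc
  have hprim : ∀ r, ∫ t in r0..r, b t = -∫ t in Ioi r, b t := by
    intro r
    have := intervalIntegral.integral_interval_add_Ioi (hbi r0) (hbi r)
    rw [hr0] at this
    linarith
  have hzero : (fun r => ∫ t in r0..r, b t) = fun _ => (0 : ℝ) := by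
    apply Continuous.ae_eq_iff_eq (μ := (volume : Measure ℝ)) ?_ continuous_const |>.1
    · filter_upwards [h2] with r hr
      rw [hprim, hr, neg_zero]
    · exact intervalIntegral.continuous_primitive hbint r0
  have hd := _root_.LocallyIntegrable.ae_hasDerivAt_integral hbl
  filter_upwards [hd] with x hx
  have h3 := hx r0
  rw [hzero] at h3
  have h4 : b x = 0 := h3.unique (hasDerivAt_const x 0)
  rw [hb] at h4
  rcases mul_eq_zero.1 h4 with h | h
  · exact absurd h (Real.exp_pos _).ne'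
  · exact h

/-! ### the series of the Green function -/

lemma log_series (q x : ℝ) (hq0 : 0 ≤ q) (hq : q < 1) :
    HasSum (fun n : ℕ => q ^ n * Real.cos (n * x) / n)
      (-(1 / 2) * Real.log (1 - 2 * q * Real.cos x + q ^ 2)) := by
  set z : ℂ := q * Complex.exp (x * Complex.I) with hz
  have hzn : ‖z‖ < 1 := by
    rw [hz, norm_mul, Complex.norm_exp_ofReal_mul_I, mul_one, Complex.norm_real,
      Real.norm_of_nonneg hq0]
    exact hq
  have h1 := Complex.hasSum_re (Complex.hasSum_taylorSeries_neg_log hzn)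
  have e1 : ∀ n : ℕ, (z ^ n / n).re = q ^ n * Real.cos (n * x) / n := by
    intro n
    have : z ^ n = ((q ^ n : ℝ) : ℂ) * Complex.exp ((n * x : ℝ) * Complex.I) := by
      rw [hz, mul_pow, ← Complex.exp_nat_mul]
      push_cast
      ring_nf
    rw [this, ← Complex.ofReal_natCast, Complex.div_ofReal_re, Complex.re_ofReal_mul,
      Complex.exp_ofReal_mul_I_re]
  have e2 : (-Complex.log (1 - z)).re = -(1 / 2) * Real.log (1 - 2 * q * Real.cos x + q ^ 2) := by
    rw [Complex.neg_re, Complex.log_re]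
    have h2 : ‖1 - z‖ ^ 2 = 1 - 2 * q * Real.cos x + q ^ 2 := by
      rw [← Complex.normSq_eq_norm_sq, Complex.normSq_apply]
      simp only [hz, Complex.sub_re, Complex.sub_im, Complex.one_re, Complex.one_im,
        Complex.re_ofReal_mul, Complex.im_ofReal_mul, Complex.exp_ofReal_mul_I_re,
        Complex.exp_ofReal_mul_I_im]
      have := Real.sin_sq_add_cos_sq x
      nlinarith
    rw [← h2, Real.log_pow]
    push_cast
    ring
  rw [e2] at h1
  simpa only [e1] using h1

lemma series (ψ : ℝ → ℝ) {t s : ℝ} (hts : t ≠ s) :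
    HasSum (fun n : ℕ => 1 / (Real.pi * n) * (Real.exp (-(n : ℝ) * |t - s|) *
      (Real.sin (n * ψ t) * Real.sin (n * ψ s)))) (GS ψ t s) := by
  set q : ℝ := Real.exp (-|t - s|) with hq
  have hu : 0 < |t - s| := abs_pos.2 (sub_ne_zero.2 hts)
  have hq0 : 0 < q := Real.exp_pos _
  have hq1 : q < 1 := by rw [hq, Real.exp_lt_one_iff]; linarith
  have hA := log_series q (ψ t + ψ s) hq0.le hq1
  have hB := log_series q (ψ t - ψ s) hq0.le hq1
  have hC := (hB.sub hA).mul_left (1 / (2 * Real.pi))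
  have hpos : ∀ x, 0 < 1 - 2 * q * Real.cos x + q ^ 2 := by
    intro x
    have := Real.cos_le_one x
    nlinarith [sq_nonneg (1 - q)]
  have hcosh : Real.cosh (t - s) = (1 + q ^ 2) / (2 * q) := by
    rw [← Real.cosh_abs, Real.cosh_eq, hq, Real.exp_neg]
    have := Real.exp_pos |t - s|
    field_simp
  have hD : ∀ x, Real.cosh (t - s) - Real.cos x = (1 - 2 * q * Real.cos x + q ^ 2) / (2 * q) := by
    intro x
    rw [hcosh]
    field_simp
    ring
  have hval : GS ψ t s = 1 / (2 * Real.pi) *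
      (-(1 / 2) * Real.log (1 - 2 * q * Real.cos (ψ t - ψ s) + q ^ 2) -
        -(1 / 2) * Real.log (1 - 2 * q * Real.cos (ψ t + ψ s) + q ^ 2)) := by
    unfold GS G
    rw [hD, hD, div_div_div_cancel_right₀ (by positivity), Real.log_div (hpos _).ne' (hpos _).ne']
    field_simp
    ring
  rw [hval]
  refine (congrArg (fun F : ℕ → ℝ => HasSum F _) ?_).mpr hC
  funext n
  rcases Nat.eq_zero_or_pos n with rfl | hn
  · simp
  have hn' : (0 : ℝ) < n := by exact_mod_cast hn
  have e1 : Real.exp (-(n : ℝ) * |t - s|) = q ^ n := by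
    rw [hq, ← Real.exp_nat_mul]
    congr 1
    ring
  have e2 : 2 * (Real.sin (n * ψ t) * Real.sin (n * ψ s)) =
      Real.cos (n * (ψ t - ψ s)) - Real.cos (n * (ψ t + ψ s)) := by
    rw [mul_sub, mul_add, Real.cos_sub, Real.cos_add]
    ring
  have e3 : Real.sin (n * ψ t) * Real.sin (n * ψ s) =
      (Real.cos (n * (ψ t - ψ s)) - Real.cos (n * (ψ t + ψ s))) / 2 := by
    rw [← e2]; ring
  rw [e1, e3]
  field_simp

lemma GS_meas (ψ : ℝ → ℝ) (hc : Continuous ψ) :
    Measurable (fun p : ℝ × ℝ => GS ψ p.1 p.2) := by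
  unfold GS G
  fun_prop

/-- positivity of the form of the exponential kernels -/
lemma term_nonneg (c : ℝ) (hc : 0 < c) (a : ℝ → ℝ) (ha : MemLp a 2 volume) :
    0 ≤ ∫ p : ℝ × ℝ, Real.exp (-c * |p.1 - p.2|) * (a p.1 * a p.2) ∂(volume.prod volume) := by
  rw [(rep c hc a ha).2]
  have : 0 ≤ ∫ r, (∫ t, k c r t * a t) ^ 2 := integral_nonneg fun r => sq_nonneg _
  positivity

lemma memLp_sin (ψ : ℝ → ℝ) (hc : Continuous ψ) (n : ℕ) (f : ℝ → ℝ) (hf : MemLp f 2 volume) :
    MemLp (fun t => Real.sin (n * ψ t) * f t) 2 volume := by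
  have hm : AEStronglyMeasurable (fun t => Real.sin (n * ψ t)) (volume : Measure ℝ) := by
    apply Continuous.aestronglyMeasurable
    fun_prop
  refine hf.of_le (hm.mul hf.1) (Eventually.of_forall fun t => ?_)
  rw [norm_mul]
  have : ‖Real.sin (n * ψ t)‖ ≤ 1 := Real.abs_sin_le_one _
  have h2 := norm_nonneg (f t)
  nlinarith

end Pool.Agent.TH304.NPPD

namespace Pool.Agent.TH268.NP

open Pool.Agent.TH304.NPPD

/-- NP-PD: the single layer form is positive definite -/
theorem nppd (ψ : ℝ → ℝ) (hψ : Prof ψ) (f : ℝ → ℝ) (hf : MemLp f 2 volume)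
    (h0 : ¬ f =ᵐ[volume] 0) : 0 < ∫ t, f t * ∫ s, GS ψ t s * f s := by
  have hpi := Real.pi_pos
  set F : ℕ → ℝ × ℝ → ℝ := fun n p => 1 / (Real.pi * n) *
    (Real.exp (-(n : ℝ) * |p.1 - p.2|) *
      ((Real.sin (n * ψ p.1) * f p.1) * (Real.sin (n * ψ p.2) * f p.2))) with hF
  have hF0 : F 0 = fun _ => 0 := by
    funext p
    simp [hF]
  have hms : ∀ n : ℕ, MemLp (fun t => Real.sin (n * ψ t) * f t) 2 volume :=
    fun n => memLp_sin ψ hψ.cont n f hf
  have hFi : ∀ n, Integrable (F n) (volume.prod volume) := by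
    intro n
    rcases Nat.eq_zero_or_pos n with rfl | hn
    · rw [hF0]; exact integrable_zero _ _ _
    have hn' : (0 : ℝ) < n := by exact_mod_cast hn
    have h1 := (pair n hn' _ (hms n)).1
    refine Integrable.const_mul ?_ _
    refine h1.mono' ?_ (Eventually.of_forall fun p => ?_)
    · have m1 : AEStronglyMeasurable (fun p : ℝ × ℝ => Real.exp (-(n : ℝ) * |p.1 - p.2|))
          ((volume : Measure ℝ).prod (volume : Measure ℝ)) := by
        apply Continuous.aestronglyMeasurable
        fun_prop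
      exact m1.mul ((hms n).1.comp_fst.mul (hms n).1.comp_snd)
    · rw [norm_mul, norm_mul, Real.norm_of_nonneg (Real.exp_pos _).le, Real.norm_eq_abs,
        Real.norm_eq_abs]
  have hFn : ∀ n, ∫ p, ‖F n p‖ ∂(volume.prod volume) ≤ (2 / Real.pi * ∫ t, f t ^ 2) * (1 / (n : ℝ) ^ 2) := by
    intro n
    rcases Nat.eq_zero_or_pos n with rfl | hn
    · rw [hF0]; simp
    have hn' : (0 : ℝ) < n := by exact_mod_cast hn
    obtain ⟨h1, h2⟩ := pair n hn' _ (hms n)
    have e1 : ∀ p, ‖F n p‖ = 1 / (Real.pi * n) * (Real.exp (-(n : ℝ) * |p.1 - p.2|) *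
        (|Real.sin (n * ψ p.1) * f p.1| * |Real.sin (n * ψ p.2) * f p.2|)) := by
      intro p
      simp only [hF]
      have hc1 : 0 ≤ 1 / (Real.pi * n) := by positivity
      rw [norm_mul, norm_mul, norm_mul, Real.norm_of_nonneg (Real.exp_pos _).le,
        Real.norm_of_nonneg hc1, Real.norm_eq_abs, Real.norm_eq_abs]
    simp only [e1]
    rw [integral_const_mul]
    have h3 : ∫ t, (Real.sin (n * ψ t) * f t) ^ 2 ≤ ∫ t, f t ^ 2 := by
      apply integral_mono (hms n).integrable_sq hf.integrable_sq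
      intro t
      simp only
      rw [mul_pow]
      have h4 := Real.sin_sq_le_one (n * ψ t)
      have h5 := sq_nonneg (f t)
      nlinarith
    calc 1 / (Real.pi * n) * ∫ p : ℝ × ℝ, (Real.exp (-(n : ℝ) * |p.1 - p.2|) *
        (|Real.sin (n * ψ p.1) * f p.1| * |Real.sin (n * ψ p.2) * f p.2|)) ∂(volume.prod volume)
        ≤ 1 / (Real.pi * n) * (2 / n * ∫ t, (Real.sin (n * ψ t) * f t) ^ 2) := by gcongr
      _ ≤ 1 / (Real.pi * n) * (2 / n * ∫ t, f t ^ 2) := by gcongr
      _ = (2 / Real.pi * ∫ t, f t ^ 2) * (1 / (n : ℝ) ^ 2) := by field_simp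
  have hsum : Summable (fun n => ∫ p, ‖F n p‖ ∂(volume.prod volume)) := by
    refine Summable.of_nonneg_of_le (fun n => integral_nonneg fun p => norm_nonneg _) hFn ?_
    exact (Real.summable_one_div_nat_pow.2 (by norm_num)).mul_left _
  have hHS := hasSum_integral_of_summable_integral_norm hFi hsum
  -- the sum of the series
  have hoff : ∀ p : ℝ × ℝ, p.1 ≠ p.2 → HasSum (fun n => F n p) (f p.1 * (GS ψ p.1 p.2 * f p.2)) := by
    intro p hp
    have h1 := (series ψ hp).mul_right (f p.1 * f p.2)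
    have e1 : f p.1 * (GS ψ p.1 p.2 * f p.2) = GS ψ p.1 p.2 * (f p.1 * f p.2) := by ring
    rw [e1]
    refine (congrArg (fun F : ℕ → ℝ => HasSum F _) ?_).mpr h1
    funext n
    simp only [hF]
    ring
  have hdiag : ∀ᵐ p : ℝ × ℝ ∂((volume : Measure ℝ).prod volume), p.1 ≠ p.2 := by
    have hms : MeasurableSet {p : ℝ × ℝ | p.1 ≠ p.2} :=
      (measurableSet_eq_fun measurable_fst measurable_snd).compl
    rw [Measure.ae_prod_iff_ae_ae hms]
    refine Eventually.of_forall fun x => ?_
    have : ∀ᵐ y : ℝ, y ≠ x := by simp [ae_iff, measure_singleton]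
    filter_upwards [this] with y hy
    exact hy.symm
  have hae : (fun p => ∑' n, F n p) =ᵐ[(volume : Measure ℝ).prod volume]
      fun p => f p.1 * (GS ψ p.1 p.2 * f p.2) := by
    filter_upwards [hdiag] with p hp
    exact (hoff p hp).tsum_eq
  -- integrability
  have hInt : Integrable (fun p : ℝ × ℝ => f p.1 * (GS ψ p.1 p.2 * f p.2))
      ((volume : Measure ℝ).prod volume) := by
    have hm : AEStronglyMeasurable (fun p : ℝ × ℝ => f p.1 * (GS ψ p.1 p.2 * f p.2))
        ((volume : Measure ℝ).prod volume) :=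
      hf.1.comp_fst.mul ((GS_meas ψ hψ.cont).aestronglyMeasurable.mul hf.1.comp_snd)
    refine ⟨hm, ?_⟩
    rw [HasFiniteIntegral]
    have hle : ∫⁻ p, ‖f p.1 * (GS ψ p.1 p.2 * f p.2)‖ₑ ∂((volume : Measure ℝ).prod volume) ≤
        ∫⁻ p, ∑' n, ‖F n p‖ₑ ∂((volume : Measure ℝ).prod volume) := by
      apply lintegral_mono_ae
      filter_upwards [hdiag] with p hp
      rw [← (hoff p hp).tsum_eq]
      exact enorm_tsum_le_tsum_enorm
    refine lt_of_le_of_lt hle ?_
    rw [lintegral_tsum (fun n => (hFi n).1.enorm)]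
    have e1 : ∀ n, ∫⁻ p, ‖F n p‖ₑ ∂((volume : Measure ℝ).prod volume) =
        ENNReal.ofReal (∫ p, ‖F n p‖ ∂(volume.prod volume)) := by
      intro n
      rw [ofReal_integral_norm_eq_lintegral_enorm (hFi n)]
    simp only [e1]
    exact (hsum.tsum_ofReal_lt_top)
  -- conclusion
  have hEq : ∫ t, f t * ∫ s, GS ψ t s * f s =
      ∫ p, (∑' n, F n p) ∂((volume : Measure ℝ).prod volume) := by
    rw [integral_congr_ae hae, integral_prod _ hInt]
    congr 1
    funext t
    rw [← integral_const_mul]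
  rw [hEq]
  have hnn : ∀ n, 0 ≤ ∫ p, F n p ∂((volume : Measure ℝ).prod volume) := by
    intro n
    rcases Nat.eq_zero_or_pos n with rfl | hn
    · rw [hF0]; simp
    have hn' : (0 : ℝ) < n := by exact_mod_cast hn
    simp only [hF]
    rw [integral_const_mul]
    exact mul_nonneg (by positivity) (term_nonneg n hn' _ (hms n))
  have hpos1 : 0 < ∫ p, F 1 p ∂((volume : Measure ℝ).prod volume) := by
    simp only [hF]
    rw [integral_const_mul]
    apply mul_pos (by positivity)
    rw [(rep _ (by norm_num) _ (hms 1)).2]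
    have h3 : 0 ≤ ∫ r, (∫ t, k ((1 : ℕ) : ℝ) r t * (Real.sin ((1 : ℕ) * ψ t) * f t)) ^ 2 :=
      integral_nonneg fun r => sq_nonneg _
    rcases h3.lt_or_eq with h | h
    · positivity
    · exfalso
      have h4 := zero_of_rep _ (by norm_num) _ (hms 1) h.symm
      apply h0
      filter_upwards [h4] with t ht
      have h5 := hψ.sin_pos t
      simp only [Nat.cast_one, one_mul, Pi.zero_apply] at ht
      rcases mul_eq_zero.1 ht with h' | h'
      · exact absurd h' h5.ne'
      · simpa using h'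
  exact lt_of_lt_of_le hpos1 (le_hasSum hHS 1 fun n _ => hnn n)

end Pool.Agent.TH268.NP
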