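import Pool.Agent.TH268.NP.Bd
import Pool.Agent.Helper49.ND.Schur

set_option autoImplicit false

open MeasureTheory Set Filter Topology
open scoped ENNReal NNReal RealInnerProductSpace

namespace Pool.Agent.TH304.NPH

open Pool.Agent.TH268.NP

/-! ### integrable majorants -/

lemma intA (a r : ℝ) (ha : 0 < a) (hr : 0 < r) :
    Integrable (fun u : ℝ => |u| ^ (a - 1) * Real.exp (-(r * |u|))) := by
  apply Integrable.of_integral_ne_zero
  have h1 := integral_comp_abs (f := fun u : ℝ => u ^ (a - 1) * Real.exp (-(r * u)))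
  rw [h1, Real.integral_rpow_mul_exp_neg_mul_Ioi ha hr]
  have := Real.Gamma_pos_of_pos ha
  positivity

/-- `cosh u - 1` -/
noncomputable def E (u : ℝ) : ℝ := Real.cosh u - 1

lemma E_nonneg (u : ℝ) : 0 ≤ E u := by
  unfold E; linarith [Real.one_le_cosh u]

lemma E_pos {u : ℝ} (hu : u ≠ 0) : 0 < E u := cosh_sub_one_pos hu

lemma E_zero : E 0 = 0 := by simp [E]

lemma sinh_ge {x : ℝ} (hx : 0 ≤ x) : x * Real.exp (x / 2) / 4 ≤ Real.sinh x := by
  rw [Real.sinh_eq]
  have e1 : Real.exp x = Real.exp (x / 2) * Real.exp (x / 2) := by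
    rw [← Real.exp_add]; congr 1; ring
  have h1 : 1 + x / 2 ≤ Real.exp (x / 2) := by
    have := Real.add_one_le_exp (x / 2); linarith
  have h2 : Real.exp (-x) ≤ Real.exp (x / 2) := Real.exp_le_exp.2 (by linarith)
  have h3 := Real.exp_pos (x / 2)
  rw [e1]
  nlinarith

lemma E_ge (u : ℝ) : u ^ 2 * Real.exp (|u| / 2) / 32 ≤ E u := by
  have h1 : E u = 2 * Real.sinh (|u| / 2) ^ 2 := by
    unfold E
    rw [← Real.cosh_abs u]
    have := Real.cosh_two_mul (|u| / 2)
    rw [show 2 * (|u| / 2) = |u| by ring, Real.cosh_sq] at this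
    linarith
  have h2 := sinh_ge (x := |u| / 2) (by positivity)
  have h3 : 0 ≤ |u| / 2 * Real.exp (|u| / 2 / 2) / 4 := by positivity
  have h4 := pow_le_pow_left₀ h3 h2 2
  rw [h1]
  have e1 : Real.exp (|u| / 2 / 2) ^ 2 = Real.exp (|u| / 2) := by
    rw [← Real.exp_nat_mul]; congr 1; push_cast; ring
  have e2 : (|u| / 2 * Real.exp (|u| / 2 / 2) / 4) ^ 2 = u ^ 2 * Real.exp (|u| / 2) / 64 := by
    rw [div_pow, mul_pow, e1, div_pow, sq_abs]; ring
  rw [e2] at h4
  linarith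

lemma E_rpow_le (p : ℝ) (hp : 0 < p) (u : ℝ) :
    E u ^ (-p) ≤ 32 ^ p * (|u| ^ ((1 - 2 * p) - 1) * Real.exp (-((p / 2) * |u|))) := by
  rcases eq_or_ne u 0 with rfl | hu
  · rw [E_zero, Real.zero_rpow (by linarith)]
    positivity
  · have h1 := E_ge u
    have hu2 : 0 < |u| := abs_pos.2 hu
    have h2 : 0 < u ^ 2 * Real.exp (|u| / 2) / 32 := by positivity
    have h3 := Real.rpow_le_rpow_of_nonpos h2 h1 (by linarith : -p ≤ 0)
    refine h3.trans (le_of_eq ?_)
    rw [Real.div_rpow (by positivity) (by norm_num), Real.mul_rpow (by positivity) (by positivity),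
      ← sq_abs, ← Real.rpow_natCast, ← Real.rpow_mul (by positivity), ← Real.exp_mul,
      Real.rpow_neg (by norm_num : (0:ℝ) ≤ 32) p]
    have e1 : ((2 : ℕ) : ℝ) * -p = (1 - 2 * p) - 1 := by push_cast; ring
    have e2 : |u| / 2 * -p = -((p / 2) * |u|) := by ring
    rw [e1, e2, div_inv_eq_mul]
    ring

lemma E_cont : Continuous E := by unfold E; fun_prop

lemma E_meas (p : ℝ) : Measurable (fun u => E u ^ p) :=
  E_cont.measurable.pow_const p

lemma E_int (p : ℝ) (hp : 0 < p) (hp2 : p < 1 / 2) : Integrable (fun u => E u ^ (-p)) := by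
  refine ((intA (1 - 2 * p) (p / 2) (by linarith) (by linarith)).const_mul (32 ^ p)).mono'
    (E_meas _).aestronglyMeasurable (Eventually.of_forall fun u => ?_)
  rw [Real.norm_of_nonneg (Real.rpow_nonneg (E_nonneg u) _)]
  exact E_rpow_le p hp u

/-- the majorant -/
noncomputable def m (u : ℝ) : ℝ := E u ^ (-(7 / 16) : ℝ)

lemma m_nonneg (u : ℝ) : 0 ≤ m u := Real.rpow_nonneg (E_nonneg u) _

lemma m_meas : Measurable m := E_meas _

lemma m_int : Integrable m := E_int (7 / 16) (by norm_num) (by norm_num)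

lemma E_mono {u v : ℝ} (h : |u| ≤ |v|) : E u ≤ E v := by
  unfold E
  have := Real.cosh_le_cosh.2 h
  linarith

lemma m_anti {u v : ℝ} (hu : u ≠ 0) (h : |u| ≤ |v|) : m v ≤ m u :=
  Real.rpow_le_rpow_of_nonpos (E_pos hu) (E_mono h) (by norm_num)

lemma rho_eq (u : ℝ) : rho u = E u ^ (-(1 / 8) : ℝ) := rfl

lemma E_le {v d : ℝ} (hd : |d| ≤ 1) (hv : |v| ≤ 3 * |d|) :
    E v ≤ 9 / 2 * Real.exp (9 / 2) * d ^ 2 := by
  have h1 := Real.cosh_le_exp_half_sq v
  have h2 : Real.exp (v ^ 2 / 2) - 1 ≤ (v ^ 2 / 2) * Real.exp (v ^ 2 / 2) := by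
    have := Real.add_one_le_exp (-(v ^ 2 / 2))
    have h3 := Real.exp_pos (v ^ 2 / 2)
    have h4 : Real.exp (-(v ^ 2 / 2)) * Real.exp (v ^ 2 / 2) = 1 := by
      rw [← Real.exp_add]; simp
    nlinarith
  have h5 : v ^ 2 ≤ 9 * d ^ 2 := by
    rw [← sq_abs v, ← sq_abs d]
    have := abs_nonneg v
    nlinarith
  have h6 : d ^ 2 ≤ 1 := by
    rw [← sq_abs d]
    have := abs_nonneg d
    nlinarith
  have h7 : Real.exp (v ^ 2 / 2) ≤ Real.exp (9 / 2) := Real.exp_le_exp.2 (by linarith)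
  unfold E
  calc Real.cosh v - 1 ≤ (v ^ 2 / 2) * Real.exp (v ^ 2 / 2) := by linarith
    _ ≤ (9 * d ^ 2 / 2) * Real.exp (9 / 2) := by gcongr
    _ = _ := by ring

/-- near the diagonal -/
lemma rho_near {v d : ℝ} (hd : |d| ≤ 1) (hv : |v| ≤ 3 * |d|) :
    rho v ≤ (9 / 2 * Real.exp (9 / 2)) ^ (5 / 16 : ℝ) * |d| ^ (5 / 8 : ℝ) * m v := by
  rcases eq_or_ne v 0 with rfl | hv0
  · rw [rho_eq, E_zero, Real.zero_rpow (by norm_num)]
    have := m_nonneg 0
    positivity
  · have h1 := E_pos hv0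
    have h2 := E_le hd hv
    rw [rho_eq, m]
    have e1 : E v ^ (-(1 / 8) : ℝ) = E v ^ (5 / 16 : ℝ) * E v ^ (-(7 / 16) : ℝ) := by
      rw [← Real.rpow_add h1]; norm_num
    rw [e1]
    have h3 : E v ^ (5 / 16 : ℝ) ≤ (9 / 2 * Real.exp (9 / 2)) ^ (5 / 16 : ℝ) * |d| ^ (5 / 8 : ℝ) := by
      have e2 : |d| ^ (5 / 8 : ℝ) = (d ^ 2) ^ (5 / 16 : ℝ) := by
        rw [← sq_abs, ← Real.rpow_natCast, ← Real.rpow_mul (abs_nonneg _)]
        norm_num
      rw [e2, ← Real.mul_rpow (by positivity) (by positivity)]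
      exact Real.rpow_le_rpow h1.le h2 (by norm_num)
    exact mul_le_mul_of_nonneg_right h3 (Real.rpow_nonneg h1.le _)

/-! ### the derivative of the kernel -/

variable {ψ : ℝ → ℝ}

lemma hasDeriv (h : Prof ψ) {t s : ℝ} (hts : t ≠ s) :
    HasDerivAt (fun τ => GS ψ τ s) (1 / (4 * Real.pi) *
      ((Real.sinh (t - s) + Real.sin (ψ t + ψ s) * deriv ψ t) / Dp ψ t s -
        (Real.sinh (t - s) + Real.sin (ψ t - ψ s) * deriv ψ t) / Dm ψ t s)) t := by
  have hψd : HasDerivAt ψ (deriv ψ t) t := (h.diff t).hasDerivAt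
  have hp : HasDerivAt (fun τ => Dp ψ τ s) (Real.sinh (t - s) + Real.sin (ψ t + ψ s) * deriv ψ t) t := by
    have h1 : HasDerivAt (fun τ => Real.cosh (τ - s)) (Real.sinh (t - s) * 1) t :=
      ((hasDerivAt_id t).sub_const s).cosh
    have h2 : HasDerivAt (fun τ => Real.cos (ψ τ + ψ s)) (-Real.sin (ψ t + ψ s) * deriv ψ t) t :=
      (hψd.add_const (ψ s)).cos
    exact (h1.sub h2).congr_deriv (by ring)
  have hm : HasDerivAt (fun τ => Dm ψ τ s) (Real.sinh (t - s) + Real.sin (ψ t - ψ s) * deriv ψ t) t := by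
    have h1 : HasDerivAt (fun τ => Real.cosh (τ - s)) (Real.sinh (t - s) * 1) t :=
      ((hasDerivAt_id t).sub_const s).cosh
    have h2 : HasDerivAt (fun τ => Real.cos (ψ τ - ψ s)) (-Real.sin (ψ t - ψ s) * deriv ψ t) t :=
      (hψd.sub_const (ψ s)).cos
    exact (h1.sub h2).congr_deriv (by ring)
  have hp0 := h.Dp_pos t s
  have hm0 := Dm_pos ψ hts
  have h4 := ((hp.div hm hm0.ne').log (div_pos hp0 hm0).ne').const_mul (1 / (4 * Real.pi))
  refine h4.congr_deriv ?_
  simp only [Pi.div_apply]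
  field_simp

lemma deriv_bound (h : Prof ψ) {M : ℝ} (hM : ∀ t, |deriv ψ t| ≤ M) (hM0 : 0 ≤ M) {t s : ℝ}
    (hts : t ≠ s) :
    |1 / (4 * Real.pi) *
      ((Real.sinh (t - s) + Real.sin (ψ t + ψ s) * deriv ψ t) / Dp ψ t s -
        (Real.sinh (t - s) + Real.sin (ψ t - ψ s) * deriv ψ t) / Dm ψ t s)| ≤
      (1 + M) * E (t - s) ^ (-(1 / 2) : ℝ) := by
  set v := t - s with hv
  have hv0 : v ≠ 0 := sub_ne_zero.2 hts
  have hE := E_pos hv0
  have hp0 := h.Dp_pos t s
  have hm0 := Dm_pos ψ hts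
  have hc : Real.cosh v = E v + 1 := by unfold E; ring
  have hpge : E v + 1 ≤ Dp ψ t s := by rw [← hc]; exact h.Dp_ge t s
  have hmge : E v ≤ Dm ψ t s := Dm_ge ψ t s
  set r := Real.sqrt (E v) with hr
  have hr0 : 0 < r := Real.sqrt_pos.2 hE
  have hr2 : r * r = E v := Real.mul_self_sqrt hE.le
  have hrp : E v ^ (-(1 / 2) : ℝ) = 1 / r := by
    rw [Real.rpow_neg hE.le, ← Real.sqrt_eq_rpow, one_div]
  rw [hrp]
  -- the three terms
  have e1 : (Real.sinh v + Real.sin (ψ t + ψ s) * deriv ψ t) / Dp ψ t s -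
        (Real.sinh v + Real.sin (ψ t - ψ s) * deriv ψ t) / Dm ψ t s =
      -(Real.sinh v * (Dp ψ t s - Dm ψ t s) / (Dp ψ t s * Dm ψ t s)) +
        Real.sin (ψ t + ψ s) * deriv ψ t / Dp ψ t s -
        Real.sin (ψ t - ψ s) * deriv ψ t / Dm ψ t s := by
    field_simp
    ring
  have hsinh : |Real.sinh v| ≤ 2 * r * (E v + 1) := by
    apply abs_le_of_sq_le_sq _ (by positivity)
    rw [Real.sinh_sq, hc]
    have : (2 * r * (E v + 1)) ^ 2 = 4 * (r * r) * (E v + 1) ^ 2 := by ring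
    rw [this, hr2]
    nlinarith [mul_pos hE hE, mul_pos hE (mul_pos hE hE)]
  have t1 : |Real.sinh v * (Dp ψ t s - Dm ψ t s) / (Dp ψ t s * Dm ψ t s)| ≤ 4 * (1 / r) := by
    rw [abs_div, abs_mul, abs_of_nonneg (h.diff_nonneg t s), abs_of_pos (mul_pos hp0 hm0),
      div_le_iff₀ (mul_pos hp0 hm0)]
    have h1 := h.diff_le t s
    have h2 := h.diff_nonneg t s
    calc |Real.sinh v| * (Dp ψ t s - Dm ψ t s) ≤ (2 * r * (E v + 1)) * 2 := by gcongr
      _ = 4 * (1 / r) * ((E v + 1) * E v) := by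
          rw [← hr2]; field_simp; ring
      _ ≤ 4 * (1 / r) * (Dp ψ t s * Dm ψ t s) := by gcongr
  have t2 : |Real.sin (ψ t + ψ s) * deriv ψ t / Dp ψ t s| ≤ M * (1 / r) := by
    rw [abs_div, abs_mul, abs_of_pos hp0, div_le_iff₀ hp0]
    have h1 := Real.abs_sin_le_one (ψ t + ψ s)
    have h2 : r ≤ E v + 1 := by nlinarith [sq_nonneg (r - 1)]
    calc |Real.sin (ψ t + ψ s)| * |deriv ψ t| ≤ 1 * M := by gcongr; exact hM t
      _ = M * (1 / r) * r := by field_simp
      _ ≤ M * (1 / r) * Dp ψ t s := by gcongr; linarith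
  have t3 : |Real.sin (ψ t - ψ s) * deriv ψ t / Dm ψ t s| ≤ M * (1 / r) := by
    rw [abs_div, abs_mul, abs_of_pos hm0, div_le_iff₀ hm0]
    set d := ψ t - ψ s with hd
    have hx0 : 0 ≤ 1 - Real.cos d := by linarith [Real.cos_le_one d]
    have hDm : Dm ψ t s = E v + (1 - Real.cos d) := by
      unfold Dm E; ring
    have h3 : |Real.sin d| * r ≤ Dm ψ t s := by
      rw [hDm]
      apply abs_le_of_sq_le_sq' _ (by positivity) |>.2
      have h4 : (|Real.sin d| * r) ^ 2 = (1 - Real.cos d) * (1 + Real.cos d) * E v := by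
        rw [mul_pow, sq_abs, Real.sin_sq, sq r, hr2]; ring
      rw [h4]
      have h5 : 1 + Real.cos d ≤ 2 := by linarith [Real.cos_le_one d]
      have h6 : 0 ≤ (1 - Real.cos d) * E v := by positivity
      nlinarith [sq_nonneg (E v - (1 - Real.cos d)), sq_nonneg (E v), sq_nonneg (1 - Real.cos d)]
    calc |Real.sin d| * |deriv ψ t| ≤ |Real.sin d| * M := by gcongr; exact hM t
      _ = M * (1 / r) * (|Real.sin d| * r) := by field_simp
      _ ≤ M * (1 / r) * Dm ψ t s := by gcongr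
  rw [e1, abs_mul]
  have hpi : 3 < Real.pi := Real.pi_gt_three
  have hq : |1 / (4 * Real.pi)| ≤ 1 / 12 := by
    rw [abs_of_pos (by positivity)]
    apply one_div_le_one_div_of_le <;> linarith
  have h7 := abs_sub (-(Real.sinh v * (Dp ψ t s - Dm ψ t s) / (Dp ψ t s * Dm ψ t s)) +
        Real.sin (ψ t + ψ s) * deriv ψ t / Dp ψ t s) (Real.sin (ψ t - ψ s) * deriv ψ t / Dm ψ t s)
  have h8 := abs_add_le (-(Real.sinh v * (Dp ψ t s - Dm ψ t s) / (Dp ψ t s * Dm ψ t s)))
        (Real.sin (ψ t + ψ s) * deriv ψ t / Dp ψ t s)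
  rw [abs_neg] at h8
  have hr1 : 0 < 1 / r := by positivity
  calc _ ≤ (1 / 12) * (4 * (1 / r) + M * (1 / r) + M * (1 / r)) := by
        gcongr
        linarith
    _ ≤ (1 + M) * (1 / r) := by nlinarith

/-- the translation estimate for the kernel -/
lemma diff_bound (h : Prof ψ) : ∃ C : ℝ, 0 ≤ C ∧ ∀ d : ℝ, |d| ≤ 1 → ∀ t s : ℝ,
    |GS ψ (t + d) s - GS ψ t s| ≤ C * |d| ^ (5 / 8 : ℝ) * (m (t - s) + m (t + d - s)) := by
  obtain ⟨M, hM0, hM⟩ := h.deriv_bdd
  set K := (9 / 2 * Real.exp (9 / 2)) ^ (5 / 16 : ℝ) with hK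
  have hK0 : 0 ≤ K := by positivity
  refine ⟨2 * K + 2 * (1 + M), by positivity, fun d hd t s => ?_⟩
  have hm1 := m_nonneg (t - s)
  have hm2 := m_nonneg (t + d - s)
  rcases eq_or_ne d 0 with rfl | hd0
  · simp
  have hdp : 0 < |d| := abs_pos.2 hd0
  have hdq : 0 < |d| ^ (5 / 8 : ℝ) := by positivity
  rcases le_or_gt |t - s| (2 * |d|) with hn | hf
  · -- near
    have h1 : GS ψ t s ≤ 2 * (K * |d| ^ (5 / 8 : ℝ) * m (t - s)) :=
      (h.GS_le t s).trans (by
        have := rho_near (v := t - s) hd (by linarith)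
        linarith)
    have h2 : GS ψ (t + d) s ≤ 2 * (K * |d| ^ (5 / 8 : ℝ) * m (t + d - s)) :=
      (h.GS_le (t + d) s).trans (by
        have h3 : |t + d - s| ≤ 3 * |d| := by
          calc |t + d - s| = |(t - s) + d| := by ring_nf
            _ ≤ |t - s| + |d| := abs_add_le _ _
            _ ≤ 3 * |d| := by linarith
        have := rho_near (v := t + d - s) hd h3
        linarith)
    have h3 := h.GS_nonneg t s
    have h4 := h.GS_nonneg (t + d) s
    have h5 : |GS ψ (t + d) s - GS ψ t s| ≤ GS ψ (t + d) s + GS ψ t s := by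
      rw [abs_le]; constructor <;> linarith
    refine h5.trans ?_
    have h6 : 0 ≤ 2 * (1 + M) * |d| ^ (5 / 8 : ℝ) * (m (t - s) + m (t + d - s)) := by positivity
    nlinarith
  · -- far
    have hconv : Convex ℝ (uIcc t (t + d)) := convex_uIcc _ _
    have hmem : ∀ x ∈ uIcc t (t + d), |x - t| ≤ |d| := by
      intro x hx
      have := abs_sub_left_of_mem_uIcc hx
      simpa using this
    have hfar : ∀ x ∈ uIcc t (t + d), |d| ≤ |x - s| := by
      intro x hx
      have h1 := hmem x hx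
      have h2 : |t - s| ≤ |x - s| + |x - t| := by
        calc |t - s| = |(x - s) - (x - t)| := by ring_nf
          _ ≤ |x - s| + |x - t| := abs_sub _ _
      linarith
    have hne : ∀ x ∈ uIcc t (t + d), x ≠ s := by
      rintro x hx rfl
      have := hfar x hx
      rw [sub_self, abs_zero] at this
      linarith
    -- comparison of the majorant
    have hts : t ≠ s := hne t left_mem_uIcc
    have htds : t + d ≠ s := hne (t + d) right_mem_uIcc
    have hmm : ∀ x ∈ uIcc t (t + d), m (x - s) ≤ m (t - s) + m (t + d - s) := by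
      intro x hx
      have hcases : |t - s| ≤ |x - s| ∨ |t + d - s| ≤ |x - s| := by
        by_contra hcon
        push Not at hcon
        obtain ⟨c1, c2⟩ := hcon
        rcases le_total s t with hst | hst
        · have e1 : |t - s| = t - s := abs_of_nonneg (by linarith)
          rw [e1] at hf
          have e3 : 0 < t + d - s := by
            have := neg_abs_le d; linarith
          rw [e1] at c1
          rw [abs_of_pos e3] at c2
          have e4 : x - s ≤ |x - s| := le_abs_self _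
          rcases mem_uIcc.1 hx with hx' | hx'
          · linarith [hx'.1]
          · linarith [hx'.1]
        · have e1 : |t - s| = -(t - s) := abs_of_nonpos (by linarith)
          rw [e1] at hf
          have e3 : t + d - s < 0 := by
            have := le_abs_self d; linarith
          rw [e1] at c1
          rw [abs_of_neg e3] at c2
          have e4 : -(x - s) ≤ |x - s| := neg_le_abs _
          rcases mem_uIcc.1 hx with hx' | hx'
          · linarith [hx'.2]
          · linarith [hx'.2]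
      rcases hcases with hc | hc
      · have := m_anti (sub_ne_zero.2 hts) hc
        linarith
      · have := m_anti (sub_ne_zero.2 htds) hc
        linarith
    have hE : ∀ x ∈ uIcc t (t + d), E (x - s) ^ (-(1 / 2) : ℝ) ≤
        2 * |d| ^ (-(1 / 8) : ℝ) * (m (t - s) + m (t + d - s)) := by
      intro x hx
      have hx0 : x - s ≠ 0 := sub_ne_zero.2 (hne x hx)
      have hEp := E_pos hx0
      have e1 : E (x - s) ^ (-(1 / 2) : ℝ) = E (x - s) ^ (-(1 / 16) : ℝ) * m (x - s) := by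
        rw [m, ← Real.rpow_add hEp]; norm_num
      rw [e1]
      have h1 : d ^ 2 / 2 ≤ E (x - s) := by
        have := cosh_sub_one_ge (x - s)
        have h2 := hfar x hx
        have h3 : d ^ 2 ≤ (x - s) ^ 2 := sq_le_sq.2 h2
        unfold E
        linarith
      have h2 : E (x - s) ^ (-(1 / 16) : ℝ) ≤ 2 * |d| ^ (-(1 / 8) : ℝ) := by
        have h3 : 0 < d ^ 2 / 2 := by positivity
        refine (Real.rpow_le_rpow_of_nonpos h3 h1 (by norm_num)).trans ?_
        rw [Real.div_rpow (by positivity) (by norm_num), ← sq_abs, ← Real.rpow_natCast,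
          ← Real.rpow_mul (abs_nonneg _)]
        have e2 : ((2 : ℕ) : ℝ) * (-(1 / 16)) = -(1 / 8) := by norm_num
        rw [e2, Real.rpow_neg (by norm_num : (0:ℝ) ≤ 2), div_inv_eq_mul, mul_comm]
        have h4 : (2 : ℝ) ^ (1 / 16 : ℝ) ≤ 2 := by
          calc (2 : ℝ) ^ (1 / 16 : ℝ) ≤ 2 ^ (1 : ℝ) :=
                Real.rpow_le_rpow_of_exponent_le (by norm_num) (by norm_num)
            _ = 2 := by norm_num
        gcongr
      have h3 := hmm x hx
      have h4 := m_nonneg (x - s)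
      calc E (x - s) ^ (-(1 / 16) : ℝ) * m (x - s) ≤ (2 * |d| ^ (-(1 / 8) : ℝ)) * m (x - s) := by
            gcongr
        _ ≤ _ := by gcongr
    have hmvt := hconv.norm_image_sub_le_of_norm_hasDerivWithin_le (f := fun τ => GS ψ τ s)
      (C := (1 + M) * (2 * |d| ^ (-(1 / 8) : ℝ) * (m (t - s) + m (t + d - s))))
      (fun x hx => (hasDeriv h (hne x hx)).hasDerivWithinAt)
      (fun x hx => by
        rw [Real.norm_eq_abs]
        refine (deriv_bound h hM hM0 (hne x hx)).trans ?_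
        have := hE x hx
        gcongr) left_mem_uIcc right_mem_uIcc
    rw [Real.norm_eq_abs, Real.norm_eq_abs] at hmvt
    have e5 : t + d - t = d := by ring
    rw [e5] at hmvt
    refine hmvt.trans ?_
    have h6 : |d| ^ (-(1 / 8) : ℝ) * |d| ≤ |d| ^ (5 / 8 : ℝ) := by
      have e6 : |d| ^ (-(1 / 8) : ℝ) * |d| = |d| ^ (7 / 8 : ℝ) := by
        nth_rewrite 2 [← Real.rpow_one |d|]
        rw [← Real.rpow_add hdp]; norm_num
      rw [e6]
      exact Real.rpow_le_rpow_of_exponent_ge hdp hd (by norm_num)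
    have h7 : 0 ≤ m (t - s) + m (t + d - s) := by positivity
    calc (1 + M) * (2 * |d| ^ (-(1 / 8) : ℝ) * (m (t - s) + m (t + d - s))) * |d|
        = 2 * (1 + M) * (|d| ^ (-(1 / 8) : ℝ) * |d|) * (m (t - s) + m (t + d - s)) := by ring
      _ ≤ 2 * (1 + M) * |d| ^ (5 / 8 : ℝ) * (m (t - s) + m (t + d - s)) := by gcongr
      _ ≤ (2 * K + 2 * (1 + M)) * |d| ^ (5 / 8 : ℝ) * (m (t - s) + m (t + d - s)) := by
          gcongr
          linarith

lemma GS_meas (hc : Continuous ψ) :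
    Measurable (fun p : ℝ × ℝ => GS ψ p.1 p.2) := by
  unfold GS G
  fun_prop

lemma row_memLp (h : Prof ψ) (t : ℝ) : MemLp (fun s => GS ψ t s) 2 volume := by
  have h1 : MemLp (fun s => 2 * rho (t - s)) 2 volume := by
    have h2 : MemLp (fun s => rho (t - s)) 2 volume := by
      have hm : Measurable rho := E_meas _
      have hm2 : Measurable (fun s : ℝ => rho (t - s)) := hm.comp (measurable_const.sub measurable_id)
      rw [memLp_two_iff_integrable_sq hm2.aestronglyMeasurable]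
      have e1 : (fun s : ℝ => rho (t - s) ^ 2) = fun s => E (t - s) ^ (-(1 / 4) : ℝ) := by
        funext s
        rw [rho_eq, ← Real.rpow_natCast, ← Real.rpow_mul (E_nonneg _)]
        norm_num
      rw [e1]
      exact (E_int (1 / 4) (by norm_num) (by norm_num)).comp_sub_left t
    exact h2.const_mul 2
  refine h1.of_le ?_ (Eventually.of_forall fun s => ?_)
  · have : Measurable (fun s : ℝ => GS ψ t s) := by
      have hc := h.cont
      unfold GS G
      fun_prop
    exact this.aestronglyMeasurable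
  · rw [Real.norm_of_nonneg (h.GS_nonneg t s), Real.norm_of_nonneg (by
      have := rho_nonneg (t - s); positivity)]
    exact h.GS_le t s

lemma enorm_sq_eq {f : ℝ → ℝ} (hf : MemLp f 2 volume) :
    ∫⁻ s, ‖f s‖ₑ ^ 2 = ENNReal.ofReal (∫ s, f s ^ 2) := by
  rw [ofReal_integral_eq_lintegral_ofReal hf.integrable_sq
    (Eventually.of_forall fun s => sq_nonneg _)]
  congr 1
  funext s
  rw [Real.enorm_eq_ofReal_abs, ← ENNReal.ofReal_pow (abs_nonneg _), sq_abs]

lemma m_shift1 (c : ℝ) : Integrable (fun s => m (c - s)) ∧ ∫ s, m (c - s) = ∫ s, m s :=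
  ⟨m_int.comp_sub_left c, integral_sub_left_eq_self m volume c⟩

lemma m_shift2 (c : ℝ) : Integrable (fun s => m (s - c)) ∧ ∫ s, m (s - c) = ∫ s, m s :=
  ⟨m_int.comp_sub_right c, integral_sub_right_eq_self m c⟩

/-- the translation estimate for potentials -/
lemma trans_bound (h : Prof ψ) (f : ℝ → ℝ) (hf : MemLp f 2 volume) :
    ∃ A : ℝ, 0 ≤ A ∧ ∀ d : ℝ, |d| ≤ 1 →
      ∫⁻ t, ‖(∫ s, GS ψ (t + d) s * f s) - ∫ s, GS ψ t s * f s‖ₑ ^ 2 ≤
        ENNReal.ofReal (A * |d| ^ (5 / 4 : ℝ)) := by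
  obtain ⟨C, hC0, hC⟩ := diff_bound h
  set I := ∫ s, m s with hI
  have hI0 : 0 ≤ I := integral_nonneg fun s => m_nonneg s
  refine ⟨(2 * C * I) ^ 2 * ∫ s, f s ^ 2, by
    have : 0 ≤ ∫ s, f s ^ 2 := integral_nonneg fun s => sq_nonneg _
    positivity, fun d hd => ?_⟩
  set c := C * |d| ^ (5 / 8 : ℝ) with hc
  have hc0 : 0 ≤ c := by positivity
  set W : ℝ → ℝ → ℝ≥0∞ := fun t s => ENNReal.ofReal (c * (m (t - s) + m (t + d - s))) with hW
  have hWm : Measurable (Function.uncurry W) := by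
    have h1 : Measurable (fun p : ℝ × ℝ => m (p.1 - p.2)) := m_meas.comp (by fun_prop)
    have h2 : Measurable (fun p : ℝ × ℝ => m (p.1 + d - p.2)) := m_meas.comp (by fun_prop)
    exact ((h1.add h2).const_mul c).ennreal_ofReal
  have hint : ∀ t, ∫⁻ s, W t s = ENNReal.ofReal (c * (I + I)) := by
    intro t
    simp only [hW]
    have hi : Integrable (fun s => c * (m (t - s) + m (t + d - s))) :=
      ((m_shift1 t).1.add (m_shift1 (t + d)).1).const_mul c
    have hn : 0 ≤ᵐ[volume] (fun s => c * (m (t - s) + m (t + d - s))) :=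
      Eventually.of_forall fun s => mul_nonneg hc0 (add_nonneg (m_nonneg _) (m_nonneg _))
    rw [← ofReal_integral_eq_lintegral_ofReal hi hn, integral_const_mul,
      integral_add (m_shift1 t).1 (m_shift1 (t + d)).1,
      (m_shift1 t).2, (m_shift1 (t + d)).2]
  have hint2 : ∀ s, ∫⁻ t, W t s = ENNReal.ofReal (c * (I + I)) := by
    intro s
    simp only [hW]
    have e1 : ∀ t, m (t + d - s) = m (t - (s - d)) := by
      intro t; congr 1; ring
    simp only [e1]
    have hi : Integrable (fun t => c * (m (t - s) + m (t - (s - d)))) :=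
      ((m_shift2 s).1.add (m_shift2 (s - d)).1).const_mul c
    have hn : 0 ≤ᵐ[volume] (fun t => c * (m (t - s) + m (t - (s - d)))) :=
      Eventually.of_forall fun t => mul_nonneg hc0 (add_nonneg (m_nonneg _) (m_nonneg _))
    rw [← ofReal_integral_eq_lintegral_ofReal hi hn, integral_const_mul,
      integral_add (m_shift2 s).1 (m_shift2 (s - d)).1,
      (m_shift2 s).2, (m_shift2 (s - d)).2]
  have hsch := Pool.Agent.Helper49.ND.Schur.schur (volume : Measure ℝ) W hWm
    (ENNReal.ofReal (c * (I + I))) (fun t => (hint t).le) (fun s => (hint2 s).le)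
    (fun s => ‖f s‖ₑ) hf.1.enorm
  have hpt : ∀ t, ‖(∫ s, GS ψ (t + d) s * f s) - ∫ s, GS ψ t s * f s‖ₑ ≤
      ∫⁻ s, W t s * ‖f s‖ₑ := by
    intro t
    have i1 : Integrable (fun s => GS ψ (t + d) s * f s) := (row_memLp h (t + d)).integrable_mul hf
    have i2 : Integrable (fun s => GS ψ t s * f s) := (row_memLp h t).integrable_mul hf
    rw [← integral_sub i1 i2]
    refine (enorm_integral_le_lintegral_enorm _).trans (lintegral_mono fun s => ?_)
    rw [← sub_mul, enorm_mul]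
    gcongr
    rw [Real.enorm_eq_ofReal_abs]
    exact ENNReal.ofReal_le_ofReal (hC d hd t s)
  calc ∫⁻ t, ‖(∫ s, GS ψ (t + d) s * f s) - ∫ s, GS ψ t s * f s‖ₑ ^ 2
      ≤ ∫⁻ t, (∫⁻ s, W t s * ‖f s‖ₑ) ^ 2 := by
        apply lintegral_mono
        intro t
        have := hpt t
        simp only
        gcongr
    _ ≤ ENNReal.ofReal (c * (I + I)) ^ 2 * ∫⁻ s, ‖f s‖ₑ ^ 2 := hsch
    _ = ENNReal.ofReal (((2 * C * I) ^ 2 * ∫ s, f s ^ 2) * |d| ^ (5 / 4 : ℝ)) := by
        rw [enorm_sq_eq hf, ← ENNReal.ofReal_pow (by positivity),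
          ← ENNReal.ofReal_mul (by positivity)]
        congr 1
        have e2 : |d| ^ (5 / 4 : ℝ) = (|d| ^ (5 / 8 : ℝ)) ^ 2 := by
          rw [← Real.rpow_natCast, ← Real.rpow_mul (abs_nonneg _)]; norm_num
        rw [e2, hc]
        ring

end Pool.Agent.TH304.NPH

namespace Pool.Agent.TH268.NP

open Pool.Agent.TH304.NPH

/-- NP-H12: potentials of `L²` densities are in `H^{1/2}` -/
theorem nph12 (ψ : ℝ → ℝ) (hψ : Prof ψ) (f : ℝ → ℝ) (hf : MemLp f 2 volume) :
    ∫⁻ δ in Icc (-1 : ℝ) 1, ∫⁻ t, ‖(∫ s, GS ψ (t + δ) s * f s) - ∫ s, GS ψ t s * f s‖ₑ ^ 2 /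
      ‖δ‖ₑ ^ 2 < ⊤ := by
  obtain ⟨A, hA0, hA⟩ := trans_bound hψ f hf
  have hi : Integrable (fun d : ℝ => A * (Real.exp 1 * (|d| ^ ((1 / 4 : ℝ) - 1) *
      Real.exp (-(1 * |d|))))) := ((intA (1 / 4) 1 (by norm_num) (by norm_num)).const_mul _).const_mul _
  have hne : ∀ᵐ d : ℝ, d ≠ 0 := by simp [ae_iff, measure_singleton]
  have hle : ∫⁻ δ in Icc (-1 : ℝ) 1, ∫⁻ t, ‖(∫ s, GS ψ (t + δ) s * f s) -
      ∫ s, GS ψ t s * f s‖ₑ ^ 2 / ‖δ‖ₑ ^ 2 ≤
      ∫⁻ d in Icc (-1 : ℝ) 1, ENNReal.ofReal (A * (Real.exp 1 * (|d| ^ ((1 / 4 : ℝ) - 1) *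
      Real.exp (-(1 * |d|))))) := by
    apply lintegral_mono_ae
    filter_upwards [ae_restrict_mem measurableSet_Icc, ae_restrict_of_ae hne] with d h1 h2
    have hd : |d| ≤ 1 := abs_le.2 h1
    have hdp : 0 < |d| := abs_pos.2 h2
    have e1 : ‖d‖ₑ ^ 2 = ENNReal.ofReal (|d| ^ 2) := by
      rw [Real.enorm_eq_ofReal_abs, ENNReal.ofReal_pow (abs_nonneg _)]
    simp only [div_eq_mul_inv]
    rw [lintegral_mul_const' _ _ (by
      rw [e1, ← ENNReal.ofReal_inv_of_pos (by positivity)]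
      exact ENNReal.ofReal_ne_top)]
    have h3 := hA d hd
    calc (∫⁻ t, ‖(∫ s, GS ψ (t + d) s * f s) - ∫ s, GS ψ t s * f s‖ₑ ^ 2) * (‖d‖ₑ ^ 2)⁻¹
        ≤ ENNReal.ofReal (A * |d| ^ (5 / 4 : ℝ)) * (‖d‖ₑ ^ 2)⁻¹ := by gcongr
      _ = ENNReal.ofReal (A * |d| ^ ((1 / 4 : ℝ) - 1)) := by
          rw [e1, ← ENNReal.ofReal_inv_of_pos (by positivity), ← ENNReal.ofReal_mul (by positivity)]
          congr 1
          rw [mul_assoc, ← Real.rpow_natCast, ← Real.rpow_neg (abs_nonneg _), ← Real.rpow_add hdp]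
          norm_num
      _ ≤ _ := by
          apply ENNReal.ofReal_le_ofReal
          have h4 : 1 ≤ Real.exp 1 * Real.exp (-(1 * |d|)) := by
            rw [← Real.exp_add]
            apply Real.one_le_exp
            linarith
          have h5 : 0 ≤ |d| ^ ((1 / 4 : ℝ) - 1) := by positivity
          calc A * |d| ^ ((1 / 4 : ℝ) - 1) = A * (1 * |d| ^ ((1 / 4 : ℝ) - 1)) := by ring
            _ ≤ A * ((Real.exp 1 * Real.exp (-(1 * |d|))) * |d| ^ ((1 / 4 : ℝ) - 1)) := by gcongr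
            _ = _ := by ring
  refine lt_of_le_of_lt hle ?_
  refine lt_of_le_of_lt (setLIntegral_le_lintegral _ _) ?_
  rw [← ofReal_integral_eq_lintegral_ofReal hi (Eventually.of_forall fun d => by
    simp only [Pi.zero_apply]; positivity)]
  exact ENNReal.ofReal_lt_top

end Pool.Agent.TH268.NP
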