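import Pool.Agent.TH547.Arc.NH
set_option autoImplicit false

open Finset Equiv
open Pool.Agent.TH547.Arc Pool.Agent.TH547.Arc.Sys

namespace Pool.Agent.TH304.J771

variable {S : Sys}

theorem mem_filt {α : Type} {s : Finset α} {p : α → Prop} {inst : DecidablePred p} {a : α} :
    a ∈ @Finset.filter α p inst s ↔ a ∈ s ∧ p a := by
  rw [Finset.mem_filter]

theorem Ch_mono {F : Finset ℕ} {P R : S.C → Prop} (h : ∀ X, P X → R X) {i : ℕ}
    {z : S.Q F →₀ ℤ} (hz : z ∈ Ch F P i) : z ∈ Ch F R i := by
  rw [mem_Ch] at hz ⊢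
  intro q hq
  obtain ⟨X, h1, h2, h3⟩ := hz q hq
  exact ⟨X, h1, h X h2, h3⟩

theorem pr_mem {F : Finset ℕ} {P R : S.C → Prop} (hR : Inv F R) {i : ℕ}
    {z : S.Q F →₀ ℤ} (hz : z ∈ Ch F P i) : pr F R z ∈ Ch F (fun X => P X ∧ R X) i := by
  classical
  rw [mem_Ch] at hz ⊢
  intro q hq
  rw [pr_apply] at hq
  by_cases hRq : pq F R q
  · rw [if_pos hRq] at hq
    obtain ⟨X, rfl, h2, h3⟩ := hz q hq
    exact ⟨X, rfl, ⟨h2, (pq_cl hR X).1 hRq⟩, h3⟩
  · rw [if_neg hRq] at hq
    exact absurd rfl hq

theorem sub_pr_mem {F : Finset ℕ} {P R : S.C → Prop} {i : ℕ}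
    {z : S.Q F →₀ ℤ} (hz : z ∈ Ch F P i) : z - pr F R z ∈ Ch F (fun X => P X ∧ ¬ R X) i := by
  classical
  rw [mem_Ch] at hz ⊢
  intro q hq
  rw [Finsupp.sub_apply, pr_apply] at hq
  by_cases hRq : pq F R q
  · rw [if_pos hRq, sub_self] at hq
    exact absurd rfl hq
  · rw [if_neg hRq, sub_zero] at hq
    obtain ⟨X, rfl, h2, h3⟩ := hz q hq
    exact ⟨X, rfl, ⟨h2, fun hc => hRq ⟨X, rfl, hc⟩⟩, h3⟩

theorem D_sub {F : Finset ℕ} {P R : S.C → Prop} (h : ∀ X, R X → P X) (x : S.Q F →₀ ℤ) :
    D F R x = pr F R (D F P x) := by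
  classical
  unfold D
  rw [LinearMap.comp_apply, LinearMap.comp_apply]
  ext q
  rw [pr_apply, pr_apply, pr_apply]
  by_cases hR : pq F R q
  · have hP : pq F P q := by
      obtain ⟨X, h1, h2⟩ := hR
      exact ⟨X, h1, h X h2⟩
    rw [if_pos hR, if_pos hR, if_pos hP]
  · rw [if_neg hR, if_neg hR]

theorem card_nm_rn (π : Perm ℕ) (Z : S.C) : (S.nm (S.rn π Z)).card = (S.nm Z).card := by
  rw [nm_rn, Finset.card_map]

theorem card_of_cl {F : Finset ℕ} {Y Z : S.C} (h : S.cl F Y = S.cl F Z) :
    (S.nm Y).card = (S.nm Z).card := by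
  obtain ⟨π, _, rfl⟩ := cl_eq.1 h
  exact (card_nm_rn π Y).symm

theorem inv_pt {F : Finset ℕ} {P : S.C → Prop} (hP : Inv F P) (pt : S.C → S.C)
    (hrn : ∀ X, P X → ∀ π : Perm ℕ, (∀ a ∈ F, π a = a) → pt (S.rn π X) = S.rn π (pt X))
    {p : S.C → Prop} (hp : ∀ π : Perm ℕ, (∀ a ∈ F, π a = a) → ∀ Z, p Z → p (S.rn π Z)) :
    Inv F (fun X => P X ∧ p (pt X)) := by
  intro π hπ X hX
  refine ⟨hP π hπ X hX.1, ?_⟩
  rw [hrn X hX.1 π hπ]
  exact hp π hπ _ hX.2

/-- the map of classes -/
def cmap (F G : Finset ℕ) (hFG : F ⊆ G) : S.Q G → S.Q F :=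
  Quotient.lift (s := S.st G) (S.cl F) (by
    rintro X Y ⟨π, hπ, rfl⟩
    exact (cl_rn (fun a ha => hπ a (hFG ha)) X).symm)

theorem cmap_cl {F G : Finset ℕ} (hFG : F ⊆ G) (X : S.C) : cmap F G hFG (S.cl G X) = S.cl F X := rfl

/-- exactness for one pattern class -/
theorem exR {F : Finset ℕ} {P : S.C → Prop} (hP : Inv F P)
    (pt : S.C → S.C) (hF : ∀ X, P X → F ⊆ S.nm (pt X))
    (hsub : ∀ X, P X → S.nm (pt X) ⊆ S.nm X)
    (hrn : ∀ X, P X → ∀ π : Perm ℕ, (∀ a ∈ F, π a = a) → pt (S.rn π X) = S.rn π (pt X))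
    (hdl : ∀ X, P X → ∀ a ∈ S.nm X \ F, P (S.dl X a) →
      (a ∉ S.nm (pt X) ∧ pt (S.dl X a) = pt X) ∨
        (S.nm (pt (S.dl X a))).card < (S.nm (pt X)).card) {i : ℕ}
    (hex : ∀ Y j, j + (S.nm Y \ F).card = i → F ⊆ S.nm Y → (∃ X, P X ∧ pt X = Y) →
      Ex (S.nm Y) (fun X => P X ∧ pt X = Y) j) (Y : S.C) (hY : ∃ X, P X ∧ pt X = Y) :
    Ex F (fun X => P X ∧ S.cl F (pt X) = S.cl F Y) i := by
  classical
  set R : S.C → Prop := fun X => P X ∧ S.cl F (pt X) = S.cl F Y with hR
  set R' : S.C → Prop := fun X => P X ∧ pt X = Y with hR'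
  set G := S.nm Y with hG
  have hFG : F ⊆ G := by
    obtain ⟨X, hX, rfl⟩ := hY
    exact hF X hX
  have hRinv : Inv F R := inv_pt hP pt hrn (p := fun Z => S.cl F Z = S.cl F Y) (by
    intro π hπ Z hZ
    show S.cl F (S.rn π Z) = S.cl F Y
    rw [cl_rn hπ]; exact hZ)
  have hR'inv : Inv G R' := by
    intro π hπ X hX
    have hπF : ∀ a ∈ F, π a = a := fun a ha => hπ a (hFG ha)
    refine ⟨hP π hπF X hX.1, ?_⟩
    rw [hrn X hX.1 π hπF, hX.2, S.rn_congr π 1 Y, S.rn_one]
    intro a ha
    rw [Perm.one_apply]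
    exact hπ a (mem_nm.2 ha)
  have hRR' : ∀ X, R' X → R X := fun X hX => ⟨hX.1, by rw [hX.2]⟩
  -- representative
  have hrep : ∀ X, R X → ∃ X', R' X' ∧ S.cl F X' = S.cl F X := by
    intro X hX
    obtain ⟨π, hπ, e⟩ := cl_eq.1 hX.2
    refine ⟨S.rn π X, ⟨hP π hπ X hX.1, ?_⟩, cl_rn hπ X⟩
    rw [hrn X hX.1 π hπ, ← e]
  have hdegG : ∀ X, R' X → deg F X = deg G X + (G \ F).card := by
    intro X hX
    have hGX : G ⊆ S.nm X := by
      have := hsub X hX.1
      rwa [hX.2] at this
    unfold deg
    rw [← Finset.card_union_of_disjoint]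
    · congr 1
      ext a
      simp only [Finset.mem_sdiff, Finset.mem_union]
      constructor
      · rintro ⟨h1, h2⟩
        by_cases h3 : a ∈ G
        · exact Or.inr ⟨h3, h2⟩
        · exact Or.inl ⟨h1, h3⟩
      · rintro (⟨h1, h2⟩ | ⟨h1, h2⟩)
        · exact ⟨h1, fun h => h2 (hFG h)⟩
        · exact ⟨hGX h1, h2⟩
    · rw [Finset.disjoint_left]
      intro a ha hb
      exact (Finset.mem_sdiff.1 ha).2 (Finset.mem_sdiff.1 hb).1
  have hdegcl : ∀ X X' : S.C, S.cl F X' = S.cl F X → deg F X' = deg F X := by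
    intro X X' h
    obtain ⟨π, hπ, rfl⟩ := cl_eq.1 h
    exact (deg_rn hπ X').symm
  intro z hz hDz
  by_cases hi : (G \ F).card ≤ i
  swap
  · -- no cells
    have hz0 : z = 0 := by
      ext q
      by_contra hq
      obtain ⟨X, hXq, hRX, hdX⟩ := mem_Ch.1 hz q hq
      obtain ⟨X', h1, h2⟩ := hrep X hRX
      have := hdegG X' h1
      rw [hdegcl X X' h2, hdX] at this
      omega
    exact ⟨0, Submodule.zero_mem _, by rw [map_zero, hz0]⟩
  obtain ⟨j, hj⟩ : ∃ j, j + (G \ F).card = i := ⟨i - (G \ F).card, by omega⟩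
  set C : (S.Q G →₀ ℤ) →ₗ[ℤ] (S.Q F →₀ ℤ) := Finsupp.lmapDomain ℤ ℤ (cmap F G hFG) with hC
  have hCs : ∀ X n, C (Finsupp.single (S.cl G X) n) = Finsupp.single (S.cl F X) n := by
    intro X n
    rw [hC, Finsupp.lmapDomain_apply, Finsupp.mapDomain_single, cmap_cl]
  -- compatibility with the differentials
  have hCD0 : ∀ X, R' X → C (D0 G R' X) = D0 F R X := by
    intro X hX
    unfold D0
    rw [map_sum]
    refine Finset.sum_congr (Finset.ext fun a => ?_) (fun a _ => hCs _ _)
    constructor
    · intro ha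
      obtain ⟨h12, h3⟩ := mem_filt.1 ha
      obtain ⟨h1, h2⟩ := Finset.mem_sdiff.1 h12
      exact mem_filt.2
        ⟨Finset.mem_sdiff.2 ⟨h1, fun h => h2 (hFG h)⟩, hRR' _ h3⟩
    · intro ha
      obtain ⟨h12, h3⟩ := mem_filt.1 ha
      obtain ⟨h1, h2⟩ := Finset.mem_sdiff.1 h12
      rcases hdl X hX.1 a h12 h3.1 with h4 | h4
      · rw [hX.2] at h4
        exact mem_filt.2 ⟨Finset.mem_sdiff.2 ⟨h1, h4.1⟩, h3.1, h4.2⟩
      · have h5 := card_of_cl h3.2
        rw [hX.2] at h4
        omega
  have hCD : ∀ k, ∀ x ∈ Ch G R' k, C (D G R' x) = D F R (C x) := by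
    intro k
    refine Ch_induction ?_ ?_ ?_
    · simp
    · intro x y hx hy
      rw [map_add, map_add, map_add, map_add, hx, hy]
    · intro X n hX _
      rw [D_single hR'inv, map_smul, hCD0 X hX, hCs, D_single hRinv]
  have hCmem : ∀ k, ∀ x ∈ Ch G R' k, C x ∈ Ch F R (k + (G \ F).card) := by
    intro k
    refine Ch_induction ?_ ?_ ?_
    · rw [map_zero]; exact Submodule.zero_mem _
    · intro x y hx hy
      rw [map_add]; exact Submodule.add_mem _ hx hy
    · intro X n hX hd
      rw [hCs]
      exact single_mem_Ch (hRR' X hX) (by rw [hdegG X hX, hd]) n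
  have hCinj : ∀ k, ∀ x ∈ Ch G R' k, C x = 0 → x = 0 := by
    intro k x hx hCx
    have hinj : Set.InjOn (cmap F G hFG) {q : S.Q G | pq G R' q} := by
      rintro q ⟨X, rfl, hX⟩ q' ⟨X', rfl, hX'⟩ h
      rw [cmap_cl, cmap_cl] at h
      obtain ⟨π, hπ, rfl⟩ := cl_eq.1 h
      have h1 : S.rn π Y = Y := by
        have := hrn X hX.1 π hπ
        rw [hX'.2, hX.2] at this
        exact this.symm
      have h2 : (S.ord Y).map π = (S.ord Y).map id := by
        rw [← S.ord_rn, h1, List.map_id]
      rw [List.map_eq_map_iff] at h2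
      refine cl_eq.2 ⟨π, fun a ha => h2 a (mem_nm.1 ha), rfl⟩
    have hs : (x.support : Set (S.Q G)) ⊆ {q | pq G R' q} := by
      intro q hq
      have hq' : x q ≠ 0 := Finsupp.mem_support_iff.1 hq
      obtain ⟨X, h1, h2, _⟩ := mem_Ch.1 hx q hq'
      exact ⟨X, h1, h2⟩
    have h0 : ((0 : S.Q G →₀ ℤ).support : Set (S.Q G)) ⊆ {q | pq G R' q} := by simp
    refine Finsupp.mapDomain_injOn {q : S.Q G | pq G R' q} hinj hs h0 ?_
    rw [Finsupp.mapDomain_zero]
    exact hCx
  have hCsurj : ∀ x ∈ Ch F R i, ∃ x' ∈ Ch G R' j, C x' = x := by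
    refine Ch_induction ?_ ?_ ?_
    · exact ⟨0, Submodule.zero_mem _, map_zero _⟩
    · rintro x y ⟨x', h1, h2⟩ ⟨y', h3, h4⟩
      exact ⟨x' + y', Submodule.add_mem _ h1 h3, by rw [map_add, h2, h4]⟩
    · intro X n hX hd
      obtain ⟨X', h1, h2⟩ := hrep X hX
      refine ⟨Finsupp.single (S.cl G X') n, single_mem_Ch h1 ?_ n, by rw [hCs, h2]⟩
      have := hdegG X' h1
      rw [hdegcl X X' h2, hd] at this
      omega
  obtain ⟨z', hz', rfl⟩ := hCsurj z hz
  have hDz' : D G R' z' = 0 := by
    rcases Nat.eq_zero_or_pos j with hj0 | hj0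
    · subst hj0
      exact D_zero_deg hR'inv hz'
    · obtain ⟨k, rfl⟩ : ∃ k, j = k + 1 := ⟨j - 1, by omega⟩
      refine hCinj k _ (D_mem hR'inv hz') ?_
      rw [hCD _ z' hz', hDz]
  obtain ⟨w', hw', hDw'⟩ := hex Y j hj hFG hY z' hz' hDz'
  refine ⟨C w', ?_, ?_⟩
  · have := hCmem _ w' hw'
    have e : j + 1 + (G \ F).card = i + 1 := by omega
    rwa [e] at this
  · rw [← hCD _ w' hw', hDw']

/-- filtration by patterns -/
theorem Ex_of_pattern {F : Finset ℕ} {P : S.C → Prop} (hP : Inv F P) (hc : Cvx F P)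
    (pt : S.C → S.C) (hF : ∀ X, P X → F ⊆ S.nm (pt X))
    (hsub : ∀ X, P X → S.nm (pt X) ⊆ S.nm X)
    (hrn : ∀ X, P X → ∀ π : Perm ℕ, (∀ a ∈ F, π a = a) → pt (S.rn π X) = S.rn π (pt X))
    (hdl : ∀ X, P X → ∀ a ∈ S.nm X \ F, P (S.dl X a) →
      (a ∉ S.nm (pt X) ∧ pt (S.dl X a) = pt X) ∨
        (S.nm (pt (S.dl X a))).card < (S.nm (pt X)).card) {i : ℕ}
    (hex : ∀ Y j, j + (S.nm Y \ F).card = i → F ⊆ S.nm Y → (∃ X, P X ∧ pt X = Y) →
      Ex (S.nm Y) (fun X => P X ∧ pt X = Y) j) : Ex F P i := by
  classical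
  -- outer claim
  have claim : ∀ M : ℕ, ∀ z ∈ Ch F (fun X => P X ∧ (S.nm (pt X)).card < M) i, D F P z = 0 →
      ∃ w ∈ Ch F P (i + 1), D F P w = z := by
    intro M
    induction M with
    | zero =>
      intro z hz _
      have hz0 : z = 0 := by
        ext q
        by_contra hq
        obtain ⟨X, _, hX, _⟩ := mem_Ch.1 hz q hq
        exact absurd hX.2 (Nat.not_lt_zero _)
      exact ⟨0, Submodule.zero_mem _, by rw [map_zero, hz0]⟩
    | succ M ihM =>
      set RM : S.C → Prop := fun X => P X ∧ (S.nm (pt X)).card = M with hRM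
      have hRMinv : Inv F RM := inv_pt hP pt hrn (p := fun Z => (S.nm Z).card = M) (by
        intro π _ Z hZ
        show (S.nm (S.rn π Z)).card = M
        rw [card_nm_rn]; exact hZ)
      have inner : ∀ n : ℕ, ∀ z ∈ Ch F (fun X => P X ∧ (S.nm (pt X)).card < M + 1) i,
          D F P z = 0 → (pr F RM z).support.card ≤ n → ∃ w ∈ Ch F P (i + 1), D F P w = z := by
        intro n
        induction n with
        | zero =>
          intro z hz hDz hn
          have h0 : pr F RM z = 0 := by
            rw [← Finsupp.support_eq_empty, ← Finset.card_eq_zero]; omega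
          refine ihM z ?_ hDz
          have h1 := sub_pr_mem (R := RM) hz
          rw [h0, sub_zero] at h1
          refine Ch_mono ?_ h1
          rintro X ⟨⟨h2, h3⟩, h4⟩
          refine ⟨h2, ?_⟩
          by_contra hcon
          exact h4 ⟨h2, by omega⟩
        | succ n ihn =>
          intro z hz hDz hn
          by_cases h0 : pr F RM z = 0
          · exact ihn z hz hDz (by rw [h0]; simp)
          obtain ⟨q0, hq0⟩ : ∃ q0, pr F RM z q0 ≠ 0 := by
            by_contra hcon
            push Not at hcon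
            exact h0 (Finsupp.ext hcon)
          have hq0' : pq F RM q0 ∧ z q0 ≠ 0 := by
            rw [pr_apply] at hq0
            by_cases h : pq F RM q0
            · rw [if_pos h] at hq0; exact ⟨h, hq0⟩
            · rw [if_neg h] at hq0; exact absurd rfl hq0
          obtain ⟨X0, hX0, hP0, hm0⟩ := hq0'.1
          set Y := pt X0 with hY
          set R : S.C → Prop := fun X => P X ∧ S.cl F (pt X) = S.cl F Y with hR
          have hRinv : Inv F R := inv_pt hP pt hrn (p := fun Z => S.cl F Z = S.cl F Y) (by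
            intro π hπ Z hZ
            show S.cl F (S.rn π Z) = S.cl F Y
            rw [cl_rn hπ]; exact hZ)
          have hRP : ∀ X, R X → P X := fun X hX => hX.1
          have hRm : ∀ X, R X → (S.nm (pt X)).card = M := fun X hX => by
            rw [card_of_cl hX.2]; exact hm0
          have hexR : Ex F R i := exR hP pt hF hsub hrn hdl hex Y ⟨X0, hP0, rfl⟩
          set zk := pr F R z with hzk
          have hzkmem : zk ∈ Ch F R i := by
            refine Ch_mono ?_ (pr_mem hRinv hz)
            exact fun X hX => hX.2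
          have hzr := sub_pr_mem (R := R) hz
          rw [← hzk] at hzr
          -- differential of the rest
          have hDr : ∀ x ∈ Ch F (fun X => (P X ∧ (S.nm (pt X)).card < M + 1) ∧ ¬ R X) i,
              D F R x = 0 := by
            refine Ch_induction ?_ ?_ ?_
            · simp
            · intro x y hx hy; rw [map_add, hx, hy, add_zero]
            · rintro X n ⟨⟨h1, h2⟩, h3⟩ _
              rw [D_single hRinv]
              have : D0 F R X = 0 := by
                unfold D0
                refine Finset.sum_eq_zero fun a ha => ?_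
                exfalso
                replace ha := mem_filt.1 ha
                have h4 := hRm _ ha.2
                rcases hdl X h1 a ha.1 ha.2.1 with h5 | h5
                · apply h3
                  refine ⟨h1, ?_⟩
                  rw [← h5.2]; exact ha.2.2
                · omega
              rw [this, smul_zero]
          have hDk : D F R zk = 0 := by
            have h1 : D F R z = 0 := by rw [D_sub hRP, hDz, map_zero]
            have h2 := hDr _ hzr
            rw [map_sub, h1, zero_sub, neg_eq_zero] at h2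
            exact h2
          obtain ⟨w1, hw1, hDw1⟩ := hexR zk hzkmem hDk
          have hlow : ∀ x ∈ Ch F R (i + 1), D F P x - D F R x ∈
              Ch F (fun X => P X ∧ (S.nm (pt X)).card < M) i := by
            refine Ch_induction ?_ ?_ ?_
            · rw [map_zero, map_zero, sub_zero]; exact Submodule.zero_mem _
            · intro x y hx hy
              rw [map_add, map_add, add_sub_add_comm]
              exact Submodule.add_mem _ hx hy
            · intro X n hX hd
              rw [D_single hP, D_single hRinv, ← smul_sub]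
              refine Submodule.smul_mem _ _ ?_
              unfold D0
              rw [Finset.sum_filter, Finset.sum_filter, ← Finset.sum_sub_distrib]
              refine Submodule.sum_mem _ fun a ha => ?_
              by_cases hPa : P (S.dl X a)
              · by_cases hRa : R (S.dl X a)
                · rw [if_pos hPa, if_pos hRa, sub_self]; exact Submodule.zero_mem _
                · rw [if_pos hPa, if_neg hRa, sub_zero]
                  have hlt1 : (S.nm (pt (S.dl X a))).card < M := by
                    rcases hdl X hX.1 a ha hPa with h5 | h5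
                    · exfalso
                      apply hRa
                      refine ⟨hPa, ?_⟩
                      rw [h5.2]; exact hX.2
                    · rw [hRm X hX] at h5; exact h5
                  have hdg : deg F (S.dl X a) = i := by
                    have := deg_dl ha
                    omega
                  exact single_mem_Ch (P := fun X => P X ∧ (S.nm (pt X)).card < M)
                    ⟨hPa, hlt1⟩ hdg _
              · rw [if_neg hPa, if_neg (fun h => hPa (hRP _ h)), sub_self]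
                exact Submodule.zero_mem _
          have hw1P : w1 ∈ Ch F P (i + 1) := Ch_mono hRP hw1
          set z1 := z - D F P w1 with hz1
          have hz1e : z1 = (z - zk) - (D F P w1 - D F R w1) := by
            rw [hz1, hDw1]; abel
          have hlt : ∀ X, (P X ∧ (S.nm (pt X)).card < M) →
              (P X ∧ (S.nm (pt X)).card < M + 1) := fun X hX => ⟨hX.1, by omega⟩
          have hz1mem : z1 ∈ Ch F (fun X => P X ∧ (S.nm (pt X)).card < M + 1) i := by
            rw [hz1e]
            refine Submodule.sub_mem _ (Ch_mono (fun X hX => hX.1) hzr) ?_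
            exact Ch_mono hlt (hlow w1 hw1)
          have hDz1 : D F P z1 = 0 := by
            rw [hz1, map_sub, hDz, D_D hP hc hw1P, sub_zero]
          have hprlow : ∀ x ∈ Ch F (fun X => P X ∧ (S.nm (pt X)).card < M) i,
              pr F RM x = 0 := by
            intro x hx
            ext q
            rw [pr_apply]
            split_ifs with h
            · by_contra hq
              obtain ⟨X, h1, h2, _⟩ := mem_Ch.1 hx q hq
              rw [← h1, pq_cl hRMinv] at h
              exact absurd h.2 (by omega)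
            · rfl
          have hprz1 : pr F RM z1 = pr F RM (z - zk) := by
            rw [hz1e, map_sub, hprlow _ (hlow w1 hw1), sub_zero]
          have hcard : (pr F RM z1).support.card < (pr F RM z).support.card := by
            apply Finset.card_lt_card
            rw [Finset.ssubset_iff_of_subset]
            · refine ⟨q0, Finsupp.mem_support_iff.2 hq0, ?_⟩
              rw [Finsupp.mem_support_iff, not_not, hprz1, pr_apply, if_pos hq0'.1,
                Finsupp.sub_apply, hzk, pr_apply, if_pos, sub_self]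
              exact ⟨X0, hX0, hP0, rfl⟩
            · intro q hq
              rw [Finsupp.mem_support_iff] at hq ⊢
              rw [hprz1, pr_apply] at hq
              rw [pr_apply]
              by_cases h : pq F RM q
              · rw [if_pos h] at hq ⊢
                rw [Finsupp.sub_apply, hzk, pr_apply] at hq
                intro hz0
                rw [hz0] at hq
                simp at hq
              · rw [if_neg h] at hq; exact absurd rfl hq
          obtain ⟨w2, hw2, hDw2⟩ := ihn z1 hz1mem hDz1 (by omega)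
          refine ⟨w2 + w1, Submodule.add_mem _ hw2 hw1P, ?_⟩
          rw [map_add, hDw2, hz1]
          abel
      intro z hz hDz
      exact inner _ z hz hDz le_rfl
  intro z hz hDz
  refine claim (i + F.card + 1) z ?_ hDz
  rw [mem_Ch] at hz ⊢
  intro q hq
  obtain ⟨X, h1, h2, h3⟩ := hz q hq
  refine ⟨X, h1, ⟨h2, ?_⟩, h3⟩
  have h4 : (S.nm (pt X)).card ≤ (S.nm X).card := Finset.card_le_card (hsub X h2)
  have h5 : (S.nm X).card ≤ (S.nm X \ F).card + F.card := by
    have := Finset.card_le_card (show S.nm X ⊆ (S.nm X \ F) ∪ F from fun a ha => by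
      by_cases h : a ∈ F
      · exact Finset.mem_union_right _ h
      · exact Finset.mem_union_left _ (Finset.mem_sdiff.2 ⟨ha, h⟩))
    exact this.trans (Finset.card_union_le _ _)
  unfold deg at h3
  omega

end Pool.Agent.TH304.J771
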