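import Pool.Agent.TH981.LO.Bas

set_option autoImplicit false

open Pool.Agent.TH981.LO
open scoped BigOperators symmDiff MeasureTheory FinsetFamily

namespace Pool.Agent.TH304.J448

variable {V E : Type} [DecidableEq V] [DecidableEq E] (G : MG V E)

open Classical in
/-- number of even subconfigurations -/
noncomputable def cyc (ω : Finset E) : ℕ := (ω.powerset.filter (fun η => G.bd η = 0)).card

theorem bw_eq (w : E → ℝ) {F ω : Finset E} (h : ω ⊆ F) :
    bw w F ω = ∏ e ∈ F, (if e ∈ ω then w e else 1 - w e) := by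
  unfold bw
  rw [← Finset.prod_sdiff h, mul_comm]
  congr 1
  · refine Finset.prod_congr rfl fun e he => ?_
    rw [if_neg (Finset.mem_sdiff.1 he).2]
  · refine Finset.prod_congr rfl fun e he => ?_
    rw [if_pos he]

theorem bw_lattice (w w' : E → ℝ) {F s t : Finset E} (hs : s ⊆ F) (ht : t ⊆ F)
    (h0 : ∀ e ∈ F, 0 ≤ w e) (h1 : ∀ e ∈ F, w e ≤ w' e) (h2 : ∀ e ∈ F, w' e ≤ 1) :
    bw w F s * bw w' F t ≤ bw w F (s ∩ t) * bw w' F (s ∪ t) := by
  rw [bw_eq w hs, bw_eq w' ht, bw_eq w (Finset.inter_subset_left.trans hs),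
    bw_eq w' (Finset.union_subset hs ht), ← Finset.prod_mul_distrib, ← Finset.prod_mul_distrib]
  refine Finset.prod_le_prod (fun e he => ?_) fun e he => ?_
  · have a0 := h0 e he
    have a1 := h1 e he
    have a2 := h2 e he
    refine mul_nonneg ?_ ?_ <;> split_ifs <;> linarith
  · have a0 := h0 e he
    have a1 := h1 e he
    have a2 := h2 e he
    by_cases hse : e ∈ s <;> by_cases hte : e ∈ t <;> simp [hse, hte]
    nlinarith

theorem bd_symm (η ξ : Finset E) (h : G.bd η = 0) (h' : G.bd ξ = 0) : G.bd (η ∆ ξ) = 0 := by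
  rw [MG.bd_symmDiff, h, h', add_zero]

theorem cyc_lattice (s t : Finset E) :
    cyc G s * cyc G t ≤ cyc G (s ∩ t) * cyc G (s ∪ t) := by
  classical
  unfold cyc
  rw [← Finset.card_product, ← Finset.card_product]
  -- reference elements
  have hex : ∀ u : Finset E, ∃ r : Finset E, (∃ e1 e2 : Finset E, e1 ⊆ s ∧ e2 ⊆ t ∧ G.bd e1 = 0 ∧
      G.bd e2 = 0 ∧ e1 ∆ e2 = u) → (r ⊆ s ∧ G.bd r = 0 ∧ r ∆ u ⊆ t) := by
    intro u
    by_cases h : ∃ e1 e2 : Finset E, e1 ⊆ s ∧ e2 ⊆ t ∧ G.bd e1 = 0 ∧ G.bd e2 = 0 ∧ e1 ∆ e2 = u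
    · obtain ⟨e1, e2, h1, h2, h3, h4, h5⟩ := h
      refine ⟨e1, fun _ => ⟨h1, h3, ?_⟩⟩
      rw [← h5, symmDiff_symmDiff_cancel_left]
      exact h2
    · exact ⟨∅, fun h' => absurd h' h⟩
  choose r hr using hex
  refine Finset.card_le_card_of_injOn (fun p => (p.1 ∆ r (p.1 ∆ p.2), p.1 ∆ p.2)) ?_ ?_
  · rintro ⟨e1, e2⟩ hp
    rw [Finset.mem_coe, Finset.mem_product, Finset.mem_filter, Finset.mem_filter, Finset.mem_powerset,
      Finset.mem_powerset] at hp
    obtain ⟨⟨h1, h3⟩, h2, h4⟩ := hp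
    obtain ⟨g1, g2, g3⟩ := hr (e1 ∆ e2) ⟨e1, e2, h1, h2, h3, h4, rfl⟩
    rw [Finset.mem_coe, Finset.mem_product, Finset.mem_filter, Finset.mem_filter, Finset.mem_powerset,
      Finset.mem_powerset]
    simp only at h1 h2 h3 h4 ⊢
    refine ⟨⟨?_, bd_symm G _ _ h3 g2⟩, ?_, bd_symm G _ _ h3 h4⟩
    · -- in the intersection
      have hA : e1 ∆ r (e1 ∆ e2) ⊆ s := by
        intro e he
        rw [Finset.mem_symmDiff] at he
        rcases he with he | he
        · exact h1 he.1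
        · exact g1 he.1
      have hB : e1 ∆ r (e1 ∆ e2) ⊆ t := by
        have : e1 ∆ r (e1 ∆ e2) = e2 ∆ (r (e1 ∆ e2) ∆ (e1 ∆ e2)) := by
          rw [symmDiff_comm (r (e1 ∆ e2)) (e1 ∆ e2), ← symmDiff_assoc, ← symmDiff_assoc,
            symmDiff_comm e2 e1, symmDiff_assoc e1 e2 e2, symmDiff_self, symmDiff_bot]
        rw [this]
        intro e he
        rw [Finset.mem_symmDiff] at he
        rcases he with he | he
        · exact h2 he.1
        · exact g3 he.1
      exact Finset.subset_inter hA hB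
    · intro e he
      rw [Finset.mem_symmDiff] at he
      rw [Finset.mem_union]
      rcases he with he | he
      · exact Or.inl (h1 he.1)
      · exact Or.inr (h2 he.1)
  · rintro ⟨e1, e2⟩ _ ⟨e1', e2'⟩ _ heq
    simp only [Prod.mk.injEq] at heq
    obtain ⟨ha, hb⟩ := heq
    rw [hb] at ha
    have h1 : e1 = e1' := symmDiff_left_injective _ ha
    subst h1
    have h2 : e2 = e2' := symmDiff_right_injective _ hb
    rw [h2]

/-- weight of a configuration -/
noncomputable def m (w : E → ℝ) (F ω : Finset E) : ℝ :=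
  if ω ⊆ F then bw w F ω * (cyc G ω : ℝ) else 0

theorem bwnn {w : E → ℝ} {F ω : Finset E} (hω : ω ⊆ F) (hw0 : ∀ e ∈ F, 0 ≤ w e)
    (hw1 : ∀ e ∈ F, w e ≤ 1) : 0 ≤ bw w F ω := by
  unfold bw
  refine mul_nonneg (Finset.prod_nonneg fun e he => hw0 e (hω he))
    (Finset.prod_nonneg fun e he => ?_)
  have := hw1 e (Finset.mem_sdiff.1 he).1
  linarith

theorem m_nonneg {w : E → ℝ} {F : Finset E} (hw0 : ∀ e ∈ F, 0 ≤ w e)
    (hw1 : ∀ e ∈ F, w e ≤ 1) : (0 : Finset E → ℝ) ≤ m G w F := by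
  intro ω
  show (0 : ℝ) ≤ m G w F ω
  unfold m
  split_ifs with h
  · exact mul_nonneg (bwnn h hw0 hw1) (Nat.cast_nonneg _)
  · exact le_rfl

open Classical in
theorem PS_eq (w : E → ℝ) (F : Finset E) (P : Finset E → Prop) :
    G.PS w F 0 (fun ω _ => if P ω then 1 else 0) = ∑ ω ∈ F.powerset.filter P, m G w F ω := by
  unfold MG.PS
  rw [Finset.sum_filter]
  refine Finset.sum_congr rfl fun ω hω => ?_
  rw [Finset.mem_powerset] at hω
  unfold m cyc
  rw [if_pos hω]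
  by_cases h : P ω
  · simp only [if_pos h]
    simp
  · simp only [if_neg h]
    simp

theorem four {w w' : E → ℝ} {F : Finset E} (h0 : ∀ e ∈ F, 0 ≤ w e) (h1 : ∀ e ∈ F, w e ≤ w' e)
    (h2 : ∀ e ∈ F, w' e ≤ 1) (A B C D : Finset (Finset E)) (hA : A ⊆ F.powerset)
    (hB : B ⊆ F.powerset) (hC : A ⊼ B ⊆ C) (hD : A ⊻ B ⊆ D) :
    (∑ s ∈ A, m G w F s) * ∑ s ∈ B, m G w' F s ≤
      (∑ s ∈ C, m G w F s) * ∑ s ∈ D, m G w' F s := by
  have hw1 : ∀ e ∈ F, w e ≤ 1 := fun e he => (h1 e he).trans (h2 e he)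
  have hw0' : ∀ e ∈ F, 0 ≤ w' e := fun e he => (h0 e he).trans (h1 e he)
  have n1 := m_nonneg G h0 hw1
  have n2 := m_nonneg G hw0' h2
  have key := Finset.four_functions_theorem F n1 n2 n1 n2 (fun s hs t ht => by
    have e1 : m G w F s = bw w F s * (cyc G s : ℝ) := if_pos hs
    have e2 : m G w' F t = bw w' F t * (cyc G t : ℝ) := if_pos ht
    have e3 : m G w F (s ∩ t) = bw w F (s ∩ t) * (cyc G (s ∩ t) : ℝ) :=
      if_pos (Finset.inter_subset_left.trans hs)
    have e4 : m G w' F (s ∪ t) = bw w' F (s ∪ t) * (cyc G (s ∪ t) : ℝ) :=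
      if_pos (Finset.union_subset hs ht)
    rw [e1, e2, e3, e4]
    have hb := bw_lattice w w' hs ht h0 h1 h2
    have hc : (cyc G s : ℝ) * (cyc G t : ℝ) ≤ (cyc G (s ∩ t) : ℝ) * (cyc G (s ∪ t) : ℝ) := by
      exact_mod_cast cyc_lattice G s t
    calc bw w F s * (cyc G s : ℝ) * (bw w' F t * (cyc G t : ℝ))
        = (bw w F s * bw w' F t) * ((cyc G s : ℝ) * (cyc G t : ℝ)) := by ring
      _ ≤ (bw w F (s ∩ t) * bw w' F (s ∪ t)) * ((cyc G (s ∩ t) : ℝ) * (cyc G (s ∪ t) : ℝ)) := by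
          refine mul_le_mul hb hc (by positivity) ?_
          exact mul_nonneg (bwnn (Finset.inter_subset_left.trans hs) h0 hw1)
            (bwnn (Finset.union_subset hs ht) hw0' h2)
      _ = _ := by ring) hA hB
  refine key.trans ?_
  refine mul_le_mul (Finset.sum_le_sum_of_subset_of_nonneg hC fun x _ _ => n1 x)
    (Finset.sum_le_sum_of_subset_of_nonneg hD fun x _ _ => n2 x)
    (Finset.sum_nonneg fun x _ => n2 x) (Finset.sum_nonneg fun x _ => n1 x)

theorem infs_sub {F : Finset E} {A B : Finset (Finset E)} (hA : A ⊆ F.powerset) :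
    A ⊼ B ⊆ F.powerset := by
  intro x hx
  rw [Finset.mem_infs] at hx
  obtain ⟨a, ha, b, hb, rfl⟩ := hx
  rw [Finset.mem_powerset]
  exact Finset.inter_subset_left.trans (Finset.mem_powerset.1 (hA ha))

theorem Z_eq (w : E → ℝ) (F : Finset E) : G.Z w F 0 = ∑ ω ∈ F.powerset, m G w F ω := by
  classical
  have h1 : G.Z w F 0 = G.PS w F 0 (fun _ _ => 1) := (MG.PS_eta G w F 0 fun _ => 1).symm
  have h2 := PS_eq G w F (fun _ => True)
  simp only [if_true, Finset.filter_true] at h2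
  rw [h1]
  exact h2

theorem holley : S_HOLLEY := by
  classical
  intro V E _ _ G w w' F P h0 h1 h2 hP
  have hw1 : ∀ e ∈ F, w e ≤ 1 := fun e he => (h1 e he).trans (h2 e he)
  have hw0' : ∀ e ∈ F, 0 ≤ w' e := fun e he => (h0 e he).trans (h1 e he)
  unfold MG.fkp
  have hz : 0 < G.Z w F 0 := lt_of_lt_of_le one_pos (MG.one_le_Z_zero G h0)
  have hz' : 0 < G.Z w' F 0 := lt_of_lt_of_le one_pos (MG.one_le_Z_zero G hw0')
  rw [div_le_div_iff₀ hz hz', PS_eq, PS_eq, Z_eq, Z_eq]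
  have := four G h0 h1 h2 (F.powerset.filter P) F.powerset F.powerset (F.powerset.filter P)
    (Finset.filter_subset _ _) le_rfl (infs_sub (Finset.filter_subset _ _)) (by
      intro x hx
      rw [Finset.mem_sups] at hx
      obtain ⟨a, ha, b, hb, rfl⟩ := hx
      rw [Finset.mem_filter, Finset.mem_powerset] at ha ⊢
      rw [Finset.mem_powerset] at hb
      exact ⟨Finset.union_subset ha.1 hb, hP a _ Finset.subset_union_left
        (Finset.union_subset ha.1 hb) ha.2⟩)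
  rw [mul_comm (∑ ω ∈ F.powerset with P ω, m G w' F ω)]
  exact this

theorem fkg_aux {w : E → ℝ} {F : Finset E} (P Q R : Finset E → Prop) (h0 : ∀ e ∈ F, 0 ≤ w e)
    (h1 : ∀ e ∈ F, w e ≤ 1) (hP : Incr F P) (hQ : Incr F Q) (hR : ∀ ω, P ω → Q ω → R ω) :
    G.fkp w F P * G.fkp w F Q ≤ G.fkp w F R := by
  classical
  unfold MG.fkp
  have hz : 0 < G.Z w F 0 := lt_of_lt_of_le one_pos (MG.one_le_Z_zero G h0)
  have := four G h0 (fun e _ => le_rfl) h1 (F.powerset.filter P) (F.powerset.filter Q) F.powerset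
    (F.powerset.filter R)
    (Finset.filter_subset _ _) (Finset.filter_subset _ _) (infs_sub (Finset.filter_subset _ _)) (by
      intro x hx
      rw [Finset.mem_sups] at hx
      obtain ⟨a, ha, b, hb, rfl⟩ := hx
      rw [Finset.mem_filter, Finset.mem_powerset] at ha hb ⊢
      have hs := Finset.union_subset ha.1 hb.1
      exact ⟨hs, hR _ (hP a _ Finset.subset_union_left hs ha.2)
        (hQ b _ Finset.subset_union_right hs hb.2)⟩)
  rw [← Z_eq, ← PS_eq, ← PS_eq, ← PS_eq] at this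
  rw [div_mul_div_comm, div_le_div_iff₀ (mul_pos hz hz) hz]
  nlinarith [this, hz]

theorem fkg : S_FKG := by
  intro V E _ _ G w F P Q h0 h1 hP hQ
  exact fkg_aux G P Q _ h0 h1 hP hQ fun ω h h' => ⟨h, h'⟩

end Pool.Agent.TH304.J448
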