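import Pool.Agent.TH981.LO.Bas

set_option autoImplicit false

open Pool.Agent.TH981.LO
open scoped BigOperators symmDiff

namespace Pool.Agent.TH304.J474

variable {d : ℕ}

theorem nm_shift_le (v : Vt d) (i : Fin d) : nm (v + ev i) ≤ nm v + 1 := by
  have h1 := nm_add_le v (ev i)
  rw [nm_ev] at h1
  exact h1

theorem nm_shift_ge (v : Vt d) (i : Fin d) : nm v ≤ nm (v + ev i) + 1 := by
  have h1 := nm_sub_le (v + ev i) (ev i)
  rw [nm_ev, add_sub_cancel_right] at h1
  exact h1

theorem mem_conE {i : Fin d} {A : Finset (Vt d)} {e : Ed d} :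
    e ∈ conE i A ↔ e.2 = i ∧ e.1 ∈ A := by
  unfold conE
  rw [Finset.mem_image]
  constructor
  · rintro ⟨a, ha, rfl⟩
    exact ⟨rfl, ha⟩
  · rintro ⟨h1, h2⟩
    exact ⟨e.1, h2, by rw [← h1]⟩

theorem mem_spF {s : ℕ} {κ : Finset (Vt d)} {v : Vt d} : v ∈ spF s κ ↔ v ∈ κ ∧ nm v = s := by
  rw [spF, Finset.mem_filter]

theorem mem_srgO {s : ℕ} {i : Fin d} {κ : Finset (Vt d)} {ω : Finset (Ed d)} {e : Ed d} :
    e ∈ srgO s i κ ω ↔ (e ∈ ω ∧ e ∉ EB d s) ∨
      ((e.1 - ev i, e.2) ∈ ω ∧ (e.1 - ev i, e.2) ∈ EB d s) ∨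
      (e.2 = i ∧ e.1 ∈ κ ∧ nm e.1 = s) := by
  rw [srgO, Finset.mem_union, Finset.mem_union, Finset.mem_sdiff, mem_shF, Finset.mem_inter,
    mem_conE, mem_spF]
  tauto

/-- shift map on vertices -/
def fs (s : ℕ) (i : Fin d) (v : Vt d) : Vt d := if nm v ≤ s then v + ev i else v

theorem fs_le {s : ℕ} {i : Fin d} {v : Vt d} (h : nm v ≤ s) : fs s i v = v + ev i := if_pos h

theorem fs_gt {s : ℕ} {i : Fin d} {v : Vt d} (h : s < nm v) : fs s i v = v :=
  if_neg (not_le.2 h)

theorem mem_srgK {s : ℕ} {i : Fin d} {κ : Finset (Vt d)} {v : Vt d} :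
    v ∈ srgK s i κ ↔ (∃ u ∈ κ, fs s i u = v) ∨ (v ∈ κ ∧ nm v = s) := by
  unfold srgK fs
  rw [Finset.mem_union, Finset.mem_image, mem_spF]

theorem con_s {ω : Finset (Ed d)} {U : Finset (Vt d)} (h : (lat d).con ω U) {e : Ed d}
    (he : e ∈ ω) : e.1 ∈ (lat d).clF ω U := h e he

theorem con_t {ω : Finset (Ed d)} {U : Finset (Vt d)} (h : (lat d).con ω U) {e : Ed d}
    (he : e ∈ ω) : e.1 + ev e.2 ∈ (lat d).clF ω U :=
  ((lat d).s_mem_clF_iff he).1 (h e he)

theorem sub_D {s : ℕ} {i : Fin d} {D ω : Finset (Ed d)} {κ : Finset (Vt d)}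
    (hD : EB d (s + 1) ⊆ D) (hω : ω ⊆ D) : srgO s i κ ω ⊆ D := by
  intro e he
  rw [mem_srgO] at he
  rcases he with h | h | h
  · exact hω h.1
  · apply hD
    have h2 := h.2
    rw [mem_EB] at h2 ⊢
    simp only at h2
    have h3 := nm_shift_le (e.1 - ev i) i
    have h4 := nm_shift_le (e.1 - ev i + ev e.2) i
    have e1 : e.1 - ev i + ev i = e.1 := sub_add_cancel _ _
    have e2 : e.1 - ev i + ev e.2 + ev i = e.1 + ev e.2 := by abel
    rw [e1] at h3
    rw [e2] at h4
    omega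
  · apply hD
    rw [mem_EB]
    have h3 := nm_shift_le e.1 e.2
    omega

/-- both endpoints of every edge of the new configuration are in the new cluster -/
theorem ends {s : ℕ} {i : Fin d} {ω : Finset (Ed d)} {U : Finset (Vt d)}
    (hc : (lat d).con ω U) {e : Ed d} (he : e ∈ srgO s i ((lat d).clF ω U) ω) :
    e.1 ∈ srgK s i ((lat d).clF ω U) ∧ e.1 + ev e.2 ∈ srgK s i ((lat d).clF ω U) := by
  rw [mem_srgO] at he
  rcases he with h | h | h
  · have h1 := con_s hc h.1
    have h2 := con_t hc h.1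
    have h3 := h.2
    rw [mem_EB] at h3
    have h4 := nm_shift_le e.1 e.2
    have h5 := nm_shift_ge e.1 e.2
    constructor
    · rw [mem_srgK]
      by_cases h6 : s < nm e.1
      · exact Or.inl ⟨e.1, h1, fs_gt h6⟩
      · right
        refine ⟨h1, ?_⟩
        omega
    · rw [mem_srgK]
      by_cases h6 : s < nm (e.1 + ev e.2)
      · exact Or.inl ⟨e.1 + ev e.2, h2, fs_gt h6⟩
      · right
        refine ⟨h2, ?_⟩
        omega
  · have h1 := con_s hc h.1
    have h2 := con_t hc h.1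
    have h3 := h.2
    rw [mem_EB] at h3
    simp only at h1 h2 h3
    constructor
    · rw [mem_srgK]
      left
      refine ⟨_, h1, ?_⟩
      rw [fs_le h3.1]
      abel
    · rw [mem_srgK]
      left
      refine ⟨_, h2, ?_⟩
      rw [fs_le h3.2]
      abel
  · obtain ⟨h1, h2, h3⟩ := h
    constructor
    · rw [mem_srgK]
      exact Or.inr ⟨h2, h3⟩
    · rw [mem_srgK]
      left
      refine ⟨e.1, h2, ?_⟩
      rw [fs_le h3.le, h1]

theorem Cn_edge {ω : Finset (Ed d)} {e : Ed d} (he : e ∈ ω) : (lat d).Cn ω e.1 (e.1 + ev e.2) :=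
  (lat d).Cn_edge_338 he

/-- a vertex on the sphere is joined to its shift -/
theorem Cn_up {s : ℕ} {i : Fin d} {ω : Finset (Ed d)} {κ : Finset (Vt d)} {v : Vt d}
    (hv : v ∈ κ) (h : nm v = s) : (lat d).Cn (srgO s i κ ω) v (v + ev i) := by
  have h1 : ((v, i) : Ed d) ∈ srgO s i κ ω := mem_srgO.2 (Or.inr (Or.inr ⟨rfl, hv, h⟩))
  exact Cn_edge h1

theorem Cn_fs {s : ℕ} {i : Fin d} {ω : Finset (Ed d)} {κ : Finset (Vt d)} {v : Vt d}
    (hv : v ∈ κ) (h : s ≤ nm v) : (lat d).Cn (srgO s i κ ω) v (fs s i v) := by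
  rcases Nat.lt_or_ge s (nm v) with h1 | h1
  · rw [fs_gt h1]
    exact Relation.ReflTransGen.refl
  · rw [fs_le h1]
    exact Cn_up hv (le_antisymm h1 h)

theorem Cn_step {s : ℕ} {i : Fin d} {ω : Finset (Ed d)} {U : Finset (Vt d)}
    (hc : (lat d).con ω U) {e : Ed d} (he : e ∈ ω) :
    (lat d).Cn (srgO s i ((lat d).clF ω U) ω) (fs s i e.1) (fs s i (e.1 + ev e.2)) := by
  by_cases hE : e ∈ EB d s
  · have h3 := hE
    rw [mem_EB] at h3
    rw [fs_le h3.1, fs_le h3.2]
    have h1 : ((e.1 + ev i, e.2) : Ed d) ∈ srgO s i ((lat d).clF ω U) ω := by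
      rw [mem_srgO]
      right; left
      simp only [add_sub_cancel_right]
      exact ⟨he, hE⟩
    have h2 := Cn_edge h1
    simp only at h2
    have e2 : e.1 + ev i + ev e.2 = e.1 + ev e.2 + ev i := by abel
    rw [e2] at h2
    exact h2
  · have h1 : e ∈ srgO s i ((lat d).clF ω U) ω := mem_srgO.2 (Or.inl ⟨he, hE⟩)
    have h3 := hE
    rw [mem_EB] at h3
    have h4 := nm_shift_le e.1 e.2
    have h5 := nm_shift_ge e.1 e.2
    have h6 := Cn_fs (s := s) (i := i) (ω := ω) (con_s hc he) (by omega)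
    have h7 := Cn_fs (s := s) (i := i) (ω := ω) (con_t hc he) (by omega)
    exact (lat d).Cn_trans ((lat d).Cn_symm h6) ((lat d).Cn_trans (Cn_edge h1) h7)

theorem sg1 (d : ℕ) : S_SG1 d := by
  intro s i D ω U hs hD hω hc hU
  have hUK : U ⊆ srgK s i ((lat d).clF ω U) := by
    intro u hu
    rw [mem_srgK]
    left
    refine ⟨u, (lat d).subset_clF ω U hu, fs_gt ?_⟩
    have := hU u hu
    omega
  have h1 : (lat d).clF (srgO s i ((lat d).clF ω U) ω) U ⊆ srgK s i ((lat d).clF ω U) := by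
    refine (lat d).clF_subset_of_closed hUK fun e he => ?_
    have h2 := ends hc he
    exact ⟨fun _ => h2.2, fun _ => h2.1⟩
  have h2 : ∀ v ∈ (lat d).clF ω U, ∃ u ∈ U,
      (lat d).Cn (srgO s i ((lat d).clF ω U) ω) u (fs s i v) := by
    intro v hv
    obtain ⟨u, hu, hc1⟩ := (lat d).mem_clF.1 hv
    refine ⟨u, hu, ?_⟩
    clear hv
    unfold MG.Cn at hc1
    induction hc1 with
    | refl =>
      rw [fs_gt]
      · exact Relation.ReflTransGen.refl
      · have := hU u hu
        omega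
    | tail _ h3 ih =>
      obtain ⟨e, he, h4⟩ := h3
      refine (lat d).Cn_trans ih ?_
      have h5 := Cn_step (s := s) (i := i) hc he
      rcases h4 with ⟨h6, h7⟩ | ⟨h6, h7⟩
      · rw [lat_s] at h6
        rw [lat_t] at h7
        rw [← h6, ← h7]
        exact h5
      · rw [lat_s] at h6
        rw [lat_t] at h7
        rw [← h6, ← h7]
        exact (lat d).Cn_symm h5
  have h3 : srgK s i ((lat d).clF ω U) ⊆ (lat d).clF (srgO s i ((lat d).clF ω U) ω) U := by
    intro v hv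
    rw [mem_srgK] at hv
    rcases hv with ⟨u, hu, rfl⟩ | ⟨hv, hs'⟩
    · obtain ⟨u0, hu0, h4⟩ := h2 u hu
      exact (lat d).mem_clF.2 ⟨u0, hu0, h4⟩
    · obtain ⟨u0, hu0, h4⟩ := h2 v hv
      refine (lat d).mem_clF.2 ⟨u0, hu0, (lat d).Cn_trans h4 ?_⟩
      exact (lat d).Cn_symm (Cn_fs hv hs'.ge)
  have h4 := Finset.Subset.antisymm h1 h3
  refine ⟨sub_D hD hω, ?_, h4⟩
  intro e he
  rw [h4]
  exact (ends hc he).1

theorem bd_conE (i : Fin d) (A : Finset (Vt d)) (v : Vt d) :
    (lat d).bd (conE i A) v = (if v ∈ A then 1 else 0) + (if v - ev i ∈ A then 1 else 0) := by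
  have h1 : conE i A = A.map ⟨fun a => ((a, i) : Ed d), fun a b h => by simpa using h⟩ := by
    ext e
    rw [mem_conE, Finset.mem_map]
    constructor
    · rintro ⟨h1, h2⟩
      exact ⟨e.1, h2, by rw [← h1]; rfl⟩
    · rintro ⟨a, ha, rfl⟩
      exact ⟨rfl, ha⟩
  rw [MG.bd, h1, Finset.sum_map, Finset.sum_apply]
  have h2 : ∀ a ∈ A, (lat d).inc ((⟨fun a => ((a, i) : Ed d), fun a b h => by simpa using h⟩ :
      Vt d ↪ Ed d) a) v = (if v = a then 1 else 0) + (if v - ev i = a then 1 else 0) := by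
    intro a _
    show two ((lat d).s (a, i)) ((lat d).t (a, i)) v = _
    rw [lat_s, lat_t, two, Pi.add_apply, Pi.single_apply, Pi.single_apply]
    simp only
    congr 1
    simp only [sub_eq_iff_eq_add]
  rw [Finset.sum_congr rfl h2, Finset.sum_add_distrib, Finset.sum_ite_eq, Finset.sum_ite_eq]

theorem sg2 (d : ℕ) : S_SG2 d := by
  intro s i ω η U hs hc hU hη hbd
  have hz : ∀ z : ZMod 2, z ≠ 0 → z = 1 := by decide
  constructor
  · intro e he
    unfold srgH at he
    rw [Finset.mem_symmDiff, Finset.mem_symmDiff] at he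
    have h1 : e ∈ η \ EB d s → e ∈ srgO s i ((lat d).clF ω U) ω := by
      intro h
      rw [Finset.mem_sdiff] at h
      exact mem_srgO.2 (Or.inl ⟨hη h.1, h.2⟩)
    have h2 : e ∈ shF (ev i) (η ∩ EB d s) → e ∈ srgO s i ((lat d).clF ω U) ω := by
      intro h
      rw [mem_shF, Finset.mem_inter] at h
      exact mem_srgO.2 (Or.inr (Or.inl ⟨hη h.1, h.2⟩))
    have h3 : e ∈ conE i ((spF s ((lat d).clF ω U)).filter
        (fun a => (lat d).bd (η ∩ EB d s) a ≠ 0)) → e ∈ srgO s i ((lat d).clF ω U) ω := by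
      intro h
      rw [mem_conE, Finset.mem_filter, mem_spF] at h
      exact mem_srgO.2 (Or.inr (Or.inr ⟨h.1, h.2.1.1, h.2.1.2⟩))
    rcases he with ⟨he | he, _⟩ | ⟨he, _⟩
    · exact h1 he.1
    · exact h2 he.1
    · exact h3 he
  · set β := (lat d).bd (η ∩ EB d s) with hβ
    have hdec : ∀ v, (lat d).bd η v = (lat d).bd (η \ EB d s) v + β v := by
      intro v
      have : η = (η \ EB d s) ∪ (η ∩ EB d s) := (Finset.sdiff_union_inter _ _).symm
      rw [hβ]
      conv_lhs => rw [this]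
      rw [(lat d).bd_union (Finset.disjoint_sdiff_inter _ _), Pi.add_apply]
    have hsup : ∀ v, β v ≠ 0 → v ∈ (lat d).clF ω U ∧ nm v = s := by
      intro v hv
      have h1 : ∃ e ∈ η ∩ EB d s, (lat d).s e = v ∨ (lat d).t e = v := by
        by_contra hcon
        push Not at hcon
        exact hv ((lat d).bd_eq_zero_of_not_touch hcon)
      obtain ⟨e, he, h2⟩ := h1
      rw [Finset.mem_inter] at he
      have h3 := he.2
      rw [mem_EB] at h3
      have hvκ : v ∈ (lat d).clF ω U := by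
        rcases h2 with h2 | h2
        · rw [← h2]; exact con_s hc (hη he.1)
        · rw [← h2]; exact con_t hc (hη he.1)
      have hle : nm v ≤ s := by
        rcases h2 with h2 | h2
        · rw [← h2]; exact h3.1
        · rw [← h2]; exact h3.2
      refine ⟨hvκ, ?_⟩
      by_contra hne
      have hlt : nm v < s := lt_of_le_of_ne hle hne
      have h4 : (lat d).bd (η \ EB d s) v = 0 := by
        refine (lat d).bd_eq_zero_of_not_touch fun e' he' => ?_
        rw [Finset.mem_sdiff, mem_EB] at he'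
        have h5 := nm_shift_le e'.1 e'.2
        have h6 := nm_shift_ge e'.1 e'.2
        refine ⟨fun h7 => he'.2 ?_, fun h7 => he'.2 ?_⟩
        · rw [lat_s] at h7
          rw [← h7] at hlt
          omega
        · rw [lat_t] at h7
          rw [← h7] at hlt
          omega
      have h5 : (lat d).bd η v = 0 := by
        rw [hbd]
        unfold ind
        rw [if_neg]
        intro h6
        have := hU v h6
        omega
      rw [hdec v, h4, zero_add] at h5
      exact hv h5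
    have hmem : ∀ v, (v ∈ (spF s ((lat d).clF ω U)).filter (fun a => β a ≠ 0)) ↔ β v ≠ 0 := by
      intro v
      rw [Finset.mem_filter, mem_spF]
      exact ⟨fun h => h.2, fun h => ⟨hsup v h, h⟩⟩
    have hind : ∀ v, (if v ∈ (spF s ((lat d).clF ω U)).filter (fun a => β a ≠ 0) then (1 : ZMod 2)
        else 0) = β v := by
      intro v
      by_cases h : β v = 0
      · rw [if_neg (fun h2 => (hmem v).1 h2 h), h]
      · rw [if_pos ((hmem v).2 h), hz _ h]
    funext v
    rw [← hbd]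
    unfold srgH
    rw [(lat d).bd_symmDiff, (lat d).bd_symmDiff, Pi.add_apply, Pi.add_apply, bd_shF, bd_conE,
      ← hβ, hind, hind, hdec v]
    have h2 : β (v - ev i) + β (v - ev i) = 0 := CharTwo.add_self_eq_zero _
    calc (lat d).bd (η \ EB d s) v + β (v - ev i) + (β v + β (v - ev i))
        = (lat d).bd (η \ EB d s) v + β v + (β (v - ev i) + β (v - ev i)) := by ring
      _ = _ := by rw [h2, add_zero]

end Pool.Agent.TH304.J474
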