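import Pool.Agent.TH304.J498

set_option autoImplicit false

open Pool.Agent.TH981.LO
open scoped BigOperators symmDiff MeasureTheory ENNReal Topology BoundedContinuousFunction
open MeasureTheory Filter

namespace Pool.Agent.TH304.J491

open Pool.Agent.TH304.J498

variable {d : ℕ}

theorem cont_ell (x : ℝ) (S : Finset (Ed d)) (VG : Finset (Vt d)) (ξ : Finset (Ed d)) :
    Continuous (fun η : Om d => ell x S VG (outPar S η) ξ) := by
  refine continuous_of_local (TE VG) _ fun η η' h => ?_
  have : ∀ v ∈ VG, outPar S η v = outPar S η' v := by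
    intro v hv
    unfold outPar
    congr 2
    refine Finset.filter_congr fun e he => ?_
    have : e ∈ TE VG := by
      rw [mem_TE] at he ⊢
      simp only [Finset.mem_singleton] at he
      rcases he with h1 | h1
      · left; rw [h1]; exact hv
      · right; rw [h1]; exact hv
    rw [h e this]
  have h2 : ∀ ξ', loopW x VG (outPar S η) ξ' = loopW x VG (outPar S η') ξ' := by
    intro ξ'
    unfold loopW
    have : (∀ v ∈ VG, (lat d).bd ξ' v = outPar S η v) ↔
        (∀ v ∈ VG, (lat d).bd ξ' v = outPar S η' v) := by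
      constructor
      · intro h3 v hv
        rw [← this v hv]; exact h3 v hv
      · intro h3 v hv
        rw [this v hv]; exact h3 v hv
    by_cases h3 : (∀ v ∈ VG, (lat d).bd ξ' v = outPar S η v)
    · rw [if_pos h3, if_pos (this.1 h3)]
    · rw [if_neg h3, if_neg (fun h4 => h3 (this.2 h4))]
  unfold ell
  simp only [h2]

theorem ell_nonneg (x : ℝ) (hx0 : 0 < x) (S : Finset (Ed d)) (VG : Finset (Vt d))
    (b : Vt d → ZMod 2) (ξ : Finset (Ed d)) : 0 ≤ ell x S VG b ξ := by
  unfold ell
  have : ∀ ξ', 0 ≤ loopW x VG b ξ' := by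
    intro ξ'
    unfold loopW
    split_ifs
    · positivity
    · exact le_rfl
  exact div_nonneg (this ξ) (Finset.sum_nonneg fun ξ' _ => this ξ')

theorem outPar_inner (R : ℕ) (η : Om d) (v : Vt d) (hv : nm v < R) : outPar (EB d R) η v = 0 := by
  unfold outPar
  rw [Finset.filter_eq_empty_iff.2]
  · simp
  · intro e he h
    apply h.1
    rw [mem_TE] at he
    simp only [Finset.mem_singleton] at he
    rw [mem_EB]
    have h1 := nm_ev (d := d) e.2
    rcases he with he | he
    · have h2 := nm_add_le e.1 (ev e.2)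
      rw [he] at h2 ⊢
      constructor <;> omega
    · have h2 := nm_sub_le (e.1 + ev e.2) (ev e.2)
      rw [add_sub_cancel_right] at h2
      rw [he] at h2 ⊢
      constructor <;> omega

/-- the source set -/
noncomputable def US (R : ℕ) (η : Om d) : Finset (Vt d) :=
  (box d R).filter (fun v => outPar (EB d R) η v ≠ 0)

theorem US_sphere (R : ℕ) (η : Om d) : ∀ u ∈ US R η, nm u = R := by
  intro u hu
  rw [US, Finset.mem_filter, mem_box] at hu
  by_contra h
  exact hu.2 (outPar_inner R η u (lt_of_le_of_ne hu.1 h))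

open Classical in
theorem loopW_eq (x : ℝ) (R : ℕ) (η : Om d) (ξ : Finset (Ed d)) (hξ : ξ ⊆ EB d R) :
    loopW x (box d R) (outPar (EB d R) η) ξ =
      if (lat d).bd ξ = ind (US R η) then x ^ ξ.card else 0 := by
  have hout : ∀ v, v ∉ box d R → (lat d).bd ξ v = 0 := by
    intro v hv
    refine MG.bd_eq_zero_of_not_touch _ fun e he => ⟨?_, ?_⟩
    · rintro rfl
      exact hv (mem_box.2 (mem_EB.1 (hξ he)).1)
    · rintro rfl
      exact hv (mem_box.2 (mem_EB.1 (hξ he)).2)
  have hz : ∀ z : ZMod 2, z ≠ 0 → z = 1 := by decide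
  have hiff : (∀ v ∈ box d R, (lat d).bd ξ v = outPar (EB d R) η v) ↔
      (lat d).bd ξ = ind (US R η) := by
    constructor
    · intro h
      funext v
      unfold ind
      by_cases hv : v ∈ box d R
      · rw [h v hv]
        by_cases h0 : outPar (EB d R) η v = 0
        · rw [h0, if_neg]
          rw [US, Finset.mem_filter]
          exact fun h => h.2 h0
        · rw [if_pos, hz _ h0]
          rw [US, Finset.mem_filter]
          exact ⟨hv, h0⟩
      · rw [hout v hv, if_neg]
        rw [US, Finset.mem_filter]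
        exact fun h => hv h.1
    · intro h v hv
      rw [h]
      unfold ind
      by_cases h0 : outPar (EB d R) η v = 0
      · rw [h0, if_neg]
        rw [US, Finset.mem_filter]
        exact fun h => h.2 h0
      · rw [if_pos, hz _ h0]
        rw [US, Finset.mem_filter]
        exact ⟨hv, h0⟩
  unfold loopW
  by_cases h : (lat d).bd ξ = ind (US R η)
  · rw [if_pos h, if_pos (hiff.2 h)]
  · rw [if_neg h, if_neg (fun h2 => h (hiff.1 h2))]

open Classical in
theorem LL_ite (x : ℝ) (R : ℕ) (U : Finset (Vt d)) (f : Finset (Ed d) → ℝ) :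
    LL d x (EB d R) (ind U) f =
      ∑ ξ ∈ (EB d R).powerset, (if (lat d).bd ξ = ind U then x ^ ξ.card else 0) * f ξ := by
  unfold LL
  rw [MG.L_eq_ite_338]
  refine Finset.sum_congr rfl fun ξ _ => ?_
  rw [Finset.prod_const]
  split_ifs <;> simp

theorem trans (d : ℕ) (x : ℝ) (hx0 : 0 < x) : S_TRANS d x := by
  classical
  intro μ hμf hG R g a hyp
  have : BorelSpace (Om d) := borel_Om
  set S := EB d R with hS
  have hVG : ∀ e ∈ S, e.1 ∈ box d R ∧ e.1 + ev e.2 ∈ box d R := by
    intro e he
    rw [hS, mem_EB] at he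
    exact ⟨mem_box.2 he.1, mem_box.2 he.2⟩
  have hint : ∀ f : Om d → ℝ, Continuous f → Integrable f μ := by
    intro f hf
    obtain ⟨C, hC⟩ := isCompact_univ.exists_bound_of_continuousOn hf.continuousOn
    exact Integrable.of_bound hf.measurable.aestronglyMeasurable C
      (ae_of_all _ fun x => hC x (Set.mem_univ x))
  have hreal : ∀ ξ ∈ S.powerset, μ.real {η | restr S η = ξ} =
      ∫ η, ell x S (box d R) (outPar S η) ξ ∂μ := by
    intro ξ hξ
    have h1 := hG S (box d R) hVG ξ hξ Set.univ (@MeasurableSet.univ _ (outS S))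
    rw [Set.inter_univ, Measure.restrict_univ] at h1
    rw [Measure.real, h1, integral_eq_lintegral_of_nonneg_ae
      (ae_of_all _ fun η => ell_nonneg x hx0 _ _ _ _)
      (cont_ell x S (box d R) ξ).measurable.aestronglyMeasurable]
  have hset : ∀ ξ, MeasurableSet {η : Om d | restr S η = ξ} := by
    intro ξ
    have hR : Continuous (fun η : Om d => if restr S η = ξ then (1 : ℝ) else 0) := by
      refine continuous_of_local S _ fun η η' h => ?_
      have : restr S η = restr S η' := by
        unfold restr
        exact Finset.filter_congr fun e he => by rw [h e he]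
      rw [this]
    have : {η : Om d | restr S η = ξ} =
        (fun η : Om d => if restr S η = ξ then (1 : ℝ) else 0) ⁻¹' {1} := by
      ext η
      simp
    rw [this]
    exact hR.measurable (measurableSet_singleton 1)
  have hdec : ∀ f : Finset (Ed d) → ℝ, ∫ η, f (restr S η) ∂μ =
      ∑ ξ ∈ S.powerset, f ξ * μ.real {η | restr S η = ξ} := by
    intro f
    have h1 : (fun η : Om d => f (restr S η)) =
        fun η => ∑ ξ ∈ S.powerset, Set.indicator {η | restr S η = ξ} (fun _ => f ξ) η := by
      funext η
      rw [Finset.sum_eq_single (restr S η)]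
      · simp [Set.indicator]
      · intro ξ _ hne
        simp [Set.indicator, hne.symm]
      · intro h
        exact absurd (Finset.mem_powerset.2 (Finset.filter_subset _ _)) h
    rw [h1, integral_finsetSum]
    · refine Finset.sum_congr rfl fun ξ _ => ?_
      rw [integral_indicator_const _ (hset ξ), smul_eq_mul, mul_comm]
    · intro ξ _
      exact (integrable_const _).indicator (hset ξ)
  have huniv : μ.real Set.univ = ∑ ξ ∈ S.powerset, μ.real {η | restr S η = ξ} := by
    have := hdec (fun _ => 1)
    simp only [one_mul] at this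
    rw [← this]
    simp
  have hmain : ∫ η, g (restr S η) ∂μ - a * μ.real Set.univ =
      ∫ η, ∑ ξ ∈ S.powerset, (g ξ - a) * ell x S (box d R) (outPar S η) ξ ∂μ := by
    rw [hdec g, huniv, integral_finsetSum]
    · rw [Finset.mul_sum, ← Finset.sum_sub_distrib]
      refine Finset.sum_congr rfl fun ξ hξ => ?_
      rw [integral_const_mul, ← hreal ξ hξ]
      ring
    · intro ξ _
      exact (hint _ (cont_ell x S (box d R) ξ)).const_mul _
  have hneg : ∫ η, ∑ ξ ∈ S.powerset, (g ξ - a) * ell x S (box d R) (outPar S η) ξ ∂μ ≤ 0 := by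
    refine integral_nonpos fun η => ?_
    show ∑ ξ ∈ S.powerset, (g ξ - a) * ell x S (box d R) (outPar S η) ξ ≤ 0
    have hsumW : ∑ ξ' ∈ S.powerset, loopW x (box d R) (outPar S η) ξ' =
        ZZ d x S (ind (US R η)) := by
      have h1 : ZZ d x S (ind (US R η)) = LL d x (EB d R) (ind (US R η)) (fun _ => 1) := rfl
      rw [h1, LL_ite]
      refine Finset.sum_congr rfl fun ξ hξ => ?_
      rw [loopW_eq x R η ξ (Finset.mem_powerset.1 hξ), mul_one]
    have h2 : ∑ ξ ∈ S.powerset, (g ξ - a) * ell x S (box d R) (outPar S η) ξ =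
        (LL d x (EB d R) (ind (US R η)) g - a * ZZ d x S (ind (US R η))) /
          ZZ d x S (ind (US R η)) := by
      have h1 : ZZ d x S (ind (US R η)) = LL d x (EB d R) (ind (US R η)) (fun _ => 1) := rfl
      unfold ell
      rw [hsumW]
      simp only [← mul_div_assoc]
      rw [← Finset.sum_div]
      congr 1
      rw [h1, LL_ite, LL_ite, Finset.mul_sum, ← Finset.sum_sub_distrib]
      refine Finset.sum_congr rfl fun ξ hξ => ?_
      rw [loopW_eq x R η ξ (Finset.mem_powerset.1 hξ)]
      ring
    rw [h2]
    by_cases hz : ZZ d x S (ind (US R η)) = 0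
    · rw [hz, div_zero]
    · have hpos : 0 < ZZ d x S (ind (US R η)) :=
        lt_of_le_of_ne (MG.Z_nonneg _ _ fun _ _ => hx0.le) (Ne.symm hz)
      have h3 := hyp (US R η) (US_sphere R η) hz
      unfold EE MG.ex at h3
      rw [div_le_iff₀ hpos] at h3
      refine div_nonpos_of_nonpos_of_nonneg ?_ hpos.le
      have : LL d x (EB d R) (ind (US R η)) g ≤ a * ZZ d x S (ind (US R η)) := h3
      linarith
  linarith

end Pool.Agent.TH304.J491
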