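import Pool.Agent.TH981.LO.Bas

set_option autoImplicit false

open Pool.Agent.TH981.LO
open scoped BigOperators symmDiff MeasureTheory ENNReal Topology BoundedContinuousFunction
open MeasureTheory Filter

namespace Pool.Agent.TH304.J498

variable {d : ℕ}

/-- configuration of a finite set -/
def toOm (η : Finset (Ed d)) : Om d := fun e => decide (e ∈ η)

theorem toOm_iff (η : Finset (Ed d)) (e : Ed d) : toOm η e = true ↔ e ∈ η := by
  simp [toOm]

theorem restr_toOm (S η : Finset (Ed d)) : restr S (toOm η) = S ∩ η := by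
  ext e
  simp [restr, toOm_iff]

theorem outPar_toOm (S η : Finset (Ed d)) : outPar S (toOm η) = (lat d).bd (η \ S) := by
  funext v
  unfold outPar
  rw [bd_eq_card]
  congr 2
  ext e
  simp only [Finset.mem_filter, mem_TE, Finset.mem_singleton, toOm_iff, Finset.mem_sdiff]
  tauto

/-- the expectation in the box -/
theorem key (x : ℝ) (hx : 0 < x) (P S : Finset (Ed d)) (hSP : S ⊆ P) (VG : Finset (Vt d))
    (hVG : ∀ e ∈ S, e.1 ∈ VG ∧ e.1 + ev e.2 ∈ VG) (ξ : Finset (Ed d)) (hξ : ξ ⊆ S)
    (g : Om d → ℝ) (hg : ∀ η η' : Om d, (∀ e, e ∉ S → η e = η' e) → g η = g η') :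
    LL d x P 0 (fun η => (if restr S (toOm η) = ξ then 1 else 0) * g (toOm η)) =
      LL d x P 0 (fun η => ell x S VG (outPar S (toOm η)) ξ * g (toOm η)) := by
  classical
  unfold LL
  have hP : P = (P \ S) ∪ S := (Finset.sdiff_union_of_subset hSP).symm
  rw [hP, MG.L_union _ _ Finset.sdiff_disjoint, MG.L_union _ _ Finset.sdiff_disjoint]
  refine Finset.sum_congr rfl fun ρ hρ => ?_
  rw [Finset.mem_powerset] at hρ
  congr 1
  have hρS : Disjoint ρ S := Finset.disjoint_of_subset_left hρ Finset.sdiff_disjoint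
  have hgρ : ∀ ξ' : Finset (Ed d), ξ' ⊆ S → g (toOm (ρ ∪ ξ')) = g (toOm ρ) := by
    intro ξ' h'
    refine hg _ _ fun e he => ?_
    have : e ∉ ξ' := fun h => he (h' h)
    simp [toOm, this]
  have hr : ∀ ξ' : Finset (Ed d), ξ' ⊆ S → restr S (toOm (ρ ∪ ξ')) = ξ' := by
    intro ξ' h'
    rw [restr_toOm, Finset.inter_union_distrib_left, Finset.disjoint_iff_inter_eq_empty.1 hρS.symm,
      Finset.empty_union, Finset.inter_eq_right.2 h']
  have ho : ∀ ξ' : Finset (Ed d), ξ' ⊆ S → outPar S (toOm (ρ ∪ ξ')) = (lat d).bd ρ := by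
    intro ξ' h'
    rw [outPar_toOm, Finset.union_sdiff_distrib, Finset.sdiff_eq_empty_iff_subset.2 h',
      Finset.union_empty, Finset.sdiff_eq_self_of_disjoint hρS]
  rw [zero_add]
  set b := (lat d).bd ρ with hb
  have e1 : (lat d).L (fun _ => x) S b (fun η => (if restr S (toOm (ρ ∪ η)) = ξ then 1 else 0) *
      g (toOm (ρ ∪ η))) = (if (lat d).bd ξ = b then x ^ ξ.card else 0) * g (toOm ρ) := by
    rw [MG.L_eq_ite_338]
    rw [Finset.sum_eq_single ξ]
    · rw [hgρ ξ hξ, hr ξ hξ, if_pos rfl]
      split_ifs <;> simp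
    · intro ξ' h' hne
      rw [Finset.mem_powerset] at h'
      rw [hr ξ' h', if_neg hne]
      simp
    · intro h
      exact absurd (Finset.mem_powerset.2 hξ) h
  have e2 : (lat d).L (fun _ => x) S b (fun η => ell x S VG (outPar S (toOm (ρ ∪ η))) ξ *
      g (toOm (ρ ∪ η))) = (∑ ξ' ∈ S.powerset, if (lat d).bd ξ' = b then x ^ ξ'.card else 0) *
        (ell x S VG b ξ * g (toOm ρ)) := by
    rw [MG.L_eq_ite_338, Finset.sum_mul]
    refine Finset.sum_congr rfl fun ξ' h' => ?_
    rw [Finset.mem_powerset] at h'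
    rw [hgρ ξ' h', ho ξ' h']
    split_ifs <;> simp
  rw [e1, e2]
  by_cases hex : ∃ ξ0, ξ0 ⊆ S ∧ (lat d).bd ξ0 = b
  · obtain ⟨ξ0, h0, hb0⟩ := hex
    have hout : ∀ ξ' : Finset (Ed d), ξ' ⊆ S → ∀ v, v ∉ VG → (lat d).bd ξ' v = 0 := by
      intro ξ' h' v hv
      refine MG.bd_eq_zero_of_not_touch _ fun e he => ⟨?_, ?_⟩
      · rintro rfl
        exact hv (hVG e (h' he)).1
      · rintro rfl
        exact hv (hVG e (h' he)).2
    have hiff : ∀ ξ' : Finset (Ed d), ξ' ⊆ S →
        ((∀ v ∈ VG, (lat d).bd ξ' v = b v) ↔ (lat d).bd ξ' = b) := by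
      intro ξ' h'
      constructor
      · intro h
        funext v
        by_cases hv : v ∈ VG
        · exact h v hv
        · rw [← hb0, hout ξ' h' v hv, hout ξ0 h0 v hv]
      · intro h v _
        rw [h]
    have hl : ∀ ξ' : Finset (Ed d), ξ' ⊆ S →
        loopW x VG b ξ' = if (lat d).bd ξ' = b then x ^ ξ'.card else 0 := by
      intro ξ' h'
      unfold loopW
      by_cases h : (lat d).bd ξ' = b
      · rw [if_pos h, if_pos ((hiff ξ' h').2 h)]
      · rw [if_neg h, if_neg (fun h2 => h ((hiff ξ' h').1 h2))]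
    have hsum : ∑ ξ' ∈ S.powerset, loopW x VG b ξ' =
        ∑ ξ' ∈ S.powerset, (if (lat d).bd ξ' = b then x ^ ξ'.card else 0) :=
      Finset.sum_congr rfl fun ξ' h' => hl ξ' (Finset.mem_powerset.1 h')
    have hpos : 0 < ∑ ξ' ∈ S.powerset, (if (lat d).bd ξ' = b then x ^ ξ'.card else 0) := by
      refine Finset.sum_pos' (fun ξ' _ => ?_) ⟨ξ0, Finset.mem_powerset.2 h0, ?_⟩
      · split_ifs
        · positivity
        · exact le_rfl
      · rw [if_pos hb0]
        positivity
    unfold ell
    rw [hsum, hl ξ hξ]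
    field_simp
  · have h1 : ¬ (lat d).bd ξ = b := fun h => hex ⟨ξ, hξ, h⟩
    rw [if_neg h1, Finset.sum_eq_zero]
    · simp
    · intro ξ' h'
      rw [if_neg]
      intro h
      exact hex ⟨ξ', Finset.mem_powerset.1 h', h⟩

/-- functions of finitely many coordinates are continuous -/
theorem continuous_of_local {α : Type} [TopologicalSpace α] (T : Finset (Ed d)) (f : Om d → α)
    (hf : ∀ η η' : Om d, (∀ e ∈ T, η e = η' e) → f η = f η') : Continuous f := by
  classical
  have h1 : f = (fun b : (T → Bool) => f (fun e => if h : e ∈ T then b ⟨e, h⟩ else false)) ∘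
      (fun (η : Om d) (e : T) => η e.1) := by
    funext η
    refine hf _ _ fun e he => ?_
    simp [he]
  rw [h1]
  refine Continuous.comp continuous_of_discreteTopology ?_
  exact continuous_pi fun e => continuous_apply e.1

instance : Countable (Ed d) := inferInstance

theorem borel_Om : BorelSpace (Om d) := inferInstance

/-- weights -/
noncomputable def wt (x : ℝ) (n : ℕ) (η : Finset (Ed d)) : ℝ := x ^ η.card / ZZ d x (EB d n) 0

open Classical in
/-- even configurations -/
noncomputable def Ev (d n : ℕ) : Finset (Finset (Ed d)) :=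
  (EB d n).powerset.filter (fun η => (lat d).bd η = 0)

/-- finite-volume measure -/
noncomputable def mu (d : ℕ) (x : ℝ) (n : ℕ) : Measure (Om d) :=
  ∑ η ∈ Ev d n, ENNReal.ofReal (wt x n η) • Measure.dirac (toOm η)

theorem Z_pos (x : ℝ) (hx : 0 < x) (n : ℕ) : 0 < ZZ d x (EB d n) 0 :=
  lt_of_lt_of_le one_pos (MG.one_le_Z_zero _ fun _ _ => hx.le)

theorem wt_nonneg (x : ℝ) (hx : 0 < x) (n : ℕ) (η : Finset (Ed d)) : 0 ≤ wt x n η :=
  div_nonneg (pow_nonneg hx.le _) (Z_pos x hx n).le

theorem LL_eq (x : ℝ) (n : ℕ) (f : Finset (Ed d) → ℝ) :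
    LL d x (EB d n) 0 f = ∑ η ∈ Ev d n, x ^ η.card * f η := by
  unfold LL MG.L Ev
  refine Finset.sum_congr ?_ fun η _ => ?_
  · congr
  · rw [Finset.prod_const]

theorem sum_wt (x : ℝ) (hx : 0 < x) (n : ℕ) : ∑ η ∈ Ev d n, wt x n η = 1 := by
  have h := LL_eq (d := d) x n (fun _ => 1)
  simp only [mul_one] at h
  unfold wt
  rw [← Finset.sum_div, ← h]
  exact div_self (Z_pos x hx n).ne'

theorem isProb (x : ℝ) (hx : 0 < x) (n : ℕ) : IsProbabilityMeasure (mu d x n) := by
  refine ⟨?_⟩
  unfold mu
  rw [Measure.finsetSum_apply]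
  simp only [Measure.smul_apply, smul_eq_mul, measure_univ, mul_one]
  rw [← ENNReal.ofReal_sum_of_nonneg (fun η _ => wt_nonneg x hx n η), sum_wt x hx n,
    ENNReal.ofReal_one]

theorem integral_mu (x : ℝ) (hx : 0 < x) (n : ℕ) (f : Om d → ℝ) (hf : Continuous f) :
    ∫ η, f η ∂(mu d x n) = LL d x (EB d n) 0 (fun η => f (toOm η)) / ZZ d x (EB d n) 0 := by
  haveI : BorelSpace (Om d) := borel_Om
  have hm : StronglyMeasurable f := hf.measurable.stronglyMeasurable
  unfold mu
  rw [integral_finsetSum_measure]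
  · rw [LL_eq, Finset.sum_div]
    refine Finset.sum_congr rfl fun η _ => ?_
    rw [integral_smul_measure, integral_dirac' _ _ hm, ENNReal.toReal_ofReal (wt_nonneg x hx n η)]
    unfold wt
    rw [smul_eq_mul]
    ring
  · intro η _
    refine Integrable.smul_measure ?_ ENNReal.ofReal_ne_top
    haveI : CompactSpace (Om d) := inferInstance
    obtain ⟨C, hC⟩ := isCompact_univ.exists_bound_of_continuousOn hf.continuousOn
    exact Integrable.of_bound hm.aestronglyMeasurable C (ae_of_all _ fun x => hC x (Set.mem_univ x))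

theorem exist (d : ℕ) (x : ℝ) (hx0 : 0 < x) (hx1 : x < 1) : S_EXIST d x := by
  classical
  haveI : BorelSpace (Om d) := borel_Om
  let μs : ℕ → ProbabilityMeasure (Om d) := fun n => ⟨mu d x n, isProb x hx0 n⟩
  obtain ⟨μ, hμ⟩ : ∃ μ : ProbabilityMeasure (Om d),
      Tendsto μs (hyperfilter ℕ : Filter ℕ) (𝓝 μ) := by
    refine ⟨((hyperfilter ℕ).map μs).lim, ?_⟩
    exact ((hyperfilter ℕ).map μs).le_nhds_lim
  rw [ProbabilityMeasure.tendsto_iff_forall_integral_tendsto] at hμ
  refine ⟨μ, inferInstance, ?_⟩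
  intro S VG hVG ξ hξ F hF
  rw [Finset.mem_powerset] at hξ
  -- the two factors
  have hR : Continuous (fun η : Om d => if restr S η = ξ then (1 : ℝ) else 0) := by
    refine continuous_of_local S _ fun η η' h => ?_
    have : restr S η = restr S η' := by
      unfold restr
      exact Finset.filter_congr fun e he => by rw [h e he]
    rw [this]
  have hL : Continuous (fun η : Om d => ell x S VG (outPar S η) ξ) := by
    refine continuous_of_local (TE VG) _ fun η η' h => ?_
    have : ∀ v ∈ VG, outPar S η v = outPar S η' v := by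
      intro v hv
      unfold outPar
      congr 2
      refine Finset.filter_congr fun e he => ?_
      have : e ∈ TE VG := by
        rw [mem_TE] at he ⊢
        simp only [Finset.mem_singleton] at he
        rcases he with h1 | h1
        · left; rw [h1]; exact hv
        · right; rw [h1]; exact hv
      rw [h e this]
    have h2 : ∀ ξ', loopW x VG (outPar S η) ξ' = loopW x VG (outPar S η') ξ' := by
      intro ξ'
      unfold loopW
      have : (∀ v ∈ VG, (lat d).bd ξ' v = outPar S η v) ↔
          (∀ v ∈ VG, (lat d).bd ξ' v = outPar S η' v) := by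
        constructor
        · intro h3 v hv
          rw [← this v hv]; exact h3 v hv
        · intro h3 v hv
          rw [this v hv]; exact h3 v hv
      by_cases h3 : (∀ v ∈ VG, (lat d).bd ξ' v = outPar S η v)
      · rw [if_pos h3, if_pos (this.1 h3)]
      · rw [if_neg h3, if_neg (fun h4 => h3 (this.2 h4))]
    unfold ell
    simp only [h2]
  have hLnn : ∀ η : Om d, 0 ≤ ell x S VG (outPar S η) ξ := by
    intro η
    unfold ell
    have : ∀ ξ', 0 ≤ loopW x VG (outPar S η) ξ' := by
      intro ξ'
      unfold loopW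
      split_ifs
      · positivity
      · exact le_rfl
    exact div_nonneg (this ξ) (Finset.sum_nonneg fun ξ' _ => this ξ')
  -- projection
  set pr : Om d → ({e : Ed d // e ∉ S} → Bool) := fun η e => η e.1 with hpr
  have hprc : Continuous pr := continuous_pi fun e => continuous_apply e.1
  have hprm : Measurable pr := hprc.measurable
  have hint : ∀ f : Om d → ℝ, Continuous f → Integrable f (μ : Measure (Om d)) := by
    intro f hf
    obtain ⟨C, hC⟩ := isCompact_univ.exists_bound_of_continuousOn hf.continuousOn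
    exact Integrable.of_bound hf.measurable.aestronglyMeasurable C
      (ae_of_all _ fun x => hC x (Set.mem_univ x))
  have hmain : ∀ g : Om d → ℝ, Continuous g →
      (∀ η η' : Om d, (∀ e, e ∉ S → η e = η' e) → g η = g η') →
      ∫ η, (if restr S η = ξ then 1 else 0) * g η ∂(μ : Measure (Om d)) =
        ∫ η, ell x S VG (outPar S η) ξ * g η ∂(μ : Measure (Om d)) := by
    intro g hg hgl
    have hc1 := hR.mul hg
    have hc2 := hL.mul hg
    have t1 := hμ (BoundedContinuousFunction.mkOfCompact ⟨_, hc1⟩)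
    have t2 := hμ (BoundedContinuousFunction.mkOfCompact ⟨_, hc2⟩)
    simp only [BoundedContinuousFunction.mkOfCompact_apply, ContinuousMap.coe_mk] at t1 t2
    refine tendsto_nhds_unique t1 (t2.congr' ?_)
    -- S is contained in a box
    obtain ⟨N, hN⟩ : ∃ N : ℕ, S ⊆ EB d N := by
      refine ⟨S.sup (fun e => nm e.1 + nm (e.1 + ev e.2)), fun e he => ?_⟩
      have := Finset.le_sup (f := fun e : Ed d => nm e.1 + nm (e.1 + ev e.2)) he
      rw [mem_EB]
      have h2 : nm e.1 + nm (e.1 + ev e.2) ≤
        S.sup (fun e => nm e.1 + nm (e.1 + ev e.2)) := this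
      constructor <;> omega
    have hev : ∀ᶠ n in (hyperfilter ℕ : Filter ℕ), N ≤ n := by
      have : ∀ᶠ n in cofinite, N ≤ n := by
        rw [Nat.cofinite_eq_atTop]
        exact eventually_ge_atTop N
      exact hyperfilter_le_cofinite this
    filter_upwards [hev] with n hn
    show ∫ η, _ ∂(mu d x n) = ∫ η, _ ∂(mu d x n)
    rw [integral_mu x hx0 n _ hc1, integral_mu x hx0 n _ hc2]
    congr 1
    exact (key x hx0 (EB d n) S (hN.trans (EB_mono hn)) VG hVG ξ hξ g hgl).symm
  -- two finite measures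
  set ν1 : Measure (Om d) := (μ : Measure (Om d)).restrict {η | restr S η = ξ} with hν1
  set ν2 : Measure (Om d) := (μ : Measure (Om d)).withDensity
    (fun η => ENNReal.ofReal (ell x S VG (outPar S η) ξ)) with hν2
  have hset : MeasurableSet {η : Om d | restr S η = ξ} := by
    have : {η : Om d | restr S η = ξ} =
        (fun η : Om d => if restr S η = ξ then (1 : ℝ) else 0) ⁻¹' {1} := by
      ext η
      simp
    rw [this]
    exact hR.measurable (measurableSet_singleton 1)
  haveI : IsFiniteMeasure ν2 := by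
    refine isFiniteMeasure_withDensity_ofReal ?_
    exact (hint _ hL).2
  have heq : ν1.map pr = ν2.map pr := by
    haveI : IsFiniteMeasure (ν1.map pr) := inferInstance
    haveI : IsFiniteMeasure (ν2.map pr) := inferInstance
    refine ext_of_forall_integral_eq_of_IsFiniteMeasure fun f => ?_
    rw [integral_map hprm.aemeasurable f.continuous.measurable.aestronglyMeasurable,
      integral_map hprm.aemeasurable f.continuous.measurable.aestronglyMeasurable]
    have h1 : ∫ η, f (pr η) ∂ν1 =
        ∫ η, (if restr S η = ξ then 1 else 0) * f (pr η) ∂(μ : Measure (Om d)) := by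
      rw [hν1, ← integral_indicator hset]
      refine integral_congr_ae (ae_of_all _ fun η => ?_)
      by_cases h : restr S η = ξ
      · simp [Set.indicator, h]
      · simp [Set.indicator, h]
    have h2 : ∫ η, f (pr η) ∂ν2 =
        ∫ η, ell x S VG (outPar S η) ξ * f (pr η) ∂(μ : Measure (Om d)) := by
      rw [hν2]
      rw [integral_withDensity_eq_integral_toReal_smul₀]
      · refine integral_congr_ae (ae_of_all _ fun η => ?_)
        simp only [ENNReal.toReal_ofReal (hLnn η), smul_eq_mul]
      · exact (ENNReal.measurable_ofReal.comp hL.measurable).aemeasurable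
      · exact ae_of_all _ fun η => ENNReal.ofReal_lt_top
    rw [h1, h2]
    refine hmain _ (f.continuous.comp hprc) fun η η' h => ?_
    have : pr η = pr η' := by
      funext e
      exact h e.1 e.2
    simp only [this]
  -- conclusion
  obtain ⟨F', hF', rfl⟩ := hF
  have e1 : ν1.map pr F' = (μ : Measure (Om d)) ({η | restr S η = ξ} ∩ pr ⁻¹' F') := by
    rw [Measure.map_apply hprm hF', hν1, Measure.restrict_apply (hprm hF'), Set.inter_comm]
  have e2 : ν2.map pr F' = ∫⁻ η in pr ⁻¹' F', ENNReal.ofReal (ell x S VG (outPar S η) ξ)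
      ∂(μ : Measure (Om d)) := by
    rw [Measure.map_apply hprm hF', hν2, withDensity_apply _ (hprm hF')]
  show (μ : Measure (Om d)) ({η | restr S η = ξ} ∩ pr ⁻¹' F') = ∫⁻ η in pr ⁻¹' F',
    ENNReal.ofReal (ell x S VG (outPar S η) ξ) ∂(μ : Measure (Om d))
  rw [← e1, ← e2, heq]

end Pool.Agent.TH304.J498
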