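import Pool.Agent.Helper993.HeisDet

noncomputable section

namespace Pool.Agent.TH304.J893

open Polynomial Finset Pool.Agent.Helper993.HeisDet

/-- the block polynomial -/
def eP (m : ℕ) (M η ζ : ℂ) : Polynomial ℂ :=
  (1 - X ^ 2) ^ m + C (∏ j ∈ range m, (M * (1 - η * ζ ^ j))) * X ^ m

/-- sum of the logarithmic Mahler measures of all block polynomials -/
def S (n k m : ℕ) (M : ℂ) : ℝ :=
  ∑ η ∈ nthRootsFinset n (1 : ℂ), ∑ ζ ∈ nthRootsFinset k (1 : ℂ), (eP m M η ζ).logMahlerMeasure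

theorem eP_eval (m : ℕ) (M η ζ z : ℂ) (hz : 1 - z ^ 2 ≠ 0) :
    (eP m M η ζ).eval z = (1 - z ^ 2) ^ m * B m (z * M / (1 - z ^ 2)) η ζ := by
  unfold eP B
  simp only [eval_add, eval_pow, eval_sub, eval_one, eval_X, eval_mul, eval_C]
  rw [Finset.prod_mul_distrib, Finset.prod_mul_distrib, Finset.prod_const, Finset.prod_const,
    Finset.card_range]
  have h : (1 - z ^ 2) ^ m * (z * M / (1 - z ^ 2)) ^ m = z ^ m * M ^ m := by
    rw [← mul_pow, mul_div_cancel₀ _ hz, mul_pow]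
  linear_combination -(∏ i ∈ range m, (1 - η * ζ ^ i)) * h

theorem coeff_zero_eP {m : ℕ} (hm : 0 < m) (M η ζ : ℂ) : (eP m M η ζ).coeff 0 = 1 := by
  rw [Polynomial.coeff_zero_eq_eval_zero]
  unfold eP
  simp [hm.ne']

theorem eP_ne_zero {m : ℕ} (hm : 0 < m) (M η ζ : ℂ) : eP m M η ζ ≠ 0 := by
  intro h
  have := coeff_zero_eP hm M η ζ
  rw [h] at this
  simp at this

theorem logMahler_eP_nonneg {m : ℕ} (hm : 0 < m) (M η ζ : ℂ) :
    0 ≤ (eP m M η ζ).logMahlerMeasure := by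
  rw [logMahlerMeasure_eq_log_MahlerMeasure]
  apply Real.log_nonneg
  have h := norm_coeff_le_choose_mul_mahlerMeasure 0 (eP m M η ζ)
  rw [coeff_zero_eP hm, norm_one, Nat.choose_zero_right, Nat.cast_one, one_mul] at h
  exact h

theorem log_prod {ι : Type} (s : Finset ι) (f : ι → Polynomial ℂ) (hf : ∀ i ∈ s, f i ≠ 0) :
    (∏ i ∈ s, f i).logMahlerMeasure = ∑ i ∈ s, (f i).logMahlerMeasure := by
  classical
  induction s using Finset.induction_on with
  | empty => simp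
  | insert a s ha ih =>
    have hs : ∀ i ∈ s, f i ≠ 0 := fun i hi => hf i (Finset.mem_insert_of_mem hi)
    rw [Finset.prod_insert ha, Finset.sum_insert ha, logMahlerMeasure_mul_eq_add_logMahlerMeasure,
      ih hs]
    exact mul_ne_zero (hf a (Finset.mem_insert_self _ _)) (Finset.prod_ne_zero_iff.2 hs)

/-- the sum is the logarithmic Mahler measure of the product -/
theorem S_eq {n k m : ℕ} (hm : 0 < m) (M : ℂ) :
    S n k m M = (∏ η ∈ nthRootsFinset n (1 : ℂ), ∏ ζ ∈ nthRootsFinset k (1 : ℂ),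
      eP m M η ζ).logMahlerMeasure := by
  unfold S
  rw [log_prod]
  · refine Finset.sum_congr rfl fun η _ => ?_
    rw [log_prod]
    exact fun ζ _ => eP_ne_zero hm M η ζ
  · intro η _
    exact Finset.prod_ne_zero_iff.2 fun ζ _ => eP_ne_zero hm M η ζ

theorem circ (p : Polynomial ℂ) : CircleIntegrable (fun z => Real.log ‖p.eval z‖) 0 1 := by
  rw [circleIntegrable_def fun z ↦ Real.log ‖p.eval z‖]
  exact p.intervalIntegrable_mahlerMeasure

theorem logM_le (p : Polynomial ℂ) {c : ℝ} (hc : 1 ≤ c) (h : ∀ z : ℂ, ‖z‖ = 1 → ‖p.eval z‖ ≤ c) :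
    p.logMahlerMeasure ≤ Real.log c := by
  rw [logMahlerMeasure_def]
  refine Real.circleAverage_mono_on_of_le_circle (circ p) ?_
  intro z hz
  have hz1 : ‖z‖ = 1 := by simpa using hz
  by_cases h0 : ‖p.eval z‖ = 0
  · rw [h0, Real.log_zero]; exact Real.log_nonneg hc
  · exact Real.log_le_log (lt_of_le_of_ne (norm_nonneg _) (Ne.symm h0)) (h z hz1)

theorem le_logM (p : Polynomial ℂ) {c : ℝ} (hc : 0 < c) (h : ∀ z : ℂ, ‖z‖ = 1 → c ≤ ‖p.eval z‖) :
    Real.log c ≤ p.logMahlerMeasure := by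
  rw [logMahlerMeasure_def, ← Real.circleAverage_const (Real.log c) 0 1]
  refine Real.circleAverage_mono (circleIntegrable_const _ _ _) (circ p) ?_
  intro z hz
  have hz1 : ‖z‖ = 1 := by simpa using hz
  exact Real.log_le_log hc (h z hz1)

theorem logM_eP_le {m : ℕ} (hm : 0 < m) (M : ℂ) {η ζ : ℂ} (hη : ‖η‖ = 1) (hζ : ‖ζ‖ = 1) :
    (eP m M η ζ).logMahlerMeasure ≤ m * Real.log (2 * ‖M‖ + 2) := by
  rw [← Real.log_pow]
  have hM : 0 ≤ ‖M‖ := norm_nonneg _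
  refine logM_le _ (one_le_pow₀ (by linarith)) ?_
  intro z hz
  unfold eP
  simp only [eval_add, eval_pow, eval_sub, eval_one, eval_X, eval_mul, eval_C]
  have h1 : ‖(1 - z ^ 2) ^ m‖ ≤ 2 ^ m := by
    rw [norm_pow]
    apply pow_le_pow_left₀ (norm_nonneg _)
    calc ‖1 - z ^ 2‖ ≤ ‖(1:ℂ)‖ + ‖z ^ 2‖ := norm_sub_le _ _
      _ = 2 := by rw [norm_pow, hz]; norm_num
  have h2 : ‖(∏ j ∈ range m, (M * (1 - η * ζ ^ j))) * z ^ m‖ ≤ (2 * ‖M‖) ^ m := by
    rw [norm_mul, norm_pow, hz, one_pow, mul_one, norm_prod]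
    calc ∏ j ∈ range m, ‖M * (1 - η * ζ ^ j)‖ ≤ ∏ j ∈ range m, (2 * ‖M‖) := by
          apply Finset.prod_le_prod
          · intro i _; exact norm_nonneg _
          · intro i _
            rw [norm_mul]
            have : ‖1 - η * ζ ^ i‖ ≤ 2 := by
              calc ‖1 - η * ζ ^ i‖ ≤ ‖(1:ℂ)‖ + ‖η * ζ ^ i‖ := norm_sub_le _ _
                _ = 2 := by rw [norm_mul, norm_pow, hη, hζ]; norm_num
            nlinarith
      _ = (2 * ‖M‖) ^ m := by simp
  have h3 : (2 : ℝ) ^ m + (2 * ‖M‖) ^ m ≤ (2 * ‖M‖ + 2) ^ m := by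
    have := pow_add_pow_le (x := (2 * ‖M‖ : ℝ)) (y := 2) (by positivity) (by norm_num) hm.ne'
    linarith
  exact (norm_add_le _ _).trans ((add_le_add h1 h2).trans h3)

theorem prod_prim {m : ℕ} (hm : 0 < m) {ζ : ℂ} (hζ : IsPrimitiveRoot ζ m) (M η : ℂ) :
    ∏ j ∈ range m, (M * (1 - η * ζ ^ j)) = M ^ m * (1 - η ^ m) := by
  have h := B_primitive hm hζ M η
  unfold B at h
  exact add_left_cancel h

theorem logM_one_sub (m : ℕ) : ((1 - X ^ 2 : Polynomial ℂ) ^ m).logMahlerMeasure = 0 := by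
  have h0 : (1 - X ^ 2 : Polynomial ℂ) ≠ 0 := by
    intro h
    have := congrArg (Polynomial.eval 0) h
    simp at this
  have h1 : (1 - X ^ 2 : Polynomial ℂ).logMahlerMeasure = 0 := by
    have e : (1 - X ^ 2 : Polynomial ℂ) = C (-1) * ((X - C 1) * (X + C 1)) := by
      simp only [map_neg, map_one]
      ring
    have hx1 : (X - C 1 : Polynomial ℂ) ≠ 0 := X_sub_C_ne_zero 1
    have hx2 : (X + C 1 : Polynomial ℂ) ≠ 0 := X_add_C_ne_zero 1
    rw [e, logMahlerMeasure_C_mul (by norm_num) (mul_ne_zero hx1 hx2),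
      logMahlerMeasure_mul_eq_add_logMahlerMeasure (mul_ne_zero hx1 hx2),
      logMahlerMeasure_X_sub_C, logMahlerMeasure_X_add_C]
    simp
  have h2 := log_prod (Finset.range m) (fun _ => (1 - X ^ 2 : Polynomial ℂ)) (fun _ _ => h0)
  rw [Finset.prod_const, Finset.card_range] at h2
  rw [h2, h1]
  simp

theorem card_roots {n : ℕ} (hn : 0 < n) : (nthRootsFinset n (1 : ℂ)).card = n :=
  (Complex.isPrimitiveRoot_exp n hn.ne').card_nthRootsFinset

theorem S_type1 (j : ℕ) (M : ℂ) : S (3 ^ (j + 1)) (3 ^ (j + 1)) (3 ^ (j + 1)) M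
    ≤ (3 ^ (j + 1) * 3 ^ j * 3 ^ (j + 1) : ℝ) * Real.log (2 * ‖M‖ + 2) := by
  unfold S
  have hin : ∀ η ∈ nthRootsFinset (3 ^ (j + 1)) (1 : ℂ),
      ∑ ζ ∈ nthRootsFinset (3 ^ (j + 1)) (1 : ℂ), (eP (3 ^ (j + 1)) M η ζ).logMahlerMeasure
      ≤ (3 ^ j * 3 ^ (j + 1) : ℝ) * Real.log (2 * ‖M‖ + 2) := by
    intro η hη
    rw [roots_split, Finset.sum_union (roots_disj j)]
    have h1 : ∑ ζ ∈ primitiveRoots (3 ^ (j + 1)) ℂ,
        (eP (3 ^ (j + 1)) M η ζ).logMahlerMeasure = 0 := by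
      refine Finset.sum_eq_zero fun ζ hζ => ?_
      rw [mem_primitiveRoots (by positivity)] at hζ
      unfold eP
      rw [prod_prim (by positivity) hζ, (mem_nthRootsFinset (by positivity) _).1 hη, sub_self,
        mul_zero, map_zero, zero_mul, add_zero, logM_one_sub]
    rw [h1, zero_add]
    calc ∑ ζ ∈ nthRootsFinset (3 ^ j) (1 : ℂ), (eP (3 ^ (j + 1)) M η ζ).logMahlerMeasure
        ≤ ∑ ζ ∈ nthRootsFinset (3 ^ j) (1 : ℂ),
          (((3 ^ (j + 1) : ℕ) : ℝ) * Real.log (2 * ‖M‖ + 2)) := by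
          refine Finset.sum_le_sum fun ζ hζ => ?_
          exact logM_eP_le (by positivity) M (norm_eq_one_of_mem (by positivity) hη)
            (norm_eq_one_of_mem (by positivity) hζ)
      _ = _ := by
          rw [Finset.sum_const, card_roots (by positivity), nsmul_eq_mul]
          push_cast
          ring
  refine (Finset.sum_le_sum hin).trans (le_of_eq ?_)
  rw [Finset.sum_const, card_roots (by positivity), nsmul_eq_mul]
  push_cast
  ring

theorem cube {w : ℂ} (h3 : w ^ 3 = 1) (h1 : w ≠ 1) : 3 / 2 ≤ ‖1 - w‖ := by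
  have hfac : (w - 1) * (w ^ 2 + w + 1) = 0 := by
    have : (w - 1) * (w ^ 2 + w + 1) = w ^ 3 - 1 := by ring
    rw [this, h3, sub_self]
  have hq : w ^ 2 + w + 1 = 0 := by
    rcases mul_eq_zero.mp hfac with h | h
    · exact absurd (sub_eq_zero.mp h) h1
    · exact h
  have hnorm : ‖w‖ = 1 := Complex.norm_eq_one_of_pow_eq_one h3 (by norm_num)
  have hre : w.re = -1 / 2 := by
    have e1 : w.re * w.re + w.im * w.im = 1 := by
      have := Complex.normSq_eq_norm_sq w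
      rw [Complex.normSq_apply, hnorm] at this
      linarith
    have e2 := congrArg Complex.re hq
    simp only [Complex.add_re, Complex.one_re, Complex.zero_re, pow_two, Complex.mul_re] at e2
    have e3 := congrArg Complex.im hq
    simp only [Complex.add_im, Complex.one_im, Complex.zero_im, pow_two, Complex.mul_im] at e3
    have e4 : w.im * (2 * w.re + 1) = 0 := by linarith
    rcases mul_eq_zero.mp e4 with h | h
    · exfalso
      rw [h] at e1 e2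
      nlinarith
    · linarith
  calc (3:ℝ) / 2 = (1 - w).re := by rw [Complex.sub_re, hre, Complex.one_re]; norm_num
    _ ≤ ‖1 - w‖ := Complex.re_le_norm _

theorem le_logM_eP {m : ℕ} (hm : 3 ≤ m) (M : ℂ) {N : ℕ} (hN : 3 ≤ N) (hM : ‖M‖ = N) {η ζ : ℂ}
    (hζ : IsPrimitiveRoot ζ m) (h3 : (η ^ m) ^ 3 = 1) (h1 : η ^ m ≠ 1) :
    (m : ℝ) * Real.log ‖M‖ ≤ (eP m M η ζ).logMahlerMeasure := by
  rw [← Real.log_pow]
  have hN3 : (3 : ℝ) ≤ N := by exact_mod_cast hN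
  refine le_logM _ (by rw [hM]; positivity) ?_
  intro z hz
  unfold eP
  rw [prod_prim (by omega) hζ]
  simp only [eval_add, eval_pow, eval_sub, eval_one, eval_X, eval_mul, eval_C]
  have e1 : ‖(1 - z ^ 2) ^ m‖ ≤ 2 ^ m := by
    rw [norm_pow]
    apply pow_le_pow_left₀ (norm_nonneg _)
    calc ‖1 - z ^ 2‖ ≤ ‖(1:ℂ)‖ + ‖z ^ 2‖ := norm_sub_le _ _
      _ = 2 := by rw [norm_pow, hz]; norm_num
  have e2 : ‖M‖ ^ m * (3 / 2) ≤ ‖M ^ m * (1 - η ^ m) * z ^ m‖ := by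
    rw [norm_mul, norm_mul, norm_pow, norm_pow z, hz, one_pow, mul_one]
    exact mul_le_mul_of_nonneg_left (cube h3 h1) (by positivity)
  have e3 : 2 * (2 : ℝ) ^ m ≤ ‖M‖ ^ m := by
    rw [hM]
    calc 2 * (2 : ℝ) ^ m ≤ (3 : ℝ) ^ m := by
          obtain ⟨k, rfl⟩ : ∃ k, m = 3 + k := ⟨m - 3, by omega⟩
          have : (2 : ℝ) ^ k ≤ 3 ^ k := pow_le_pow_left₀ (by norm_num) (by norm_num) k
          rw [pow_add, pow_add]
          have h9 : (0:ℝ) ≤ 3 ^ k := by positivity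
          nlinarith
      _ ≤ (N : ℝ) ^ m := pow_le_pow_left₀ (by norm_num) hN3 m
  have e4 := norm_sub_le (((1 - z ^ 2) ^ m + M ^ m * (1 - η ^ m) * z ^ m)) ((1 - z ^ 2) ^ m)
  rw [add_sub_cancel_left] at e4
  linarith

theorem card_prim (i : ℕ) : (primitiveRoots (3 ^ (i + 1)) ℂ).card = 2 * 3 ^ i := by
  rw [(Complex.isPrimitiveRoot_exp (3 ^ (i + 1)) (by positivity)).card_primitiveRoots,
    Nat.totient_prime_pow Nat.prime_three (Nat.succ_pos i)]
  simp [mul_comm]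

theorem S_type2 (j : ℕ) (M : ℂ) (hM : ∃ N : ℕ, 3 ≤ N ∧ (M = N ∨ M = -N)) :
    (4 * 3 ^ (2 * j + 1) * 3 ^ (j + 1) : ℝ) * Real.log ‖M‖
      ≤ S (3 ^ (j + 2)) (3 ^ (j + 1)) (3 ^ (j + 1)) M := by
  obtain ⟨N, hN, hMN⟩ := hM
  have hMn : ‖M‖ = N := by
    rcases hMN with rfl | rfl
    · exact Complex.norm_natCast N
    · rw [norm_neg]; exact Complex.norm_natCast N
  have hm3 : 3 ≤ 3 ^ (j + 1) := by
    calc 3 = 3 ^ 1 := by norm_num
      _ ≤ 3 ^ (j + 1) := Nat.pow_le_pow_right (by norm_num) (by omega)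
  have hmpos : 0 < 3 ^ (j + 1) := by positivity
  unfold S
  have hin : ∀ η ∈ primitiveRoots (3 ^ (j + 1 + 1)) ℂ,
      ((2 * 3 ^ j : ℕ) : ℝ) * (((3 ^ (j + 1) : ℕ) : ℝ) * Real.log ‖M‖) ≤
      ∑ ζ ∈ nthRootsFinset (3 ^ (j + 1)) (1 : ℂ), (eP (3 ^ (j + 1)) M η ζ).logMahlerMeasure := by
    intro η hη
    rw [mem_primitiveRoots (by positivity)] at hη
    rw [roots_split, Finset.sum_union (roots_disj j)]
    have h1 : ((2 * 3 ^ j : ℕ) : ℝ) * (((3 ^ (j + 1) : ℕ) : ℝ) * Real.log ‖M‖) ≤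
        ∑ ζ ∈ primitiveRoots (3 ^ (j + 1)) ℂ, (eP (3 ^ (j + 1)) M η ζ).logMahlerMeasure := by
      rw [← card_prim j, ← nsmul_eq_mul, ← Finset.sum_const]
      refine Finset.sum_le_sum fun ζ hζ => ?_
      rw [mem_primitiveRoots (by positivity)] at hζ
      refine le_logM_eP hm3 M hN hMn hζ ?_ ?_
      · rw [← pow_mul, ← pow_succ]
        exact hη.pow_eq_one
      · intro h
        have h2 := hη.dvd_of_pow_eq_one _ h
        have h3 := Nat.le_of_dvd (by positivity) h2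
        have h4 : 3 ^ (j + 1) < 3 ^ (j + 1 + 1) :=
          Nat.pow_lt_pow_right (by norm_num) (Nat.lt_succ_self _)
        omega
    have h2 : 0 ≤ ∑ ζ ∈ nthRootsFinset (3 ^ j) (1 : ℂ),
        (eP (3 ^ (j + 1)) M η ζ).logMahlerMeasure :=
      Finset.sum_nonneg fun ζ _ => logMahler_eP_nonneg hmpos M η ζ
    linarith
  have hsplit : nthRootsFinset (3 ^ (j + 2)) (1 : ℂ) =
      primitiveRoots (3 ^ (j + 1 + 1)) ℂ ∪ nthRootsFinset (3 ^ (j + 1)) (1 : ℂ) :=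
    roots_split (j + 1)
  rw [hsplit, Finset.sum_union (roots_disj (j + 1))]
  have h2 : 0 ≤ ∑ η ∈ nthRootsFinset (3 ^ (j + 1)) (1 : ℂ),
      ∑ ζ ∈ nthRootsFinset (3 ^ (j + 1)) (1 : ℂ), (eP (3 ^ (j + 1)) M η ζ).logMahlerMeasure :=
    Finset.sum_nonneg fun η _ => Finset.sum_nonneg fun ζ _ => logMahler_eP_nonneg hmpos M η ζ
  have h3 := Finset.sum_le_sum hin
  rw [Finset.sum_const, card_prim, nsmul_eq_mul] at h3
  have h4 : (4 * 3 ^ (2 * j + 1) * 3 ^ (j + 1) : ℝ) * Real.log ‖M‖ =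
      ((2 * 3 ^ (j + 1) : ℕ) : ℝ) *
        (((2 * 3 ^ j : ℕ) : ℝ) * (((3 ^ (j + 1) : ℕ) : ℝ) * Real.log ‖M‖)) := by
    push_cast
    ring
  rw [h4]
  linarith

end Pool.Agent.TH304.J893
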